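import Pool.Agent.Helper5.CL.FamD

/-!
# The rank of the closure and the coordinates of the logarithm
-/

set_option autoImplicit false
set_option linter.unusedSectionVars false

namespace Pool.Agent.Helper5.CL

open Module Pool.Agent.N192.AV

section ariA

variable {p : ℕ} [Fact p.Prime] {n : ℕ} {D : Setup p n}

/-- the rank of the closure, for subspaces of `V` -/
noncomputable def crV (V : Submodule D.E D.M) (L : Submodule ℚ V) : ℕ :=
  finrank ℚ_[p] (Submodule.span ℚ_[p] ((fun v : V => D.log (v : D.M)) '' (L : Set V)))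

/-- the coordinates of the logarithm -/
noncomputable def xf (V : Submodule D.E D.M) (L : Submodule ℚ V) (k : Fin n) :
    L → PadicAlgCl p := fun l => algebraMap ℚ_[p] (PadicAlgCl p) (D.log ((l : V) : D.M) k)

theorem finrank_xf_le (V : Submodule D.E D.M) (L : Submodule ℚ V) :
    finrank (PadicAlgCl p) (Submodule.span (PadicAlgCl p) (Set.range (xf V L))) ≤ crV V L := by
  classical
  set W := Submodule.span ℚ_[p] ((fun v : V => D.log (v : D.M)) '' (L : Set V)) with hW
  let w := finBasis ℚ_[p] W
  have hlog : ∀ l : L, D.log ((l : V) : D.M) ∈ W := fun l => Submodule.subset_span ⟨l, l.2, rfl⟩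
  let c : Fin (finrank ℚ_[p] W) → L → PadicAlgCl p :=
    fun a l => algebraMap ℚ_[p] (PadicAlgCl p) (w.repr ⟨D.log ((l : V) : D.M), hlog l⟩ a)
  have h1 : Submodule.span (PadicAlgCl p) (Set.range (xf V L)) ≤
      Submodule.span (PadicAlgCl p) (Set.range c) := by
    rw [Submodule.span_le]
    rintro _ ⟨k, rfl⟩
    have h2 : xf V L k = ∑ a, algebraMap ℚ_[p] (PadicAlgCl p)
        ((w a : Fin n → ℚ_[p]) k) • c a := by
      funext l
      have e1 := w.sum_repr ⟨D.log ((l : V) : D.M), hlog l⟩
      have e2 := congrArg (fun z : W => (z : Fin n → ℚ_[p]) k) e1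
      simp only [Submodule.coe_sum, Submodule.coe_smul, Finset.sum_apply, Pi.smul_apply,
        smul_eq_mul] at e2
      rw [xf, ← e2, map_sum, Finset.sum_apply]
      refine Finset.sum_congr rfl fun a _ => ?_
      rw [map_mul, Pi.smul_apply, smul_eq_mul, mul_comm]
    rw [h2]
    exact Submodule.sum_mem _ fun a _ => Submodule.smul_mem _ _ (Submodule.subset_span ⟨a, rfl⟩)
  have hfin : Module.Finite (PadicAlgCl p)
      (Submodule.span (PadicAlgCl p) (Set.range c)) :=
    Module.Finite.span_of_finite _ (Set.finite_range _)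
  calc finrank (PadicAlgCl p) (Submodule.span (PadicAlgCl p) (Set.range (xf V L)))
      ≤ finrank (PadicAlgCl p) (Submodule.span (PadicAlgCl p) (Set.range c)) :=
        Submodule.finrank_mono h1
    _ ≤ Fintype.card (Fin (finrank ℚ_[p] W)) := finrank_range_le_card c
    _ = crV V L := by rw [Fintype.card_fin]; rfl

theorem le_finrank_xf (V : Submodule D.E D.M) (L : Submodule ℚ V) :
    crV V L ≤ finrank (PadicAlgCl p) (Submodule.span (PadicAlgCl p) (Set.range (xf V L))) := by
  classical
  obtain ⟨κ, a, ha, hsp, hli⟩ := exists_linearIndependent' ℚ_[p]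
    (fun l : L => D.log ((l : V) : D.M))
  have hκ : Finite κ := hli.finite
  have := Fintype.ofFinite κ
  have hcr : crV V L = Fintype.card κ := by
    have h1 : (fun v : V => D.log (v : D.M)) '' (L : Set V) =
        Set.range (fun l : L => D.log ((l : V) : D.M)) := by
      ext x
      constructor
      · rintro ⟨v, hv, rfl⟩
        exact ⟨⟨v, hv⟩, rfl⟩
      · rintro ⟨l, rfl⟩
        exact ⟨l, l.2, rfl⟩
    rw [crV, h1, ← hsp, finrank_span_eq_card hli]
  -- a left inverse
  have hker : LinearMap.ker (Fintype.linearCombination ℚ_[p]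
      ((fun l : L => D.log ((l : V) : D.M)) ∘ a)) = ⊥ := by
    rw [LinearMap.ker_eq_bot']
    intro q hq
    rw [Fintype.linearCombination_apply] at hq
    exact funext fun i => Fintype.linearIndependent_iff.1 hli q hq i
  obtain ⟨g, hg⟩ := LinearMap.exists_leftInverse_of_injective _ hker
  have hg' : ∀ i, g (D.log ((a i : V) : D.M)) = Pi.single i 1 := by
    intro i
    have := LinearMap.congr_fun hg (Pi.single i 1)
    rw [LinearMap.comp_apply, Fintype.linearCombination_apply_single, one_smul] at this
    exact this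
  let res : (L → PadicAlgCl p) →ₗ[PadicAlgCl p] (κ → PadicAlgCl p) :=
    { toFun := fun f i => f (a i)
      map_add' := fun f f' => rfl
      map_smul' := fun c f => rfl }
  have hsurj : (Submodule.span (PadicAlgCl p) (Set.range (xf V L))).map res = ⊤ := by
    rw [eq_top_iff]
    intro y _
    have h2 : ∀ j : κ, (Pi.single j 1 : κ → PadicAlgCl p) ∈
        (Submodule.span (PadicAlgCl p) (Set.range (xf V L))).map res := by
      intro j
      refine ⟨∑ k, algebraMap ℚ_[p] (PadicAlgCl p) (g (Pi.single k 1) j) • xf V L k,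
        Submodule.sum_mem _ fun k _ => Submodule.smul_mem _ _
          (Submodule.subset_span ⟨k, rfl⟩), ?_⟩
      funext i
      have h3 : g (D.log ((a i : V) : D.M)) j =
          ∑ k, D.log ((a i : V) : D.M) k * g (Pi.single k 1) j := by
        conv_lhs => rw [pi_eq_sum_univ' (D.log ((a i : V) : D.M))]
        rw [map_sum, Finset.sum_apply]
        refine Finset.sum_congr rfl fun k _ => ?_
        rw [map_smul, Pi.smul_apply, smul_eq_mul]
      rw [hg'] at h3
      show (∑ k, algebraMap ℚ_[p] (PadicAlgCl p) (g (Pi.single k 1) j) • xf V L k) (a i) = _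
      rw [Finset.sum_apply]
      have h4 : (Pi.single j 1 : κ → PadicAlgCl p) i =
          algebraMap ℚ_[p] (PadicAlgCl p) ((Pi.single i 1 : κ → ℚ_[p]) j) := by
        by_cases hij : i = j
        · subst hij
          simp
        · rw [Pi.single_eq_of_ne hij, Pi.single_eq_of_ne (Ne.symm hij), map_zero]
      rw [h4, h3, map_sum]
      refine Finset.sum_congr rfl fun k _ => ?_
      rw [Pi.smul_apply, smul_eq_mul, map_mul, mul_comm]
      rfl
    have h5 : y = ∑ j, y j • (Pi.single j 1 : κ → PadicAlgCl p) := pi_eq_sum_univ' y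
    rw [h5]
    exact Submodule.sum_mem _ fun j _ => Submodule.smul_mem _ _ (h2 j)
  have hfin : Module.Finite (PadicAlgCl p)
      (Submodule.span (PadicAlgCl p) (Set.range (xf V L))) :=
    Module.Finite.span_of_finite _ (Set.finite_range _)
  have h6 := Submodule.finrank_map_le res (Submodule.span (PadicAlgCl p) (Set.range (xf V L)))
  rw [hsurj, finrank_top, Module.finrank_fintype_fun_eq_card] at h6
  rw [hcr]
  exact h6

theorem finrank_xf (V : Submodule D.E D.M) (L : Submodule ℚ V) :
    finrank (PadicAlgCl p) (Submodule.span (PadicAlgCl p) (Set.range (xf V L))) = crV V L :=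
  le_antisymm (finrank_xf_le V L) (le_finrank_xf V L)

variable (hn : 0 < n) (hD : Props D)

/-- the functionals on `V` -/
noncomputable def famV (V : Submodule D.E D.M) : Fam D.E (PadicAlgCl p) V where
  lam σ v := (fam hn hD).lam σ (v : D.M)
  add σ x y := (fam hn hD).add σ x y
  smul σ e x := (fam hn hD).smul σ e x
  indep s Q hQ σ a ha h := (fam hn hD).indep s (fun i => (Q i : D.M))
    (hQ.map' V.subtype (Submodule.ker_subtype V)) σ a ha h

theorem famV_lam (V : Submodule D.E D.M) (σ : D.E →ₐ[ℚ] PadicAlgCl p) (v : V) :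
    (famV hn hD V).lam σ v =
      ∑ k, phi hn D σ k * algebraMap ℚ_[p] (PadicAlgCl p) (D.log (v : D.M) k) := rfl

theorem span_lam_le (V : Submodule D.E D.M) (L : Submodule ℚ V) :
    Submodule.span (PadicAlgCl p) (Set.range fun (σ : D.E →ₐ[ℚ] PadicAlgCl p) (l : L) =>
      (famV hn hD V).lam σ (l : V)) ≤ Submodule.span (PadicAlgCl p) (Set.range (xf V L)) := by
  rw [Submodule.span_le]
  rintro _ ⟨σ, rfl⟩
  have h1 : (fun l : L => (famV hn hD V).lam σ (l : V)) = ∑ k, phi hn D σ k • xf V L k := by
    funext l
    rw [famV_lam, Finset.sum_apply]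
    rfl
  show (fun l : L => (famV hn hD V).lam σ (l : V)) ∈ _
  rw [h1]
  exact Submodule.sum_mem _ fun k _ => Submodule.smul_mem _ _ (Submodule.subset_span ⟨k, rfl⟩)

theorem rkF_le_crV (V : Submodule D.E D.M) (L : Submodule ℚ V) :
    rkF (famV hn hD V) L ≤ crV V L := by
  rw [← finrank_xf]
  have : Module.Finite (PadicAlgCl p)
      (Submodule.span (PadicAlgCl p) (Set.range (xf V L))) :=
    Module.Finite.span_of_finite _ (Set.finite_range _)
  exact Submodule.finrank_mono (span_lam_le hn hD V L)

end ariA

end Pool.Agent.Helper5.CL
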