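import Pool.Agent.Helper5.CL.AriA
import Pool.Graph.R_pool_sql_team_seeded_b677cdb8.E8helper40.PC.Linear

/-!
# If one subspace has the smallest possible rank, then all eigenfunctionals are proportional
-/

set_option autoImplicit false
set_option linter.unusedSectionVars false

namespace Pool.Agent.Helper5.CL

open Module Pool.Agent.N192.AV

section prop

variable {X K C : Type} [Fintype X] [Field K] [Field C] [Algebra K C] {t : ℕ}

theorem prop_of_comb (ℓ : X → (Fin t → K) →ₗ[K] C) (hℓ : ∀ σ, Function.Injective (ℓ σ))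
    (Λ : Submodule K (X → Fin t → K)) (hΛ : finrank K Λ = t * rk ℓ Λ)
    (g : (Fin t → K) →ₗ[K] C) (σ : X) (d : X → C)
    (hg : ∀ w ∈ Λ, g (w σ) = ∑ τ, d τ * ℓ τ (w τ)) (hne : ∃ w ∈ Λ, w σ ≠ 0) :
    ∃ c : C, ∀ u, g u = c * ℓ σ u := by
  classical
  obtain ⟨κ, _, _, a, P, c, h1, h2, h3, -⟩ := structure_of_ext ℓ hℓ Λ hΛ
  have h4 : ∃ k, c σ k ≠ 0 := by
    by_contra hcon
    push Not at hcon
    obtain ⟨w, hw, hw0⟩ := hne
    apply hw0
    rw [h1 w hw σ]
    refine Finset.sum_eq_zero fun k _ => hℓ σ ?_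
    rw [h3, hcon k, zero_mul, map_zero]
  obtain ⟨k, hk⟩ := h4
  have hinj : Function.Injective (P σ k) := by
    rw [← LinearMap.ker_eq_bot, LinearMap.ker_eq_bot']
    intro u hu
    have h5 := h3 σ k u
    rw [hu, map_zero] at h5
    have h6 := (mul_eq_zero.1 h5.symm).resolve_left hk
    exact hℓ (a k) (by rw [h6, map_zero])
  have hsurj : Function.Surjective (P σ k) := LinearMap.injective_iff_surjective.1 hinj
  have h7 : ∀ u, g (P σ k u) = (∑ τ, d τ * c τ k) * ℓ (a k) u := by
    intro u
    obtain ⟨w, hw, hwk⟩ := h2 (Pi.single k u)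
    have h8 : ∀ τ, w τ = P τ k u := by
      intro τ
      rw [h1 w hw τ, Finset.sum_eq_single k]
      · rw [hwk k, Pi.single_eq_same]
      · intro k' _ hk'
        rw [hwk k', Pi.single_eq_of_ne hk', map_zero]
      · intro hk'
        exact absurd (Finset.mem_univ k) hk'
    have h9 := hg w hw
    rw [h8 σ] at h9
    rw [h9, Finset.sum_mul]
    refine Finset.sum_congr rfl fun τ _ => ?_
    rw [h8 τ, h3, mul_assoc]
  refine ⟨(∑ τ, d τ * c τ k) / c σ k, fun u => ?_⟩
  obtain ⟨v, rfl⟩ := hsurj u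
  rw [h7, h3]
  field_simp

end prop

section famprop

variable {E C V : Type} [Field E] [CharZero E] [FiniteDimensional ℚ E] [Field C] [CharZero C]
  [IsAlgClosed C] [AddCommGroup V] [Module E V] [Module ℚ V] [IsScalarTower ℚ E V] {t : ℕ}
  (F : Fam E C V) (P : Basis (Fin t) E V)

include P in
theorem fam_prop (L : Submodule ℚ V) (hL : finrank ℚ L = t * rkF F L) (hL0 : L ≠ ⊥)
    (g : V →+ C) (σ : E →ₐ[ℚ] C) (hgs : ∀ (e : E) (v : V), g (e • v) = σ e * g v)
    (hg : (fun l : L => g (l : V)) ∈ Submodule.span C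
      (Set.range fun (σ : E →ₐ[ℚ] C) (l : L) => F.lam σ (l : V))) :
    ∃ c : C, ∀ v, g v = c * F.lam σ v := by
  classical
  have hV := finite_V P
  obtain ⟨d, hd⟩ := (Submodule.mem_span_range_iff_exists_fun C).1 hg
  have hd' : ∀ l ∈ L, g l = ∑ τ, d τ * F.lam τ l := by
    intro l hl
    have e1 := congrFun hd ⟨l, hl⟩
    rw [Finset.sum_apply] at e1
    exact e1.symm
  let gU : (Fin t → Fam.K C) →ₗ[Fam.K C] C :=
    { toFun := fun u => ∑ i, (u i : C) * g (P i)
      map_add' := fun u v => by
        rw [← Finset.sum_add_distrib]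
        refine Finset.sum_congr rfl fun i _ => ?_
        rw [← add_mul]
        rfl
      map_smul' := fun c u => by
        rw [RingHom.id_apply, Finset.smul_sum]
        refine Finset.sum_congr rfl fun i _ => ?_
        exact mul_assoc (c : C) (u i : C) (g (P i)) }
  have hgU : ∀ v, gU (evV C P v σ) = g v := by
    intro v
    conv_rhs => rw [← P.sum_repr v, map_sum]
    show ∑ i, ((evV C P v σ i : Fam.K C) : C) * g (P i) = _
    refine Finset.sum_congr rfl fun i _ => ?_
    rw [hgs]
    rfl
  have h1 : ∀ w ∈ LK (C := C) P L, gU (w σ) = ∑ τ, d τ * lamU F P τ (w τ) := by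
    intro w hw
    refine Submodule.span_induction
      (p := fun w _ => gU (w σ) = ∑ τ, d τ * lamU F P τ (w τ)) ?_ ?_ ?_ ?_ hw
    · rintro _ ⟨l, hl, rfl⟩
      rw [hgU, hd' l hl]
      exact Finset.sum_congr rfl fun τ _ => by rw [lamU_ev]
    · simp
    · intro x y _ _ hx hy
      rw [Pi.add_apply, map_add, hx, hy, ← Finset.sum_add_distrib]
      refine Finset.sum_congr rfl fun τ _ => ?_
      rw [Pi.add_apply, map_add, mul_add]
    · intro c x _ hx
      rw [Pi.smul_apply, map_smul, hx, Finset.smul_sum]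
      refine Finset.sum_congr rfl fun τ _ => ?_
      rw [Pi.smul_apply, map_smul, mul_smul_comm]
  have h2 : ∃ w ∈ LK (C := C) P L, w σ ≠ 0 := by
    obtain ⟨l, hl, hl0⟩ := Submodule.exists_mem_ne_zero_of_ne_bot hL0
    refine ⟨_, mem_LK P hl, fun h0 => hl0 ?_⟩
    apply P.repr.injective
    refine Finsupp.ext fun i => ?_
    have e1 := congrFun h0 i
    rw [evV_apply, Pi.zero_apply] at e1
    rw [map_zero, Finsupp.zero_apply]
    exact (map_eq_zero (Fam.sKr σ)).1 e1
  obtain ⟨c, hc⟩ := prop_of_comb (lamU F P) (lamU_inj F P) (LK P L)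
    (by rw [rk_LK, finrank_LK]; exact hL) gU σ d h1 h2
  exact ⟨c, fun v => by rw [← hgU, hc, lamU_ev]⟩

end famprop

section ariB

variable {p : ℕ} [Fact p.Prime] {n : ℕ} {D : Setup p n} (hn : 0 < n) (hD : Props D)

/-- the functional given by a row vector -/
noncomputable def rowF (V : Submodule D.E D.M) (μ : Fin n → Fam.K (PadicAlgCl p)) :
    V →+ PadicAlgCl p where
  toFun v := ∑ k, (μ k : PadicAlgCl p) * algebraMap ℚ_[p] (PadicAlgCl p) (D.log (v : D.M) k)
  map_zero' := by simp
  map_add' v w := by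
    rw [← Finset.sum_add_distrib]
    refine Finset.sum_congr rfl fun k _ => ?_
    rw [Submodule.coe_add, map_add, Pi.add_apply, map_add, mul_add]

theorem rowF_apply (V : Submodule D.E D.M) (μ : Fin n → Fam.K (PadicAlgCl p)) (v : V) :
    rowF V μ v =
      ∑ k, (μ k : PadicAlgCl p) * algebraMap ℚ_[p] (PadicAlgCl p) (D.log (v : D.M) k) := rfl

include hD in
theorem rowF_smul (V : Submodule D.E D.M) (μ : Fin n → Fam.K (PadicAlgCl p))
    (e : D.E) (s : Fam.K (PadicAlgCl p))
    (hμ : Matrix.vecMul μ (E8helper40.PC.ovf (Fam.K (PadicAlgCl p)) (D.tau e)) = s • μ) (v : V) :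
    rowF V μ (e • v) = (s : PadicAlgCl p) * rowF V μ v := by
  classical
  rw [rowF_apply, rowF_apply]
  have e0 : D.log ((e • v : V) : D.M) =
      ((D.tau e).map (fun x : ℚ => (x : ℚ_[p]))).mulVec (D.log (v : D.M)) := hD.equiv e v
  have h1 : ∀ k, algebraMap ℚ_[p] (PadicAlgCl p) (D.log ((e • v : V) : D.M) k) =
      ∑ j, ((D.tau e k j : ℚ) : PadicAlgCl p) *
        algebraMap ℚ_[p] (PadicAlgCl p) (D.log (v : D.M) j) := by
    intro k
    rw [e0]
    simp [Matrix.mulVec, dotProduct]
  simp_rw [h1, Finset.mul_sum]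
  rw [Finset.sum_comm]
  refine Finset.sum_congr rfl fun j _ => ?_
  have h2 := congrFun hμ j
  have h3 := congrArg (fun z : Fam.K (PadicAlgCl p) => (z : PadicAlgCl p)) h2
  have h4 : ((Matrix.vecMul μ (E8helper40.PC.ovf (Fam.K (PadicAlgCl p)) (D.tau e)) j :
      Fam.K (PadicAlgCl p)) : PadicAlgCl p) =
      ∑ k, (μ k : PadicAlgCl p) * ((D.tau e k j : ℚ) : PadicAlgCl p) := by
    simp only [Matrix.vecMul, dotProduct, AddSubmonoidClass.coe_finsetSum]
    refine Finset.sum_congr rfl fun k _ => ?_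
    rfl
  change ((Matrix.vecMul μ (E8helper40.PC.ovf (Fam.K (PadicAlgCl p)) (D.tau e)) j :
      Fam.K (PadicAlgCl p)) : PadicAlgCl p) = (s : PadicAlgCl p) * (μ j : PadicAlgCl p) at h3
  rw [h4] at h3
  rw [← mul_assoc, ← h3, Finset.sum_mul]
  exact Finset.sum_congr rfl fun k _ => by ring

include hn hD in
/-- if some nonzero subspace has the smallest possible rank, the coordinates of the logarithm on `V`
are combinations of the functionals of the family -/
theorem crV_eq (V : Submodule D.E D.M) {t : ℕ} (P : Basis (Fin t) D.E V) (L₀ : Submodule ℚ V)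
    (h0 : L₀ ≠ ⊥) (hL₀ : finrank ℚ L₀ = t * crV V L₀) (L : Submodule ℚ V) :
    rkF (famV hn hD V) L = crV V L := by
  classical
  apply le_antisymm (rkF_le_crV hn hD V L)
  have hV := finite_V P
  have hpos : 0 < finrank ℚ L₀ := by
    have : Nontrivial L₀ := Submodule.nontrivial_iff_ne_bot.2 h0
    exact finrank_pos
  have ht : 0 < t := Nat.pos_of_ne_zero fun h => by rw [hL₀, h, zero_mul] at hpos; exact hpos.ne rfl
  have h1 : rkF (famV hn hD V) L₀ = crV V L₀ := by
    apply le_antisymm (rkF_le_crV hn hD V L₀)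
    have h2 := finrank_le_rkF (famV hn hD V) P L₀
    rw [hL₀] at h2
    exact Nat.le_of_mul_le_mul_left h2 ht
  have hext : finrank ℚ L₀ = t * rkF (famV hn hD V) L₀ := by rw [h1]; exact hL₀
  have h3 : Submodule.span (PadicAlgCl p) (Set.range fun (σ : D.E →ₐ[ℚ] PadicAlgCl p) (l : L₀) =>
      (famV hn hD V).lam σ (l : V)) = Submodule.span (PadicAlgCl p) (Set.range (xf V L₀)) := by
    have : Module.Finite (PadicAlgCl p)
        (Submodule.span (PadicAlgCl p) (Set.range (xf V L₀))) :=
      Module.Finite.span_of_finite _ (Set.finite_range _)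
    apply Submodule.eq_of_le_of_finrank_eq (span_lam_le hn hD V L₀)
    rw [finrank_xf]
    exact h1
  -- the row functionals are combinations of the functionals of the family
  have h4 : ∀ μ : Fin n → Fam.K (PadicAlgCl p), ∀ L : Submodule ℚ V,
      (fun l : L => rowF V μ (l : V)) ∈ Submodule.span (PadicAlgCl p) (Set.range (xf V L)) := by
    intro μ L
    have : (fun l : L => rowF V μ (l : V)) = ∑ k, (μ k : PadicAlgCl p) • xf V L k := by
      funext l
      rw [rowF_apply, Finset.sum_apply]
      rfl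
    rw [this]
    exact Submodule.sum_mem _ fun k _ => Submodule.smul_mem _ _ (Submodule.subset_span ⟨k, rfl⟩)
  have h5 : ∀ μ : Fin n → Fam.K (PadicAlgCl p),
      E8helper40.PC.Eigen (Fam.K (PadicAlgCl p)) (D.tau : D.E →+* Matrix (Fin n) (Fin n) ℚ) ⊤ μ →
      ∃ (c : PadicAlgCl p) (σ : D.E →ₐ[ℚ] PadicAlgCl p),
        ∀ v, rowF V μ v = c * (famV hn hD V).lam σ v := by
    rintro μ ⟨s, hs⟩
    obtain ⟨σ0⟩ : Nonempty (D.E →ₐ[ℚ] PadicAlgCl p) := by
      rw [← Fintype.card_pos_iff, AlgHom.card]
      exact finrank_pos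
    by_cases hμ : μ = 0
    · refine ⟨0, σ0, fun v => ?_⟩
      rw [rowF_apply, hμ, zero_mul]
      exact Finset.sum_eq_zero fun k _ => by simp
    have hs' : ∀ x : D.E, Matrix.vecMul μ
        (E8helper40.PC.ovf (Fam.K (PadicAlgCl p)) (D.tau x)) = s ⟨x, trivial⟩ • μ :=
      fun x => hs ⟨x, trivial⟩
    obtain ⟨k, hk⟩ : ∃ k, μ k ≠ 0 := by
      by_contra hcon
      push Not at hcon
      exact hμ (funext hcon)
    have huniq : ∀ a b : Fam.K (PadicAlgCl p), a • μ = b • μ → a = b := by
      intro a b hab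
      have := congrFun hab k
      rw [Pi.smul_apply, Pi.smul_apply, smul_eq_mul, smul_eq_mul] at this
      exact mul_right_cancel₀ hk this
    let σ1 : D.E →+* Fam.K (PadicAlgCl p) :=
      { toFun := fun x => s ⟨x, trivial⟩
        map_one' := by
          apply huniq
          rw [← hs' 1, map_one, one_smul]
          have : E8helper40.PC.ovf (Fam.K (PadicAlgCl p)) (1 : Matrix (Fin n) (Fin n) ℚ) = 1 :=
            Matrix.map_one _ (map_zero _) (map_one _)
          rw [this, Matrix.vecMul_one]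
        map_mul' := fun x y => by
          apply huniq
          rw [← hs' (x * y), map_mul, E8helper40.PC.ovf_mul, ← Matrix.vecMul_vecMul, hs' x,
            Matrix.smul_vecMul, hs' y, smul_smul]
        map_zero' := by
          apply huniq
          rw [← hs' 0, map_zero, zero_smul, E8helper40.PC.ovf_zero, Matrix.vecMul_zero]
        map_add' := fun x y => by
          apply huniq
          rw [← hs' (x + y), map_add, E8helper40.PC.ovf_add, Matrix.vecMul_add, hs' x, hs' y,
            add_smul] }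
    let σ : D.E →ₐ[ℚ] PadicAlgCl p :=
      ((algebraMap (Fam.K (PadicAlgCl p)) (PadicAlgCl p)).comp σ1).toRatAlgHom
    have hσ : ∀ e, σ e = (s ⟨e, trivial⟩ : PadicAlgCl p) := fun e => rfl
    obtain ⟨c, hc⟩ := fam_prop (famV hn hD V) P L₀ hext h0 (rowF V μ) σ (fun e v => by
      rw [rowF_smul hD V μ e (s ⟨e, trivial⟩) (hs' e) v, hσ]) (by
      rw [h3]
      exact h4 μ L₀)
    exact ⟨c, σ, hc⟩
  have h6 : ∀ μ : Fin n → Fam.K (PadicAlgCl p), (fun l : L => rowF V μ (l : V)) ∈
      Submodule.span (PadicAlgCl p) (Set.range fun (σ : D.E →ₐ[ℚ] PadicAlgCl p) (l : L) =>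
        (famV hn hD V).lam σ (l : V)) := by
    intro μ
    have hmem : μ ∈ Submodule.span (Fam.K (PadicAlgCl p)) {μ : Fin n → Fam.K (PadicAlgCl p) |
        E8helper40.PC.Eigen (Fam.K (PadicAlgCl p))
          (D.tau : D.E →+* Matrix (Fin n) (Fin n) ℚ) ⊤ μ} := by
      rw [E8helper40.PC.span_eigen hn _ ⊤ (fun x _ y _ => mul_comm x y)]
      trivial
    refine Submodule.span_induction (p := fun μ _ => (fun l : L => rowF V μ (l : V)) ∈
      Submodule.span (PadicAlgCl p) (Set.range fun (σ : D.E →ₐ[ℚ] PadicAlgCl p) (l : L) =>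
        (famV hn hD V).lam σ (l : V))) ?_ ?_ ?_ ?_ hmem
    · intro μ hμ
      obtain ⟨c, σ, hc⟩ := h5 μ hμ
      have : (fun l : L => rowF V μ (l : V)) = c • fun l : L => (famV hn hD V).lam σ (l : V) := by
        funext l
        exact hc l
      rw [this]
      exact Submodule.smul_mem _ _ (Submodule.subset_span ⟨σ, rfl⟩)
    · have : (fun l : L => rowF V (0 : Fin n → Fam.K (PadicAlgCl p)) (l : V)) = 0 := by
        funext l
        rw [rowF_apply]
        exact Finset.sum_eq_zero fun k _ => by simp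
      rw [this]
      exact Submodule.zero_mem _
    · intro x y _ _ hx hy
      have : (fun l : L => rowF V (x + y) (l : V)) =
          (fun l : L => rowF V x (l : V)) + fun l : L => rowF V y (l : V) := by
        funext l
        rw [Pi.add_apply, rowF_apply, rowF_apply, rowF_apply, ← Finset.sum_add_distrib]
        refine Finset.sum_congr rfl fun k _ => ?_
        rw [← add_mul]
        rfl
      rw [this]
      exact Submodule.add_mem _ hx hy
    · intro c x _ hx
      have : (fun l : L => rowF V (c • x) (l : V)) =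
          (c : PadicAlgCl p) • fun l : L => rowF V x (l : V) := by
        funext l
        rw [Pi.smul_apply, rowF_apply, rowF_apply, Finset.smul_sum]
        refine Finset.sum_congr rfl fun k _ => ?_
        exact mul_assoc (c : PadicAlgCl p) (x k : PadicAlgCl p) _
      rw [this]
      exact Submodule.smul_mem _ _ hx
  have h7 : Submodule.span (PadicAlgCl p) (Set.range (xf V L)) ≤
      Submodule.span (PadicAlgCl p) (Set.range fun (σ : D.E →ₐ[ℚ] PadicAlgCl p) (l : L) =>
        (famV hn hD V).lam σ (l : V)) := by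
    rw [Submodule.span_le]
    rintro _ ⟨k, rfl⟩
    have e1 := h6 (Pi.single k 1)
    have e2 : (fun l : L => rowF V (Pi.single k 1 : Fin n → Fam.K (PadicAlgCl p)) (l : V)) =
        xf V L k := by
      funext l
      rw [rowF_apply, Finset.sum_eq_single k]
      · rw [Pi.single_eq_same]
        exact one_mul _
      · intro j _ hj
        rw [Pi.single_eq_of_ne hj]
        exact zero_mul _
      · intro h
        exact absurd (Finset.mem_univ k) h
    rwa [e2] at e1
  rw [← finrank_xf]
  have : Module.Finite (PadicAlgCl p) (Submodule.span (PadicAlgCl p)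
      (Set.range fun (σ : D.E →ₐ[ℚ] PadicAlgCl p) (l : L) => (famV hn hD V).lam σ (l : V))) :=
    Module.Finite.span_of_finite _ (Set.finite_range _)
  exact Submodule.finrank_mono h7

end ariB

end Pool.Agent.Helper5.CL
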