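import Pool.Agent.Helper5.CL.AriB

/-!
# The theorem for the subspaces of a space `V` over `E`
-/

set_option autoImplicit false
set_option linter.unusedSectionVars false

namespace Pool.Agent.Helper5.CL

open Module Pool.Agent.N192.AV

section ariC

variable {p : ℕ} [Fact p.Prime] {n : ℕ} {D : Setup p n} (hn : 0 < n) (hD : Props D)

include hn in
theorem finrank_E_le (D : Setup p n) : finrank ℚ D.E ≤ n := by
  classical
  have : Nonempty (Fin n) := ⟨⟨0, hn⟩⟩
  let i0 : Fin n := ⟨0, hn⟩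
  let φ : D.E →ₗ[ℚ] (Fin n → ℚ) :=
    { toFun := fun e => (D.tau e).mulVec (Pi.single i0 1)
      map_add' := fun a b => by rw [map_add, Matrix.add_mulVec]
      map_smul' := fun q a => by
        rw [RingHom.id_apply]
        have h1 : D.tau (q • a) = q • D.tau a := (D.tau.toLinearMap).map_smul q a
        rw [h1, Matrix.smul_mulVec] }
  have hinj : Function.Injective φ := by
    rw [← LinearMap.ker_eq_bot, LinearMap.ker_eq_bot']
    intro e he
    by_contra hne
    have h1 : (D.tau e⁻¹).mulVec ((D.tau e).mulVec (Pi.single i0 (1 : ℚ))) = Pi.single i0 1 := by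
      rw [Matrix.mulVec_mulVec, ← map_mul, inv_mul_cancel₀ hne, map_one, Matrix.one_mulVec]
    have h2 : (D.tau e).mulVec (Pi.single i0 (1 : ℚ)) = 0 := he
    rw [h2, Matrix.mulVec_zero] at h1
    have h3 := congrFun h1 i0
    rw [Pi.single_eq_same] at h3
    exact zero_ne_one h3
  have h4 := LinearMap.finrank_le_finrank_of_injective hinj
  rwa [Module.finrank_fintype_fun_eq_card, Fintype.card_fin] at h4

theorem crV_le_n (V : Submodule D.E D.M) (L : Submodule ℚ V) : crV V L ≤ n := by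
  have h := Submodule.finrank_le
    (Submodule.span ℚ_[p] ((fun v : V => D.log (v : D.M)) '' (L : Set V)))
  rwa [Module.finrank_fintype_fun_eq_card, Fintype.card_fin] at h

theorem crV_mono (V : Submodule D.E D.M) {L L' : Submodule ℚ V} (h : L ≤ L') :
    crV V L ≤ crV V L' :=
  Submodule.finrank_mono (Submodule.span_mono (Set.image_mono h))

include hn hD in
theorem finrank_le_crV (V : Submodule D.E D.M) {t : ℕ} (P : Basis (Fin t) D.E V)
    (L : Submodule ℚ V) : finrank ℚ L ≤ t * crV V L :=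
  (finrank_le_rkF (famV hn hD V) P L).trans (Nat.mul_le_mul_left t (rkF_le_crV hn hD V L))

theorem finrank_V (V : Submodule D.E D.M) {t : ℕ} (P : Basis (Fin t) D.E V) :
    finrank ℚ V = finrank ℚ D.E * t := by
  rw [← Module.finrank_mul_finrank ℚ D.E V, Module.finrank_eq_card_basis P, Fintype.card_fin]

include hn hD in
theorem ext_of_gl2 (V : Submodule D.E D.M) {t : ℕ} (P : Basis (Fin t) D.E V)
    (ht : 0 < t) (hE : finrank ℚ D.E = n) :
    finrank ℚ (⊤ : Submodule ℚ V) = t * crV V ⊤ := by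
  have hV := finite_V P
  have h1 := finrank_le_crV hn hD V P ⊤
  rw [finrank_top, finrank_V V P, hE, mul_comm] at h1
  have h2 := Nat.le_of_mul_le_mul_left h1 ht
  have h3 := crV_le_n V (⊤ : Submodule ℚ V)
  rw [finrank_top, finrank_V V P, hE, mul_comm, le_antisymm h3 h2]

include hn hD in
/-- the main theorem, for subspaces of `V` -/
theorem mainV (V : Submodule D.E D.M) {t : ℕ} (P : Basis (Fin t) D.E V)
    (L₀ : Submodule ℚ V) (h0 : L₀ ≠ ⊥) (hL₀ : finrank ℚ L₀ = t * crV V L₀) :
    ∃ (E₀ : IntermediateField ℚ D.E) (B : Subalgebra E₀ (Module.End D.E V)),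
      (∀ e : D.E, e ∈ E₀ ↔ ∀ L : Submodule ℚ V, finrank ℚ L = t * crV V L →
        ∀ l ∈ L, e • l ∈ L) ∧
      (∀ b : Module.End D.E V, b ∈ B ↔ ∀ L : Submodule ℚ V, finrank ℚ L = t * crV V L →
        ∀ l ∈ L, b l ∈ L) ∧
      (∀ (ι : Type) (β : Basis ι E₀ B), ∃ β' : Basis ι D.E (Module.End D.E V),
        ∀ i, β' i = (β i : Module.End D.E V)) ∧
      (∀ L : Submodule ℚ V, finrank ℚ L = t * crV V L ↔ ∀ b ∈ B, ∀ l ∈ L, b l ∈ L) ∧
      (E₀ = ⊤ ↔ ∀ L : Submodule ℚ V, finrank ℚ L = t * crV V L → L = ⊥ ∨ L = ⊤) := by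
  have hV := finite_V P
  have hpos : 0 < finrank ℚ L₀ := by
    have : Nontrivial L₀ := Submodule.nontrivial_iff_ne_bot.2 h0
    exact finrank_pos
  have ht : 0 < t := Nat.pos_of_ne_zero fun h => by rw [hL₀, h, zero_mul] at hpos; exact hpos.ne rfl
  have hcr := crV_eq hn hD V P L₀ h0 hL₀
  set F := famV hn hD V with hF
  have hmem : ∀ L : Submodule ℚ V, L ∈ extSet F t ↔ finrank ℚ L = t * crV V L := by
    intro L
    show finrank ℚ L = t * rkF F L ↔ _
    rw [hcr L]
  refine ⟨E0 F t, BA F t, fun e => ?_, fun b => ?_, fun ι β => ?_, fun L => ?_, ?_⟩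
  · rw [mem_E0]
    exact forall_congr' fun L => by rw [hmem]
  · rw [mem_BA]
    exact forall_congr' fun L => by rw [hmem]
  · obtain ⟨h1, h2⟩ := fam_basis F P ht β
    exact ⟨Basis.mk h1 h2.ge, fun i => Basis.mk_apply h1 h2.ge i⟩
  · rw [← hcr L]
    exact fam_iff F P ht L
  · rw [fam_trivial F P ht]
    exact forall_congr' fun L => by rw [hmem]

/-- a nontrivial subspace of the smallest possible rank contains a counterexample to Q1 -/
theorem counterexample (hn : 0 < n) (V : Submodule D.E D.M) {t : ℕ} (P : Basis (Fin t) D.E V)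
    (ht : 2 ≤ t) (L : Submodule ℚ V) (hL : finrank ℚ L = t * crV V L) (h0 : L ≠ ⊥)
    (h1 : L ≠ ⊤) : ∃ L₁ ≤ L, finrank ℚ L₁ ≤ n ∧ crV V L₁ < finrank ℚ L₁ := by
  have hV := finite_V P
  have hpos : 0 < finrank ℚ L := by
    have : Nontrivial L := Submodule.nontrivial_iff_ne_bot.2 h0
    exact finrank_pos
  have hr0 : 0 < crV V L := Nat.pos_of_ne_zero fun h => by
    rw [hL, h, mul_zero] at hpos; exact hpos.ne rfl
  have hlt : finrank ℚ L < finrank ℚ V := Submodule.finrank_lt h1
  rw [finrank_V V P, hL, mul_comm (finrank ℚ D.E)] at hlt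
  have hr1 : crV V L < finrank ℚ D.E := Nat.lt_of_mul_lt_mul_left hlt
  have hr2 : crV V L < n := hr1.trans_le (finrank_E_le hn D)
  have hr3 : crV V L < finrank ℚ L := by
    rw [hL]
    nlinarith
  obtain ⟨f, hf⟩ := exists_linearIndependent_of_le_finrank (R := ℚ) (M := L)
    (min_le_left (finrank ℚ L) n)
  have hf' : LinearIndependent ℚ fun i => (f i : V) :=
    hf.map' L.subtype (Submodule.ker_subtype L)
  have hle : Submodule.span ℚ (Set.range fun i => (f i : V)) ≤ L := by
    rw [Submodule.span_le]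
    rintro _ ⟨i, rfl⟩
    exact (f i).2
  have hfr : finrank ℚ (Submodule.span ℚ (Set.range fun i => (f i : V))) =
      min (finrank ℚ L) n := by
    rw [finrank_span_eq_card hf', Fintype.card_fin]
  refine ⟨Submodule.span ℚ (Set.range fun i => (f i : V)), hle, ?_, ?_⟩
  · rw [hfr]
    exact min_le_right _ _
  · rw [hfr]
    exact (crV_mono V hle).trans_lt (lt_min hr3 hr2)

end ariC

end Pool.Agent.Helper5.CL
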