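import Pool.Agent.Helper5.CL.FamG

/-!
# The dimensions of the subspaces of the smallest rank
-/

set_option autoImplicit false
set_option linter.unusedSectionVars false

namespace Pool.Agent.Helper5.CL

open Module Pool.Agent.N192.AV

section famH

variable {E C V : Type} [Field E] [CharZero E] [FiniteDimensional ℚ E] [Field C] [CharZero C]
  [IsAlgClosed C] [AddCommGroup V] [Module E V] [Module ℚ V] [IsScalarTower ℚ E V] {t : ℕ}
  (G : Fam E C V) (P : Basis (Fin t) E V)

/-- the representation of `B` on `V` -/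
noncomputable def repV (t : ℕ) : BA G t →ₐ[E0 G t] Module.End (E0 G t) V where
  toFun b :=
    { toFun := fun v => (b : Module.End E V) v
      map_add' := fun v w => map_add (b : Module.End E V) v w
      map_smul' := fun q v => map_smul (b : Module.End E V) (q : E) v }
  map_one' := rfl
  map_mul' _ _ := rfl
  map_zero' := rfl
  map_add' _ _ := rfl
  commutes' _ := LinearMap.ext fun _ => rfl

theorem repV_apply (b : BA G t) (v : V) : repV G t b v = (b : Module.End E V) v := rfl

include P in
/-- the index of `B` -/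
theorem exists_index (ht : 0 < t) : ∃ d : ℕ, 0 < d ∧ d ∣ t ∧
    (∀ L ∈ extSet G t, t * d * finrank ℚ (E0 G t) ∣ finrank ℚ L) ∧
    ∃ L₁ ∈ extSet G t, finrank ℚ L₁ = t * d * finrank ℚ (E0 G t) := by
  classical
  have hVE : Module.Finite E V := Module.Finite.of_basis P
  have hV := finite_V P
  have hnt : Nontrivial V := by
    have : 0 < finrank E V := by
      rw [Module.finrank_eq_card_basis P, Fintype.card_fin]
      exact ht
    exact Module.nontrivial_of_finrank_pos this
  have h1 := simple_BA G P ht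
  have h2 := finite_BA' G P
  have h3 : IsArtinianRing (BA G t) := IsArtinianRing.of_finite (E0 G t) (BA G t)
  obtain ⟨s, hs, D', _, _, hD', ⟨f⟩⟩ :=
    IsSimpleRing.exists_algEquiv_matrix_divisionRing_finite (E0 G t) (BA G t)
  have h4 : t * t = s * s * finrank (E0 G t) D' := by
    rw [← finrank_BA' G P ht, f.toLinearEquiv.finrank_eq, Module.finrank_matrix, Fintype.card_fin]
  have h5 : s ∣ t := by
    rw [← Nat.pow_dvd_pow_iff two_ne_zero, sq, sq]
    exact ⟨_, h4⟩
  obtain ⟨d, hd⟩ := h5
  have hs0 : 0 < s := Nat.pos_of_ne_zero (NeZero.ne s)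
  have h6 : finrank (E0 G t) D' = d * d := by
    apply Nat.eq_of_mul_eq_mul_left (Nat.mul_pos hs0 hs0)
    rw [← h4, hd]
    ring
  have hd0 : 0 < d := Nat.pos_of_ne_zero fun h => by rw [hd, h, mul_zero] at ht; exact ht.ne rfl
  let φ : Matrix (Fin s) (Fin s) D' →ₐ[E0 G t] Module.End (E0 G t) V :=
    (repV G t).comp (f.symm : Matrix (Fin s) (Fin s) D' →ₐ[E0 G t] BA G t)
  have hφ : ∀ b v, φ b v = ((f.symm b : BA G t) : Module.End E V) v := fun b v => rfl
  refine ⟨d, hd0, ⟨s, by rw [hd, mul_comm]⟩, fun L hL => ?_, ?_⟩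
  · obtain ⟨k, hk⟩ := exists_mult (restr φ (ovL G L hL) fun b l hl => by
      rw [hφ]
      exact (f.symm b).2 L hL l hl)
    rw [← finrank_over G L hL]
    refine ⟨k, ?_⟩
    rw [hk, h6, hd]
    ring
  · obtain ⟨L₁, h7, h8⟩ := exists_small φ
    have h9 : L₁.restrictScalars ℚ ∈ extSet G t := by
      refine (fam_iff G P ht _).2 fun b hb l hl => ?_
      have h10 := h7 (f ⟨b, hb⟩) l hl
      rw [hφ, AlgEquiv.symm_apply_apply] at h10
      exact h10
    refine ⟨_, h9, ?_⟩
    have h11 : finrank ℚ (E0 G t) * finrank (E0 G t) L₁ = finrank ℚ L₁ :=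
      Module.finrank_mul_finrank ℚ (E0 G t) L₁
    show finrank ℚ L₁ = _
    rw [← h11, h8, h6, hd]
    ring

/-- multiplication by an element of `E` -/
noncomputable def mulE (e : E) : V →ₗ[ℚ] V where
  toFun v := e • v
  map_add' := smul_add e
  map_smul' q v := by
    rw [RingHom.id_apply, ← algebraMap_smul E q v, ← algebraMap_smul E q (e • v), smul_smul,
      smul_smul, mul_comm]

include P in
/-- all multiples of the smallest dimension occur -/
theorem exists_all (ht : 0 < t) (u : ℕ) (hu : 0 < u) (L₁ : Submodule ℚ V) (h1 : L₁ ∈ extSet G t)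
    (h2 : finrank ℚ L₁ = u) (h3 : ∀ L ∈ extSet G t, u ∣ finrank ℚ L) (k : ℕ)
    (hk : k * u ≤ finrank ℚ V) : ∃ L ∈ extSet G t, finrank ℚ L = k * u := by
  classical
  have hV := finite_V P
  induction k with
  | zero =>
    refine ⟨⊥, (fam_iff G P ht _).2 fun b hb l hl => ?_, ?_⟩
    · rw [(Submodule.mem_bot ℚ).1 hl, map_zero]
      exact Submodule.zero_mem _
    · rw [finrank_bot, zero_mul]
  | succ k ih =>
    obtain ⟨L, hL, hLk⟩ := ih (by nlinarith)
    have hst : ∀ L ∈ extSet G t, ∀ b ∈ BA G t, ∀ l ∈ L, b l ∈ L := fun L hL b hb l hl =>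
      (fam_iff G P ht L).1 hL b hb l hl
    have hne : L₁ ≠ ⊥ := by
      rintro rfl
      rw [finrank_bot] at h2
      exact hu.ne h2
    obtain ⟨e, he⟩ : ∃ e : E, ¬ L₁.map (mulE e) ≤ L := by
      by_contra hcon
      push Not at hcon
      have h5 : L = ⊤ := by
        rw [eq_top_iff]
        intro v _
        have h6 : v ∈ Submodule.span E (L₁ : Set V) := by
          rw [span_of_ext G P ht L₁ h1 hne]
          trivial
        refine Submodule.span_induction (p := fun v _ => ∀ e : E, e • v ∈ L) ?_ ?_ ?_ ?_ h6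
            1 |> fun h => by rwa [one_smul] at h
        · intro x hx e
          exact hcon e ⟨x, hx, rfl⟩
        · intro e
          rw [smul_zero]
          exact L.zero_mem
        · intro x y _ _ hx hy e
          rw [smul_add]
          exact L.add_mem (hx e) (hy e)
        · intro a x _ hx e
          rw [smul_smul]
          exact hx _
      rw [h5, finrank_top] at hLk
      rw [hLk] at hk
      nlinarith
    have he0 : e ≠ 0 := by
      rintro rfl
      apply he
      rintro _ ⟨x, _, rfl⟩
      show (0 : E) • x ∈ L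
      rw [zero_smul]
      exact L.zero_mem
    have hinj : Function.Injective (mulE e : V →ₗ[ℚ] V) := fun x y h => by
      have h' : e • x = e • y := h
      have h'' := congrArg (fun z => e⁻¹ • z) h'
      simpa only [smul_smul, inv_mul_cancel₀ he0, one_smul] using h''
    have h5 : L₁.map (mulE e) ∈ extSet G t := by
      refine (fam_iff G P ht _).2 fun b hb l hl => ?_
      obtain ⟨x, hx, rfl⟩ := hl
      refine ⟨b x, hst L₁ h1 b hb x hx, ?_⟩
      show e • b x = b (e • x)
      rw [map_smul]
    have h6 : finrank ℚ (L₁.map (mulE e)) = u := by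
      rw [← h2]
      exact (Submodule.equivMapOfInjective (mulE e) hinj L₁).finrank_eq.symm
    have h7 : L ⊓ L₁.map (mulE e) ∈ extSet G t := by
      refine (fam_iff G P ht _).2 fun b hb l hl => ?_
      exact ⟨hst L hL b hb l hl.1, hst _ h5 b hb l hl.2⟩
    have h8 : finrank ℚ (L ⊓ L₁.map (mulE e) : Submodule ℚ V) = 0 := by
      by_contra hcon
      have h9 := Nat.le_of_dvd (Nat.pos_of_ne_zero hcon) (h3 _ h7)
      have h10 : L ⊓ L₁.map (mulE e) = L₁.map (mulE e) := by
        apply Submodule.eq_of_le_of_finrank_le inf_le_right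
        rw [h6]
        exact h9
      apply he
      rw [← h10]
      exact inf_le_left
    refine ⟨L ⊔ L₁.map (mulE e), (fam_iff G P ht _).2 fun b hb l hl => ?_, ?_⟩
    · obtain ⟨x, hx, y, hy, rfl⟩ := Submodule.mem_sup.1 hl
      rw [map_add]
      exact Submodule.add_mem_sup (hst L hL b hb x hx) (hst _ h5 b hb y hy)
    · have h9 := Submodule.finrank_sup_add_finrank_inf_eq L (L₁.map (mulE e))
      rw [h8, add_zero, hLk, h6] at h9
      rw [h9]
      ring

include P in
/-- if all nonzero subspaces of the smallest rank have at least the dimension of `B`, then `B` is a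
division algebra -/
theorem division_of (ht : 0 < t)
    (h1 : ∀ L ∈ extSet G t, t * t * finrank ℚ (E0 G t) ∣ finrank ℚ L) :
    ∀ b : BA G t, b ≠ 0 → IsUnit b := by
  classical
  have hVE : Module.Finite E V := Module.Finite.of_basis P
  have hV := finite_V P
  have hB := finite_BA G P
  intro b hb
  apply isUnit_of_injective G P
  rw [← LinearMap.ker_eq_bot, LinearMap.ker_eq_bot']
  intro v hv
  by_contra hv0
  apply hb
  let ev : BA G t →ₗ[ℚ] V :=
    { toFun := fun a => (a : Module.End E V) v
      map_add' := fun a a' => rfl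
      map_smul' := fun q a => rfl }
  have h2 : LinearMap.range ev ∈ extSet G t := by
    refine (fam_iff G P ht _).2 ?_
    rintro a ha _ ⟨c, rfl⟩
    exact ⟨⟨a, ha⟩ * c, rfl⟩
  have h3 : 0 < finrank ℚ (LinearMap.range ev) := by
    have : Nontrivial (LinearMap.range ev) :=
      ⟨⟨⟨v, 1, rfl⟩, 0, fun h => hv0 (congrArg Subtype.val h)⟩⟩
    exact finrank_pos
  have h4 := Nat.le_of_dvd h3 (h1 _ h2)
  have h5 := LinearMap.finrank_range_add_finrank_ker ev
  rw [finrank_BA G P ht] at h5
  have h6 : finrank ℚ (LinearMap.ker ev) = 0 := by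
    have : t * t * finrank ℚ (E0 G t) = finrank ℚ (E0 G t) * (t * t) := by ring
    omega
  have h7 : LinearMap.ker ev = ⊥ := Submodule.finrank_eq_zero.1 h6
  exact LinearMap.ker_eq_bot'.1 h7 b hv

include P in
/-- the ranks of the subspaces of the smallest rank -/
theorem fam_ranks (ht : 0 < t) : ∃ d : ℕ, d ∣ t ∧
    ((∀ b : BA G t, b ≠ 0 → IsUnit b) ↔ d = t) ∧
    ∀ r, (∃ L ∈ extSet G t, finrank ℚ L = t * r) ↔
      (d * finrank ℚ (E0 G t) ∣ r ∧ r ≤ finrank ℚ E) := by
  have hVE : Module.Finite E V := Module.Finite.of_basis P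
  have hV := finite_V P
  obtain ⟨d, hd0, hd, h1, L₁, h2, h3⟩ := exists_index G P ht
  have hdim : finrank ℚ V = t * finrank ℚ E := by
    rw [← Module.finrank_mul_finrank ℚ E V, Module.finrank_eq_card_basis P, Fintype.card_fin,
      mul_comm]
  have h0 : 0 < finrank ℚ (E0 G t) := finrank_pos
  refine ⟨d, hd, ⟨fun h => ?_, ?_⟩, fun r => ⟨?_, ?_⟩⟩
  · have h4 := fam_div G P ht h L₁ h2
    rw [h3, show finrank ℚ (E0 G t) * (t * t) = t * finrank ℚ (E0 G t) * t by ring,
      show t * d * finrank ℚ (E0 G t) = t * finrank ℚ (E0 G t) * d by ring] at h4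
    exact Nat.dvd_antisymm hd (Nat.dvd_of_mul_dvd_mul_left (Nat.mul_pos ht h0) h4)
  · rintro rfl
    exact division_of G P ht h1
  · rintro ⟨L, hL, hr⟩
    have h4 := h1 L hL
    rw [hr, mul_assoc] at h4
    refine ⟨Nat.dvd_of_mul_dvd_mul_left ht h4, ?_⟩
    have h5 := Submodule.finrank_le L
    rw [hr, hdim] at h5
    exact Nat.le_of_mul_le_mul_left h5 ht
  · rintro ⟨⟨k, hk⟩, hr⟩
    obtain ⟨L, hL, h4⟩ := exists_all G P ht (t * d * finrank ℚ (E0 G t))
      (Nat.mul_pos (Nat.mul_pos ht hd0) h0) L₁ h2 h3 h1 k (by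
        rw [hdim]
        calc k * (t * d * finrank ℚ (E0 G t)) = t * (d * finrank ℚ (E0 G t) * k) := by ring
          _ = t * r := by rw [← hk]
          _ ≤ t * finrank ℚ E := Nat.mul_le_mul_left t hr)
    refine ⟨L, hL, ?_⟩
    rw [h4, hk]
    ring

end famH

end Pool.Agent.Helper5.CL
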