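import Pool.Agent.Helper5.CL.AriC
import Pool.Agent.Helper5.CL.FamH

/-!
# Products and the index, for subspaces of `V`
-/

set_option autoImplicit false
set_option linter.unusedSectionVars false

namespace Pool.Agent.Helper5.CL

open Module Pool.Agent.N192.AV

section ariD

variable {p : ℕ} [Fact p.Prime] {n : ℕ} {D : Setup p n} (hn : 0 < n) (hD : Props D)

/-- a subspace of the smallest possible rank -/
def Ex (V : Submodule D.E D.M) (t : ℕ) (L : Submodule ℚ V) : Prop :=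
  finrank ℚ L = t * crV V L

include hn hD in
/-- the main theorem, with the products and the index -/
theorem mainV' (V : Submodule D.E D.M) {t : ℕ} (P : Basis (Fin t) D.E V)
    (L₀ : Submodule ℚ V) (h0 : L₀ ≠ ⊥) (hL₀ : Ex V t L₀) :
    ∃ (E₀ : IntermediateField ℚ D.E) (B : Subalgebra E₀ (Module.End D.E V)) (d : ℕ),
      (∀ e : D.E, e ∈ E₀ ↔ ∀ L : Submodule ℚ V, Ex V t L → ∀ l ∈ L, e • l ∈ L) ∧
      (∀ b : Module.End D.E V, b ∈ B ↔ ∀ L : Submodule ℚ V, Ex V t L → ∀ l ∈ L, b l ∈ L) ∧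
      (∀ (ι : Type) (β : Basis ι E₀ B), ∃ β' : Basis ι D.E (Module.End D.E V),
        ∀ i, β' i = (β i : Module.End D.E V)) ∧
      (∀ L : Submodule ℚ V, Ex V t L ↔ ∀ b ∈ B, ∀ l ∈ L, b l ∈ L) ∧
      (E₀ = ⊤ ↔ ∀ L : Submodule ℚ V, Ex V t L → L = ⊥ ∨ L = ⊤) ∧
      (∀ L₁ : Submodule ℚ V, Ex V t L₁ → crV V L₁ = finrank ℚ E₀ →
        (∀ L : Submodule ℚ V, Ex V t L ↔
          ∃ F : Submodule E₀ D.E, L = prodSpan (F : Set D.E) L₁) ∧
        ∀ F : Submodule E₀ D.E, crV V (prodSpan (F : Set D.E) L₁) = finrank ℚ F) ∧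
      d ∣ t ∧ ((∀ b ∈ B, b ≠ 0 → ∃ c ∈ B, c * b = 1) ↔ d = t) ∧
      ∀ r, (∃ L : Submodule ℚ V, Ex V t L ∧ crV V L = r) ↔
        (d * finrank ℚ E₀ ∣ r ∧ r ≤ finrank ℚ D.E) := by
  have hV := finite_V P
  have hpos : 0 < finrank ℚ L₀ := by
    have : Nontrivial L₀ := Submodule.nontrivial_iff_ne_bot.2 h0
    exact finrank_pos
  have ht : 0 < t := Nat.pos_of_ne_zero fun h => by
    rw [show finrank ℚ L₀ = t * crV V L₀ from hL₀, h, zero_mul] at hpos; exact hpos.ne rfl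
  have hcr := crV_eq hn hD V P L₀ h0 hL₀
  set F := famV hn hD V with hF
  have hmem : ∀ L : Submodule ℚ V, L ∈ extSet F t ↔ Ex V t L := by
    intro L
    show finrank ℚ L = t * rkF F L ↔ finrank ℚ L = t * crV V L
    rw [hcr L]
  obtain ⟨d, hd, hdiv, hrk⟩ := fam_ranks F P ht
  refine ⟨E0 F t, BA F t, d, fun e => ?_, fun b => ?_, fun ι β => ?_, fun L => ?_, ?_, ?_, hd, ?_,
    fun r => ?_⟩
  · rw [mem_E0]
    exact forall_congr' fun L => by rw [hmem]
  · rw [mem_BA]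
    exact forall_congr' fun L => by rw [hmem]
  · obtain ⟨h1, h2⟩ := fam_basis F P ht β
    exact ⟨Basis.mk h1 h2.ge, fun i => Basis.mk_apply h1 h2.ge i⟩
  · rw [← hmem]
    exact fam_iff F P ht L
  · rw [fam_trivial F P ht]
    exact forall_congr' fun L => by rw [hmem]
  · intro L₁ hL₁ hr
    have h1 : finrank ℚ L₁ = t * finrank ℚ (E0 F t) := by
      rw [← hr]
      exact hL₁
    have h2 : ∀ L : Submodule ℚ V, Ex V t L ↔
        ∃ Q : Submodule (E0 F t) D.E, L = prodSpan (Q : Set D.E) L₁ := fun L => by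
      rw [← hmem]
      exact fam_split F P ht L₁ ((hmem L₁).2 hL₁) h1 L
    refine ⟨h2, fun Q => ?_⟩
    have h3 : finrank ℚ (prodSpan (Q : Set D.E) L₁) = t * crV V (prodSpan (Q : Set D.E) L₁) :=
      (h2 _).2 ⟨Q, rfl⟩
    rw [finrank_prodSpan F P ht L₁ ((hmem L₁).2 hL₁) h1 Q] at h3
    exact (Nat.eq_of_mul_eq_mul_left ht h3).symm
  · rw [← hdiv]
    constructor
    · intro h b hb
      obtain ⟨c, hc, hcb⟩ := h b b.2 fun h0 => hb (Subtype.ext h0)
      apply isUnit_of_injective F P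
      intro v w hvw
      have h1 := congrArg c hvw
      have h2 : ∀ z, c ((b : Module.End D.E V) z) = z := fun z =>
        LinearMap.congr_fun hcb z
      rwa [h2, h2] at h1
    · intro h b hb hb0
      obtain ⟨u, hu⟩ := h ⟨b, hb⟩ (fun h => hb0 (congrArg Subtype.val h))
      refine ⟨((u⁻¹ : (BA F t)ˣ) : BA F t), (((u⁻¹ : (BA F t)ˣ) : BA F t)).2, ?_⟩
      have h4 := congrArg (fun z : BA F t => (z : Module.End D.E V)) u.inv_mul
      rw [hu] at h4
      exact h4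
  · rw [← hrk r]
    constructor
    · rintro ⟨L, hL, rfl⟩
      exact ⟨L, (hmem L).2 hL, hL⟩
    · rintro ⟨L, hL, hr⟩
      have h1 : finrank ℚ L = t * crV V L := (hmem L).1 hL
      rw [hr] at h1
      exact ⟨L, (hmem L).1 hL, (Nat.eq_of_mul_eq_mul_left ht h1).symm⟩

end ariD

end Pool.Agent.Helper5.CL
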