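import Pool.Agent.Helper5.CL.AriD

/-!
# The main theorem in terms of coordinates
-/

set_option autoImplicit false
set_option linter.unusedSectionVars false

namespace Pool.Agent.Helper5.CL

open Module Pool.Agent.N192.AV

section ariE

variable {p : ℕ} [Fact p.Prime] {n : ℕ} {D : Setup p n} (hn : 0 < n) (hD : Props D)

/-- coordinates with respect to a basis of a form -/
theorem coord_of_basis {E R : Type} [Field E] [Algebra ℚ E] [AddCommGroup R] [Module E R]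
    (E₀ : IntermediateField ℚ E) (B : Submodule E₀ R) {ι : Type} (β : Basis ι E₀ B)
    (β' : Basis ι E R) (h : ∀ i, β' i = (β i : R)) (x : R) :
    x ∈ B ↔ ∀ i, β'.repr x i ∈ E₀ := by
  classical
  constructor
  · intro hx i
    have e1 : x = (β.repr ⟨x, hx⟩).sum fun i a => (a : E) • β' i := by
      conv_lhs => rw [show x = ((⟨x, hx⟩ : B) : R) from rfl, ← β.linearCombination_repr ⟨x, hx⟩]
      rw [Finsupp.linearCombination_apply, Finsupp.sum, Finsupp.sum, Submodule.coe_sum]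
      refine Finset.sum_congr rfl fun j _ => ?_
      rw [h]
      rfl
    have e2 : β'.repr x = (β.repr ⟨x, hx⟩).mapRange (fun a : E₀ => (a : E)) rfl := by
      apply β'.repr.symm.injective
      rw [LinearEquiv.symm_apply_apply]
      conv_lhs => rw [e1]
      rw [Basis.repr_symm_apply, Finsupp.linearCombination_apply, Finsupp.sum_mapRange_index]
      intro j
      rw [zero_smul]
    rw [e2, Finsupp.mapRange_apply]
    exact (β.repr ⟨x, hx⟩ i).2
  · intro hx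
    rw [← β'.linearCombination_repr x, Finsupp.linearCombination_apply, Finsupp.sum]
    refine Submodule.sum_mem _ fun i _ => ?_
    rw [h]
    exact B.smul_mem ⟨_, hx i⟩ (β i).2

include hn hD in
/-- the main theorem in terms of coordinates -/
theorem mainC (V : Submodule D.E D.M) {t : ℕ} (P : Basis (Fin t) D.E V)
    (L₀ : Submodule ℚ V) (h0 : L₀ ≠ ⊥) (hL₀ : Ex V t L₀) :
    ∃ (E₀ : IntermediateField ℚ D.E) (B : Subring (Module.End D.E V)) (d : ℕ),
      (∀ e : D.E, e ∈ E₀ ↔ ∀ L : Submodule ℚ V, Ex V t L → ∀ l ∈ L, e • l ∈ L) ∧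
      (∀ b : Module.End D.E V, b ∈ B ↔ ∀ L : Submodule ℚ V, Ex V t L → ∀ l ∈ L, b l ∈ L) ∧
      (∃ (ι : Type) (β : Basis ι D.E (Module.End D.E V)), ∀ b, b ∈ B ↔ ∀ i, β.repr b i ∈ E₀) ∧
      (∀ L : Submodule ℚ V, Ex V t L ↔ ∀ b ∈ B, ∀ l ∈ L, b l ∈ L) ∧
      (E₀ = ⊤ ↔ ∀ L : Submodule ℚ V, Ex V t L → L = ⊥ ∨ L = ⊤) ∧
      (∀ L₁ : Submodule ℚ V, Ex V t L₁ → crV V L₁ = finrank ℚ E₀ →
        (∀ L : Submodule ℚ V, Ex V t L ↔
          ∃ F : Submodule ℚ D.E, (∀ e ∈ E₀, ∀ f ∈ F, e * f ∈ F) ∧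
            L = prodSpan (F : Set D.E) L₁) ∧
        ∀ F : Submodule ℚ D.E, (∀ e ∈ E₀, ∀ f ∈ F, e * f ∈ F) →
          crV V (prodSpan (F : Set D.E) L₁) = finrank ℚ F) ∧
      d ∣ t ∧ ((∀ b ∈ B, b ≠ 0 → ∃ c ∈ B, c * b = 1) ↔ d = t) ∧
      ∀ r, (∃ L : Submodule ℚ V, Ex V t L ∧ crV V L = r) ↔
        (d * finrank ℚ E₀ ∣ r ∧ r ≤ finrank ℚ D.E) := by
  obtain ⟨E₀, B, d, h1, h2, h3, h4, h5, h6, h7⟩ := mainV' hn hD V P L₀ h0 hL₀
  refine ⟨E₀, B.toSubring, d, h1, h2, ?_, h4, h5, ?_, h7⟩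
  · let β := Basis.ofVectorSpace E₀ B
    obtain ⟨β', hβ'⟩ := h3 _ β
    exact ⟨_, β', fun b => coord_of_basis E₀ (Subalgebra.toSubmodule B) β β' hβ' b⟩
  · intro L₁ hL₁ hr
    obtain ⟨h8, h9⟩ := h6 L₁ hL₁ hr
    have key : ∀ F : Submodule ℚ D.E, (∀ e ∈ E₀, ∀ f ∈ F, e * f ∈ F) →
        ∃ Q : Submodule E₀ D.E, (Q : Set D.E) = F ∧ finrank ℚ Q = finrank ℚ F := by
      intro F hF
      let Q : Submodule E₀ D.E :=
        { carrier := F
          add_mem' := F.add_mem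
          zero_mem' := F.zero_mem
          smul_mem' := fun c x hx => hF c c.2 x hx }
      let g : Q ≃ₗ[ℚ] F :=
        { toFun := fun x => ⟨x, x.2⟩
          map_add' := fun a b => rfl
          map_smul' := fun q a => rfl
          invFun := fun x => ⟨x, x.2⟩
          left_inv := fun b => rfl
          right_inv := fun b => rfl }
      exact ⟨Q, rfl, g.finrank_eq⟩
    refine ⟨fun L => ?_, fun F hF => ?_⟩
    · rw [h8]
      constructor
      · rintro ⟨Q, rfl⟩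
        exact ⟨Q.restrictScalars ℚ, fun e he f hf => Q.smul_mem ⟨e, he⟩ hf, rfl⟩
      · rintro ⟨F, hF, rfl⟩
        obtain ⟨Q, hQ, -⟩ := key F hF
        exact ⟨Q, by rw [hQ]⟩
    · obtain ⟨Q, hQ, hQ'⟩ := key F hF
      rw [← hQ, h9, hQ']

end ariE

end Pool.Agent.Helper5.CL
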