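import Pool.Agent.Helper5.CL.Rel

/-!
# A stable subspace has the smallest possible rank
-/

set_option autoImplicit false

namespace Pool.Agent.Helper5.CL

open Module

section cnv

variable {X K C : Type} [Field K] [Field C] [Algebra K C] {t : ℕ}

/-- matrix units -/
noncomputable def eu (K : Type) [Field K] {t : ℕ} (i j : Fin t) : Module.End K (Fin t → K) :=
  (LinearMap.single K (fun _ : Fin t => K) i).comp (LinearMap.proj j)

theorem eu_apply (i j : Fin t) (u : Fin t → K) : eu K i j u = Pi.single i (u j) := rfl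

theorem eu_mul_same (i j k : Fin t) : eu K i j * eu K j k = eu K i k := by
  refine LinearMap.ext fun u => ?_
  rw [Module.End.mul_apply, eu_apply, eu_apply, eu_apply, Pi.single_eq_same]

theorem eu_mul_ne {i j k l : Fin t} (h : j ≠ k) : eu K i j * eu K k l = 0 := by
  refine LinearMap.ext fun u => ?_
  rw [Module.End.mul_apply, eu_apply, eu_apply, Pi.single_eq_of_ne h, Pi.single_zero,
    LinearMap.zero_apply]

theorem bA_mul (r : X → X) (ψ : X → ((Fin t → K) ≃ₗ[K] (Fin t → K)))
    (A B : X → Module.End K (Fin t → K)) (σ : X) (u : Fin t → K) :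
    bA r ψ A σ (bA r ψ B σ u) = bA r ψ (fun x => A x * B x) σ u := by
  rw [bA_apply, bA_apply, bA_apply, LinearEquiv.symm_apply_apply]
  rfl

/-- the action of `bA r ψ A` on a stable subspace -/
noncomputable def TA (r : X → X) (ψ : X → ((Fin t → K) ≃ₗ[K] (Fin t → K)))
    (Λ : Submodule K (X → Fin t → K)) (hΛ : ∀ A, Stab (bA r ψ A) Λ)
    (A : X → Module.End K (Fin t → K)) : Λ →ₗ[K] Λ where
  toFun w := ⟨fun σ => bA r ψ A σ ((w : X → Fin t → K) σ), hΛ A w w.2⟩
  map_add' v w := by
    apply Subtype.ext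
    funext σ
    simp
  map_smul' c w := by
    apply Subtype.ext
    funext σ
    simp

theorem TA_coe (r : X → X) (ψ : X → ((Fin t → K) ≃ₗ[K] (Fin t → K)))
    (Λ : Submodule K (X → Fin t → K)) (hΛ : ∀ A, Stab (bA r ψ A) Λ)
    (A : X → Module.End K (Fin t → K)) (w : Λ) (σ : X) :
    ((TA r ψ Λ hΛ A w : Λ) : X → Fin t → K) σ = bA r ψ A σ ((w : X → Fin t → K) σ) := rfl

theorem TA_TA (r : X → X) (ψ : X → ((Fin t → K) ≃ₗ[K] (Fin t → K)))
    (Λ : Submodule K (X → Fin t → K)) (hΛ : ∀ A, Stab (bA r ψ A) Λ)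
    (A B : X → Module.End K (Fin t → K)) (w : Λ) :
    TA r ψ Λ hΛ A (TA r ψ Λ hΛ B w) = TA r ψ Λ hΛ (fun x => A x * B x) w := by
  apply Subtype.ext
  funext σ
  rw [TA_coe, TA_coe, TA_coe, bA_mul]

theorem TA_zero (r : X → X) (ψ : X → ((Fin t → K) ≃ₗ[K] (Fin t → K)))
    (Λ : Submodule K (X → Fin t → K)) (hΛ : ∀ A, Stab (bA r ψ A) Λ) (w : Λ) :
    TA r ψ Λ hΛ (fun _ => 0) w = 0 := by
  apply Subtype.ext
  funext σ
  rw [TA_coe, bA_apply, LinearMap.zero_apply, map_zero]
  rfl

theorem ext_of_stab [Finite X] (ht : 0 < t) (ℓ : X → (Fin t → K) →ₗ[K] C)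
    (r : X → X) (ψ : X → ((Fin t → K) ≃ₗ[K] (Fin t → K)))
    (hψ : ∀ σ, ∃ c : C, ∀ u, ℓ σ (ψ σ u) = c * ℓ (r σ) u)
    (Λ : Submodule K (X → Fin t → K)) (hΛ : ∀ A, Stab (bA r ψ A) Λ) :
    t * rk ℓ Λ ≤ finrank K Λ := by
  classical
  have := Fintype.ofFinite X
  set T := TA r ψ Λ hΛ with hT
  let i0 : Fin t := ⟨0, ht⟩
  let N : Submodule K (X → Fin t → K) := LinearMap.range (Λ.subtype.comp (T fun _ => eu K i0 i0))
  have hNΛ : N ≤ Λ := by
    rintro _ ⟨m, rfl⟩
    exact (T (fun _ => eu K i0 i0) m).2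
  have hN : ∀ n : N, T (fun _ => eu K i0 i0) ⟨n, hNΛ n.2⟩ = ⟨n, hNΛ n.2⟩ := by
    rintro ⟨n, m, hm⟩
    have e0 : (⟨n, hNΛ ⟨m, hm⟩⟩ : Λ) = T (fun _ => eu K i0 i0) m := Subtype.ext hm.symm
    show T (fun _ => eu K i0 i0) ⟨n, hNΛ ⟨m, hm⟩⟩ = ⟨n, hNΛ ⟨m, hm⟩⟩
    rw [e0, hT, TA_TA, eu_mul_same]
  -- the rank is at most the dimension of `N`
  have h1 : rk ℓ Λ ≤ finrank K N := by
    have hB : ∀ (ρ : X) (j : Fin t) (w : Λ),
        (Λ.subtype.comp (T (fun x => if x = ρ then eu K i0 j else 0))) w ∈ N := by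
      intro ρ j w
      refine ⟨T (fun x => if x = ρ then eu K i0 j else 0) w, ?_⟩
      rw [LinearMap.comp_apply, LinearMap.comp_apply, hT, TA_TA]
      congr 1
      congr 1
      congr 1
      funext x
      split_ifs
      · rw [eu_mul_same]
      · rw [mul_zero]
    let B : X → Fin t → (Λ →ₗ[K] N) := fun ρ j =>
      LinearMap.codRestrict N (Λ.subtype.comp (T (fun x => if x = ρ then eu K i0 j else 0))) (hB ρ j)
    let Θ : (N →ₗ[K] C) →ₗ[C] (Λ →ₗ[K] C) :=
      { toFun := fun f => ∑ ρ, ∑ j, ℓ ρ (Pi.single j 1) • f.comp (B ρ j)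
        map_add' := fun f g => by
          simp only [LinearMap.add_comp, smul_add, Finset.sum_add_distrib]
        map_smul' := fun c f => by
          simp only [LinearMap.smul_comp, Finset.smul_sum, RingHom.id_apply]
          refine Finset.sum_congr rfl fun ρ _ => Finset.sum_congr rfl fun j _ => ?_
          rw [smul_comm] }
    let f : X → (N →ₗ[K] C) := fun σ =>
      (Algebra.linearMap K C).comp ((LinearMap.proj i0).comp ((ψ σ).symm.toLinearMap.comp
        ((LinearMap.proj σ).comp N.subtype)))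
    have hf : ∀ σ (n : N), f σ n = algebraMap K C ((ψ σ).symm ((n : X → Fin t → K) σ) i0) :=
      fun σ n => rfl
    have hkey : ∀ σ, ∃ c : C, lw ℓ Λ σ = c • Θ (f σ) := by
      intro σ
      obtain ⟨c, hc⟩ := hψ σ
      refine ⟨c, LinearMap.ext fun w => ?_⟩
      set v : Fin t → K := (ψ σ).symm ((w : X → Fin t → K) σ) with hv
      have hv' : (w : X → Fin t → K) σ = ψ σ v := by rw [hv, LinearEquiv.apply_symm_apply]
      have e1 : ∀ ρ j, f σ (B ρ j w) = if r σ = ρ then algebraMap K C (v j) else 0 := by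
        intro ρ j
        rw [hf]
        have e2 : ((B ρ j w : N) : X → Fin t → K) σ =
            bA r ψ (fun x => if x = ρ then eu K i0 j else 0) σ ((w : X → Fin t → K) σ) := rfl
        rw [e2, bA_apply, LinearEquiv.symm_apply_apply, ← hv]
        by_cases hρ : r σ = ρ
        · simp only [hρ, if_true]
          rw [eu_apply, Pi.single_eq_same]
        · simp only [hρ, if_false]
          rw [LinearMap.zero_apply, Pi.zero_apply, map_zero]
      have e3 : Θ (f σ) w = ∑ ρ, ∑ j, ℓ ρ (Pi.single j 1) * f σ (B ρ j w) := by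
        show (∑ ρ, ∑ j, ℓ ρ (Pi.single j 1) • (f σ).comp (B ρ j)) w = _
        rw [LinearMap.sum_apply]
        refine Finset.sum_congr rfl fun ρ _ => ?_
        rw [LinearMap.sum_apply]
        rfl
      rw [LinearMap.smul_apply, e3, lw_apply, hv', hc, smul_eq_mul]
      congr 1
      rw [Finset.sum_eq_single (r σ)]
      · have e4 : v = ∑ j, v j • (Pi.single j (1 : K) : Fin t → K) := by
          funext i
          rw [Finset.sum_apply]
          simp [Pi.single_apply]
        conv_lhs => rw [e4]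
        rw [map_sum]
        refine Finset.sum_congr rfl fun j _ => ?_
        rw [map_smul, e1, if_pos rfl, Algebra.smul_def, mul_comm]
      · intro ρ _ hρ
        refine Finset.sum_eq_zero fun j _ => ?_
        rw [e1, if_neg (Ne.symm hρ), mul_zero]
      · intro h
        exact absurd (Finset.mem_univ _) h
    have hle : Submodule.span C (Set.range (lw ℓ Λ)) ≤ LinearMap.range Θ := by
      rw [Submodule.span_le]
      rintro _ ⟨σ, rfl⟩
      obtain ⟨c, hc⟩ := hkey σ
      exact ⟨c • f σ, by rw [map_smul, hc]⟩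
    have hfd : FiniteDimensional C (N →ₗ[K] C) := inferInstance
    calc rk ℓ Λ ≤ finrank C (LinearMap.range Θ) := Submodule.finrank_mono hle
      _ ≤ finrank C (N →ₗ[K] C) := LinearMap.finrank_range_le Θ
      _ = finrank K N := Module.finrank_linearMap_self K C N
  -- the dimension of `Λ` is at least `t` times that of `N`
  have h2 : t * finrank K N ≤ finrank K Λ := by
    let Φ : (Fin t → N) →ₗ[K] Λ :=
      ∑ j, (T fun _ => eu K j i0).comp ((Submodule.inclusion hNΛ).comp (LinearMap.proj j))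
    have hΦ : ∀ n, Φ n = ∑ j, T (fun _ => eu K j i0) ⟨n j, hNΛ (n j).2⟩ := by
      intro n
      rw [LinearMap.sum_apply]
      rfl
    have hinj : Function.Injective Φ := by
      rw [← LinearMap.ker_eq_bot, LinearMap.ker_eq_bot']
      intro n hn
      funext i
      apply Subtype.ext
      have e1 : T (fun _ => eu K i0 i) (Φ n) = ⟨n i, hNΛ (n i).2⟩ := by
        rw [hΦ, map_sum, Finset.sum_eq_single i]
        · rw [hT, TA_TA, eu_mul_same]
          exact hN (n i)
        · intro j _ hj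
          rw [hT, TA_TA, eu_mul_ne (Ne.symm hj)]
          exact TA_zero r ψ Λ hΛ _
        · intro h
          exact absurd (Finset.mem_univ _) h
      rw [hn, map_zero] at e1
      exact (congrArg (fun z : Λ => (z : X → Fin t → K)) e1).symm
    have e2 := LinearMap.finrank_le_finrank_of_injective hinj
    rw [Module.finrank_pi_fintype] at e2
    simpa using e2
  exact (Nat.mul_le_mul_left t h1).trans h2

end cnv

end Pool.Agent.Helper5.CL
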