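import Mathlib

/-!
# Descent for stabilizers of subspaces
-/

set_option autoImplicit false

namespace Pool.Agent.Helper5.CL

open Module

section generic

variable {K : Type} [Field K] [Algebra ℚ K]
variable {U W : Type} [AddCommGroup U] [Module ℚ U] [AddCommGroup W] [Module K W]

/-- relations with coefficients in `K` between the `ev u` come from relations over `ℚ` -/
def LD (K : Type) [Field K] [Algebra ℚ K] {U W : Type} [AddCommGroup U] [Module ℚ U]
    [AddCommGroup W] [Module K W] (ev : U →+ W) : Prop :=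
  (∀ (q : ℚ) (u : U), ev (q • u) = algebraMap ℚ K q • ev u) ∧
  ∀ (κ : Type) [Fintype κ] (u : κ → U) (a : κ → K), ∑ k, a k • ev (u k) = 0 →
    ∀ h : K →ₗ[ℚ] ℚ, ∑ k, h (a k) • u k = 0

variable {ev : U →+ W}

theorem eq_zero_of_dual (a : K) (h : ∀ f : K →ₗ[ℚ] ℚ, f a = 0) : a = 0 :=
  (Module.forall_dual_apply_eq_zero_iff ℚ a).1 h

theorem LD.indep (hev : LD K ev) {κ : Type} [Fintype κ] (b : κ → U)
    (hb : LinearIndependent ℚ b) : LinearIndependent K fun k => ev (b k) := by
  rw [Fintype.linearIndependent_iff] at hb ⊢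
  intro a ha k
  exact eq_zero_of_dual _ fun f => hb _ (hev.2 κ b a ha f) k

theorem LD.map_sum_smul (hev : LD K ev) {κ : Type} [Fintype κ] (q : κ → ℚ) (u : κ → U) :
    ev (∑ k, q k • u k) = ∑ k, algebraMap ℚ K (q k) • ev (u k) := by
  rw [map_sum]
  exact Finset.sum_congr rfl fun k _ => hev.1 _ _

theorem LD.span_eq (hev : LD K ev) (S : Submodule ℚ U) {κ : Type} [Fintype κ]
    (b : Basis κ ℚ S) : Submodule.span K (ev '' (S : Set U)) =
      Submodule.span K (Set.range fun k => ev (b k : U)) := by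
  apply le_antisymm
  · rw [Submodule.span_le]
    rintro _ ⟨s, hs, rfl⟩
    have h1 := congrArg (fun z : S => (z : U)) (b.sum_repr ⟨s, hs⟩)
    simp only [Submodule.coe_sum, Submodule.coe_smul] at h1
    rw [← h1, hev.map_sum_smul]
    exact Submodule.sum_mem _ fun k _ => Submodule.smul_mem _ _ (Submodule.subset_span ⟨k, rfl⟩)
  · rw [Submodule.span_le]
    rintro _ ⟨k, rfl⟩
    exact Submodule.subset_span ⟨_, (b k).2, rfl⟩

theorem LD.finrank_span (hev : LD K ev) (S : Submodule ℚ U) [FiniteDimensional ℚ S] :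
    finrank K (Submodule.span K (ev '' (S : Set U))) = finrank ℚ S := by
  have h1 := hev.indep (fun k => (finBasis ℚ S k : U))
    ((finBasis ℚ S).linearIndependent.map' S.subtype (Submodule.ker_subtype S))
  rw [hev.span_eq S (finBasis ℚ S), finrank_span_eq_card h1, Fintype.card_fin]

theorem LD.mem_of_mem_span (hev : LD K ev) (S : Submodule ℚ U) {κ : Type} [Fintype κ]
    (u : κ → U) (a : κ → K) (h : ∑ k, a k • ev (u k) ∈ Submodule.span K (ev '' (S : Set U)))
    (f : K →ₗ[ℚ] ℚ) : ∑ k, f (a k) • u k ∈ S := by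
  obtain ⟨m, c, g, hg⟩ := Submodule.mem_span_set'.1 h
  have h1 : ∀ i, ∃ s ∈ S, ev s = g i := fun i => (g i).2
  choose s hs hsg using h1
  have h2 := hev.2 (κ ⊕ Fin m) (Sum.elim u s) (Sum.elim a fun i => - c i) (by
    rw [Fintype.sum_sum_type]
    simp only [Sum.elim_inl, Sum.elim_inr]
    rw [← hg, ← Finset.sum_add_distrib]
    refine Finset.sum_eq_zero fun i _ => ?_
    rw [hsg, neg_smul, add_neg_cancel]) f
  rw [Fintype.sum_sum_type] at h2
  simp only [Sum.elim_inl, Sum.elim_inr] at h2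
  rw [eq_neg_of_add_eq_zero_left h2]
  exact S.neg_mem (Submodule.sum_mem _ fun i _ => S.smul_mem _ (hs i))

end generic

section descent

variable {K : Type} [Field K] [Algebra ℚ K]
variable {V W R WR : Type} [AddCommGroup V] [Module ℚ V] [AddCommGroup W] [Module K W]
  [AddCommGroup R] [Module ℚ R] [AddCommGroup WR] [Module K WR]

/-- the elements of `S` which map all `L` in `𝓛` into themselves -/
def stabIn (ρ : R →ₗ[ℚ] V →ₗ[ℚ] V) (𝓛 : Set (Submodule ℚ V)) (S : Submodule ℚ R) :
    Submodule ℚ R where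
  carrier := {x | x ∈ S ∧ ∀ L ∈ 𝓛, ∀ l ∈ L, ρ x l ∈ L}
  add_mem' := fun ⟨h1, h2⟩ ⟨h3, h4⟩ => ⟨S.add_mem h1 h3, fun L hL l hl => by
    rw [map_add, LinearMap.add_apply]
    exact L.add_mem (h2 L hL l hl) (h4 L hL l hl)⟩
  zero_mem' := ⟨S.zero_mem, fun L hL l hl => by
    rw [map_zero, LinearMap.zero_apply]
    exact L.zero_mem⟩
  smul_mem' := fun c x ⟨h1, h2⟩ => ⟨S.smul_mem c h1, fun L hL l hl => by
    rw [map_smul, LinearMap.smul_apply]
    exact L.smul_mem c (h2 L hL l hl)⟩

theorem descent [FiniteDimensional ℚ R] {evV : V →+ W} (hV : LD K evV) {evR : R →+ WR}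
    (hR : LD K evR) (ρ : R →ₗ[ℚ] V →ₗ[ℚ] V) (ρK : WR →ₗ[K] W →ₗ[K] W)
    (hρ : ∀ x v, ρK (evR x) (evV v) = evV (ρ x v)) (𝓛 : Set (Submodule ℚ V)) (S : Submodule ℚ R)
    (z : WR) (hz : z ∈ Submodule.span K (evR '' (S : Set R)))
    (hst : ∀ L ∈ 𝓛, ∀ w ∈ Submodule.span K (evV '' (L : Set V)),
      ρK z w ∈ Submodule.span K (evV '' (L : Set V))) :
    z ∈ Submodule.span K (evR '' (stabIn ρ 𝓛 S : Set R)) := by
  classical
  set B := stabIn ρ 𝓛 S with hB
  have hBS : B ≤ S := fun x hx => hx.1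
  obtain ⟨T', hT'⟩ := Submodule.exists_isCompl B
  set T := T' ⊓ S with hT
  have hsup : B ⊔ T = S := by
    rw [hT, ← sup_inf_assoc_of_le T' hBS, hT'.sup_eq_top, top_inf_eq]
  have hz' : z ∈ Submodule.span K (evR '' (B : Set R)) ⊔ Submodule.span K (evR '' (T : Set R)) := by
    refine Submodule.span_le.2 ?_ hz
    rintro _ ⟨s, hs, rfl⟩
    have hs' : s ∈ B ⊔ T := by rw [hsup]; exact hs
    obtain ⟨b, hb, τ, hτ, rfl⟩ := Submodule.mem_sup.1 hs'
    rw [SetLike.mem_coe, map_add]
    exact Submodule.add_mem_sup (Submodule.subset_span ⟨b, hb, rfl⟩)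
      (Submodule.subset_span ⟨τ, hτ, rfl⟩)
  obtain ⟨z1, hz1, z2, hz2, rfl⟩ := Submodule.mem_sup.1 hz'
  -- `z1` stabilizes
  have hst1 : ∀ L ∈ 𝓛, ∀ w ∈ Submodule.span K (evV '' (L : Set V)),
      ρK z1 w ∈ Submodule.span K (evV '' (L : Set V)) := by
    intro L hL w hw
    refine Submodule.span_induction (p := fun z _ => ρK z w ∈ Submodule.span K (evV '' (L : Set V)))
      ?_ ?_ ?_ ?_ hz1
    · rintro _ ⟨b, hb, rfl⟩
      refine Submodule.span_induction
        (p := fun w _ => ρK (evR b) w ∈ Submodule.span K (evV '' (L : Set V))) ?_ ?_ ?_ ?_ hw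
      · rintro _ ⟨l, hl, rfl⟩
        rw [hρ]
        exact Submodule.subset_span ⟨_, hb.2 L hL l hl, rfl⟩
      · rw [map_zero]
        exact Submodule.zero_mem _
      · intro x y _ _ hx hy
        rw [map_add]
        exact Submodule.add_mem _ hx hy
      · intro c x _ hx
        rw [map_smul]
        exact Submodule.smul_mem _ _ hx
    · rw [map_zero, LinearMap.zero_apply]
      exact Submodule.zero_mem _
    · intro x y _ _ hx hy
      rw [map_add, LinearMap.add_apply]
      exact Submodule.add_mem _ hx hy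
    · intro c x _ hx
      rw [map_smul, LinearMap.smul_apply]
      exact Submodule.smul_mem _ _ hx
  have hst2 : ∀ L ∈ 𝓛, ∀ w ∈ Submodule.span K (evV '' (L : Set V)),
      ρK z2 w ∈ Submodule.span K (evV '' (L : Set V)) := by
    intro L hL w hw
    have h1 := Submodule.sub_mem _ (hst L hL w hw) (hst1 L hL w hw)
    rwa [map_add, LinearMap.add_apply, add_sub_cancel_left] at h1
  -- `z2 = 0`
  have hz20 : z2 = 0 := by
    set b := finBasis ℚ T with hb
    rw [hR.span_eq T b, Submodule.mem_span_range_iff_exists_fun] at hz2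
    obtain ⟨c, rfl⟩ := hz2
    have h1 : ∀ f : K →ₗ[ℚ] ℚ, ∑ k, f (c k) • (b k : R) = 0 := by
      intro f
      have h2 : ∑ k, f (c k) • (b k : R) ∈ T :=
        Submodule.sum_mem _ fun k _ => T.smul_mem _ (b k).2
      have h3 : ∑ k, f (c k) • (b k : R) ∈ B := by
        refine ⟨h2.2, fun L hL l hl => ?_⟩
        have h4 := hV.mem_of_mem_span L (fun k => ρ (b k : R) l) c (by
          have h5 := hst2 L hL (evV l) (Submodule.subset_span ⟨l, hl, rfl⟩)
          rw [map_sum, LinearMap.sum_apply] at h5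
          have h6 : ∀ k, ρK (c k • evR (b k : R)) (evV l) = c k • evV (ρ (b k : R) l) := by
            intro k
            rw [map_smul, LinearMap.smul_apply, hρ]
          rwa [Finset.sum_congr rfl (fun k _ => h6 k)] at h5) f
        rw [map_sum, LinearMap.sum_apply]
        have h7 : ∀ k, ρ (f (c k) • (b k : R)) l = f (c k) • ρ (b k : R) l := by
          intro k
          rw [map_smul, LinearMap.smul_apply]
        rwa [Finset.sum_congr rfl (fun k _ => h7 k)]
      have h8 : ∑ k, f (c k) • (b k : R) ∈ B ⊓ T' := ⟨h3, h2.1⟩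
      rw [hT'.inf_eq_bot] at h8
      exact (Submodule.mem_bot ℚ).1 h8
    have hbi : LinearIndependent ℚ fun k => (b k : R) :=
      b.linearIndependent.map' T.subtype (Submodule.ker_subtype T)
    rw [Fintype.linearIndependent_iff] at hbi
    have h9 : ∀ k, c k = 0 := fun k => eq_zero_of_dual _ fun f => hbi _ (h1 f) k
    exact Finset.sum_eq_zero fun k _ => by rw [h9, zero_smul]
  rw [hz20, add_zero]
  exact hz1

end descent

end Pool.Agent.Helper5.CL
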