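import Pool.Agent.Helper5.CL.Cnv
import Pool.Agent.Helper5.CL.Desc
import Pool.Graph.R_pool_sql_team_seeded_63374d34.N192.AV.Main

/-!
# The maps to the products over the embeddings
-/

set_option autoImplicit false
set_option linter.unusedSectionVars false

namespace Pool.Agent.Helper5.CL

open Module Pool.Agent.N192.AV

section ev

variable {E C V : Type} [Field E] [CharZero E] [FiniteDimensional ℚ E] [Field C] [CharZero C]
  [IsAlgClosed C] [AddCommGroup V] [Module E V] [Module ℚ V] [IsScalarTower ℚ E V] {t : ℕ}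

theorem LDE {κ : Type} [Fintype κ] (x : κ → E) (a : κ → Fam.K C)
    (h0 : ∀ σ : E →ₐ[ℚ] C, ∑ k, a k * Fam.sKr σ (x k) = 0) (h : Fam.K C →ₗ[ℚ] ℚ) :
    ∑ k, h (a k) • x k = 0 := by
  classical
  refine (Module.forall_dual_apply_eq_zero_iff ℚ _).1 fun f => ?_
  obtain ⟨γ, hγ⟩ := comb_of_embeddings ((Algebra.linearMap ℚ C).comp f)
  have h1 : ∑ k, f (x k) • a k = 0 := by
    apply Subtype.ext
    have e1 : ((∑ k, f (x k) • a k : Fam.K C) : C) = ∑ k, (a k : C) * ((f (x k) : ℚ) : C) := by
      rw [AddSubmonoidClass.coe_finsetSum]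
      refine Finset.sum_congr rfl fun k _ => ?_
      rw [IntermediateField.coe_smul, Algebra.smul_def, mul_comm]
      rfl
    rw [e1]
    have e2 : ∀ k, ((f (x k) : ℚ) : C) = ∑ σ, γ σ * σ (x k) := by
      intro k
      rw [← hγ]
      rfl
    simp_rw [e2, Finset.mul_sum]
    rw [Finset.sum_comm]
    refine Finset.sum_eq_zero fun σ _ => ?_
    have e3 := congrArg (fun z : Fam.K C => (z : C)) (h0 σ)
    simp only [AddSubmonoidClass.coe_finsetSum] at e3
    calc ∑ k, (a k : C) * (γ σ * σ (x k)) = γ σ * ∑ k, (a k : C) * σ (x k) := by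
          rw [Finset.mul_sum]
          exact Finset.sum_congr rfl fun k _ => by ring
      _ = 0 := by
          have e4 : ∑ k, (a k : C) * σ (x k) = 0 := e3
          rw [e4, mul_zero]
  have h2 := congrArg h h1
  rw [map_sum, map_zero] at h2
  rw [map_sum, ← h2]
  refine Finset.sum_congr rfl fun k _ => ?_
  rw [map_smul, map_smul, smul_eq_mul, smul_eq_mul, mul_comm]

/-- the conjugates of the coordinates of a vector -/
noncomputable def evV (C : Type) [Field C] [CharZero C] (P : Basis (Fin t) E V) :
    V →+ ((E →ₐ[ℚ] C) → Fin t → Fam.K C) where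
  toFun v σ i := Fam.sKr σ (P.repr v i)
  map_zero' := by
    funext σ i
    simp
  map_add' v w := by
    funext σ i
    simp

theorem evV_apply (P : Basis (Fin t) E V) (v : V) (σ : E →ₐ[ℚ] C) (i : Fin t) :
    evV C P v σ i = Fam.sKr σ (P.repr v i) := rfl

theorem sKr_rat (σ : E →ₐ[ℚ] C) (q : ℚ) (x : E) :
    Fam.sKr σ (q • x) = algebraMap ℚ (Fam.K C) q * Fam.sKr σ x := by
  apply Subtype.ext
  show σ (q • x) = ((algebraMap ℚ (Fam.K C) q * Fam.sKr σ x : Fam.K C) : C)
  rw [Algebra.smul_def, map_mul, σ.commutes]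
  rfl

theorem LD_evV (P : Basis (Fin t) E V) : LD (Fam.K C) (evV C P) := by
  refine ⟨fun q u => ?_, fun κ _ u a h0 h => ?_⟩
  · funext σ i
    rw [evV_apply, Pi.smul_apply, Pi.smul_apply, evV_apply, smul_eq_mul, ← sKr_rat]
    congr 1
    have h1 : q • u = (algebraMap ℚ E q) • u := (algebraMap_smul E q u).symm
    rw [h1, map_smul, Finsupp.smul_apply, smul_eq_mul, Algebra.smul_def]
  · apply P.repr.injective
    refine Finsupp.ext fun i => ?_
    rw [map_zero, Finsupp.zero_apply]
    have h1 := LDE (C := C) (fun k => P.repr (u k) i) a (fun σ => by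
      have h2 := congrFun (congrFun h0 σ) i
      simpa [Finset.sum_apply, evV_apply] using h2) h
    rw [← h1, map_sum, Finsupp.finsetSum_apply]
    refine Finset.sum_congr rfl fun k _ => ?_
    have h3 : h (a k) • u k = (algebraMap ℚ E (h (a k))) • u k :=
      (algebraMap_smul E (h (a k)) (u k)).symm
    rw [h3, map_smul, Finsupp.smul_apply, smul_eq_mul, Algebra.smul_def]

/-- the conjugates of an endomorphism -/
noncomputable def evR (C : Type) [Field C] [CharZero C] (P : Basis (Fin t) E V) :
    Module.End E V →+ ((E →ₐ[ℚ] C) → Module.End (Fam.K C) (Fin t → Fam.K C)) where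
  toFun r σ := Matrix.toLin' ((LinearMap.toMatrix P P r).map (Fam.sKr σ))
  map_zero' := by
    funext σ
    rw [map_zero]
    have h1 : (0 : Matrix (Fin t) (Fin t) E).map (Fam.sKr σ) = 0 := by
      ext i j
      simp
    rw [h1, map_zero]
    rfl
  map_add' v w := by
    funext σ
    rw [map_add, Matrix.map_add _ (map_add _), map_add]
    rfl

theorem evR_apply (P : Basis (Fin t) E V) (r : Module.End E V) (σ : E →ₐ[ℚ] C)
    (u : Fin t → Fam.K C) : evR C P r σ u =
      ((LinearMap.toMatrix P P r).map (Fam.sKr σ)).mulVec u := rfl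

theorem evR_entry (P : Basis (Fin t) E V) (r : Module.End E V) (σ : E →ₐ[ℚ] C) (i j : Fin t) :
    evR C P r σ (Pi.single j 1) i = Fam.sKr σ (LinearMap.toMatrix P P r i j) := by
  rw [evR_apply, Matrix.mulVec_single_one]
  rfl

theorem LD_evR (P : Basis (Fin t) E V) : LD (Fam.K C) (evR C P) := by
  have key : ∀ (q : ℚ) (r : Module.End E V) (i j : Fin t),
      LinearMap.toMatrix P P (q • r) i j = q • LinearMap.toMatrix P P r i j := by
    intro q r i j
    have h1 : q • r = (algebraMap ℚ E q) • r := by
      refine LinearMap.ext fun v => ?_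
      rw [LinearMap.smul_apply, LinearMap.smul_apply, algebraMap_smul]
    rw [h1, map_smul, Matrix.smul_apply, smul_eq_mul, Algebra.smul_def]
  refine ⟨fun q r => ?_, fun κ _ u a h0 h => ?_⟩
  · funext σ
    refine (Pi.basisFun (Fam.K C) (Fin t)).ext fun j => ?_
    rw [Pi.basisFun_apply]
    funext i
    rw [evR_entry, key, sKr_rat, Pi.smul_apply, LinearMap.smul_apply, Pi.smul_apply, evR_entry,
      smul_eq_mul]
  · apply (LinearMap.toMatrix P P).injective
    rw [map_zero]
    ext i j
    rw [Matrix.zero_apply]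
    have h1 := LDE (C := C) (fun k => LinearMap.toMatrix P P (u k) i j) a (fun σ => by
      have h2 := congrFun (LinearMap.congr_fun (congrFun h0 σ) (Pi.single j 1)) i
      rw [Finset.sum_apply, LinearMap.sum_apply, Finset.sum_apply] at h2
      have h3 : ∀ k, ((a k • evR C P (u k)) σ) (Pi.single j 1) i =
          a k * Fam.sKr σ (LinearMap.toMatrix P P (u k) i j) := by
        intro k
        rw [Pi.smul_apply, LinearMap.smul_apply, Pi.smul_apply, evR_entry, smul_eq_mul]
      rw [Finset.sum_congr rfl (fun k _ => h3 k)] at h2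
      exact h2) h
    rw [← h1, map_sum, Matrix.sum_apply]
    exact Finset.sum_congr rfl fun k _ => key _ _ _ _

/-- the action of the endomorphisms of the factors -/
noncomputable def actK (X K : Type) [Field K] (t : ℕ) :
    (X → Module.End K (Fin t → K)) →ₗ[K] (X → Fin t → K) →ₗ[K] (X → Fin t → K) :=
  LinearMap.mk₂ K (fun b w σ => b σ (w σ))
    (fun b b' w => by funext σ; rfl) (fun c b w => by funext σ; rfl)
    (fun b w w' => by funext σ; exact (b σ).map_add (w σ) (w' σ))
    (fun c b w => by funext σ; exact (b σ).map_smul c (w σ))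

theorem actK_apply {X K : Type} [Field K] {t : ℕ} (b : X → Module.End K (Fin t → K))
    (w : X → Fin t → K) : actK X K t b w = fun σ => b σ (w σ) := rfl

/-- the action of the endomorphisms of `V` -/
noncomputable def actE (E V : Type) [Field E] [CharZero E] [AddCommGroup V] [Module E V]
    [Module ℚ V] [IsScalarTower ℚ E V] : Module.End E V →ₗ[ℚ] V →ₗ[ℚ] V :=
  LinearMap.mk₂ ℚ (fun r v => r v) (fun r s v => rfl) (fun c r v => rfl)
    (fun r v w => map_add _ _ _) (fun c r v => by
      show r (c • v) = c • r v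
      rw [← algebraMap_smul E c v, map_smul, algebraMap_smul])

theorem actE_apply (r : Module.End E V) (v : V) : actE E V r v = r v := rfl

theorem actK_ev (P : Basis (Fin t) E V) (r : Module.End E V) (v : V) :
    actK (E →ₐ[ℚ] C) (Fam.K C) t (evR C P r) (evV C P v) = evV C P (actE E V r v) := by
  funext σ i
  rw [actK_apply, actE_apply, evV_apply]
  show (((LinearMap.toMatrix P P r).map (Fam.sKr σ)).mulVec (evV C P v σ)) i = _
  rw [← LinearMap.toMatrix_mulVec_repr P P r v]
  simp only [Matrix.mulVec, dotProduct, Matrix.map_apply, map_sum, map_mul, evV_apply]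

end ev

end Pool.Agent.Helper5.CL
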