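import Pool.Agent.Helper5.CL.Ev

/-!
# The functionals on the product; comparison of the ranks
-/

set_option autoImplicit false
set_option linter.unusedSectionVars false

namespace Pool.Agent.Helper5.CL

open Module Pool.Agent.N192.AV

section fam

variable {E C V : Type} [Field E] [CharZero E] [FiniteDimensional ℚ E] [Field C] [CharZero C]
  [IsAlgClosed C] [AddCommGroup V] [Module E V] [Module ℚ V] [IsScalarTower ℚ E V] {t : ℕ}
  (F : Fam E C V) (P : Basis (Fin t) E V)

/-- the functional `F.lam σ` in coordinates -/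
noncomputable def lamU (σ : E →ₐ[ℚ] C) : (Fin t → Fam.K C) →ₗ[Fam.K C] C where
  toFun u := ∑ i, (u i : C) * F.lam σ (P i)
  map_add' u v := by
    rw [← Finset.sum_add_distrib]
    refine Finset.sum_congr rfl fun i _ => ?_
    rw [← add_mul]
    rfl
  map_smul' c u := by
    rw [RingHom.id_apply, Finset.smul_sum]
    refine Finset.sum_congr rfl fun i _ => ?_
    exact mul_assoc (c : C) (u i : C) (F.lam σ (P i))

theorem lamU_apply (σ : E →ₐ[ℚ] C) (u : Fin t → Fam.K C) :
    lamU F P σ u = ∑ i, (u i : C) * F.lam σ (P i) := rfl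

theorem lamU_inj (σ : E →ₐ[ℚ] C) : Function.Injective (lamU F P σ) := by
  rw [← LinearMap.ker_eq_bot, LinearMap.ker_eq_bot']
  intro u hu
  have h1 := F.indep t P P.linearIndependent σ (fun i => (u i : C)) (fun i => Fam.alg_of_K _) hu
  funext i
  exact Subtype.ext (h1 i)

theorem lamU_ev (σ : E →ₐ[ℚ] C) (v : V) : lamU F P σ (evV C P v σ) = F.lam σ v := by
  conv_rhs => rw [← P.sum_repr v]
  rw [F.sum_smul, lamU_apply]
  rfl

/-- the rank of the functionals on `L` -/
noncomputable def rkF (L : Submodule ℚ V) : ℕ :=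
  finrank C (Submodule.span C (Set.range fun (σ : E →ₐ[ℚ] C) (l : L) => F.lam σ (l : V)))

/-- the span of `L` over the algebraic numbers -/
noncomputable def LK (L : Submodule ℚ V) :
    Submodule (Fam.K C) ((E →ₐ[ℚ] C) → Fin t → Fam.K C) :=
  Submodule.span (Fam.K C) (evV C P '' (L : Set V))

theorem mem_LK {L : Submodule ℚ V} {l : V} (hl : l ∈ L) : evV C P l ∈ LK (C := C) P L :=
  Submodule.subset_span ⟨l, hl, rfl⟩

theorem rk_LK (L : Submodule ℚ V) : rk (lamU F P) (LK P L) = rkF F L := by
  let res : (LK (C := C) P L →ₗ[Fam.K C] C) →ₗ[C] (L → C) :=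
    { toFun := fun f l => f ⟨evV C P l, mem_LK P l.2⟩
      map_add' := fun f g => rfl
      map_smul' := fun c f => rfl }
  have hres : Function.Injective res := by
    rw [← LinearMap.ker_eq_bot, LinearMap.ker_eq_bot']
    intro f hf
    refine LinearMap.ext fun w => ?_
    rw [LinearMap.zero_apply]
    obtain ⟨w, hw⟩ := w
    refine Submodule.span_induction (p := fun w hw => f ⟨w, hw⟩ = 0) ?_ ?_ ?_ ?_ hw
    · rintro _ ⟨l, hl, rfl⟩
      exact congrFun hf ⟨l, hl⟩
    · exact map_zero f
    · intro x y hx hy h1 h2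
      have : f (⟨x, hx⟩ + ⟨y, hy⟩) = 0 := by rw [map_add, h1, h2, add_zero]
      exact this
    · intro c x hx h1
      have : f (c • ⟨x, hx⟩) = 0 := by rw [map_smul, h1, smul_zero]
      exact this
  have h1 : (Submodule.span C (Set.range (lw (lamU F P) (LK P L)))).map res =
      Submodule.span C (Set.range fun (σ : E →ₐ[ℚ] C) (l : L) => F.lam σ (l : V)) := by
    rw [Submodule.map_span, ← Set.range_comp]
    congr 1
    congr 1
    funext σ l
    show lamU F P σ (evV C P l σ) = _
    rw [lamU_ev]
  rw [rk, rkF, ← h1]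
  exact (Submodule.equivMapOfInjective res hres _).finrank_eq

theorem finite_V (P : Basis (Fin t) E V) : Module.Finite ℚ V := by
  have : Module.Finite E V := Module.Finite.of_basis P
  exact Module.Finite.trans E V

theorem finrank_LK [Module.Finite ℚ V] (L : Submodule ℚ V) :
    finrank (Fam.K C) (LK (C := C) P L) = finrank ℚ L :=
  (LD_evV P).finrank_span L

/-- the map to the conjugates of an element of `E` -/
noncomputable def evE (E C : Type) [Field E] [CharZero E] [FiniteDimensional ℚ E] [Field C]
    [CharZero C] : E →+ ((E →ₐ[ℚ] C) → Fam.K C) where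
  toFun e σ := Fam.sKr σ e
  map_zero' := by
    funext σ
    simp
  map_add' v w := by
    funext σ
    simp

theorem LD_evE : LD (Fam.K C) (evE E C) := by
  refine ⟨fun q u => ?_, fun κ _ u a h0 h => ?_⟩
  · funext σ
    exact sKr_rat σ q u
  · refine LDE (C := C) u a (fun σ => ?_) h
    have h2 := congrFun h0 σ
    rw [Finset.sum_apply] at h2
    exact h2

theorem span_evE : Submodule.span (Fam.K C) (Set.range (evE E C)) = ⊤ := by
  have h1 := (LD_evE (E := E) (C := C)).finrank_span (⊤ : Submodule ℚ E)
  rw [Submodule.top_coe, Set.image_univ, finrank_top] at h1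
  apply Submodule.eq_top_of_finrank_eq
  rw [h1, Module.finrank_fintype_fun_eq_card, AlgHom.card]

end fam

end Pool.Agent.Helper5.CL
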