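import Pool.Agent.Helper5.CL.FamA

/-!
# The subspaces with the smallest possible rank are the submodules of one algebra
-/

set_option autoImplicit false
set_option linter.unusedSectionVars false

namespace Pool.Agent.Helper5.CL

open Module Pool.Agent.N192.AV

section famB

variable {E C V : Type} [Field E] [CharZero E] [FiniteDimensional ℚ E] [Field C] [CharZero C]
  [IsAlgClosed C] [AddCommGroup V] [Module E V] [Module ℚ V] [IsScalarTower ℚ E V] {t : ℕ}
  (F : Fam E C V) (P : Basis (Fin t) E V)

/-- the subspaces `L` with `dim L = t rk L` -/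
def extSet (F : Fam E C V) (t : ℕ) : Set (Submodule ℚ V) := {L | finrank ℚ L = t * rkF F L}

/-- their spans over the algebraic numbers -/
def extK (F : Fam E C V) (P : Basis (Fin t) E V) :
    Set (Submodule (Fam.K C) ((E →ₐ[ℚ] C) → Fin t → Fam.K C)) :=
  {Λ | ∃ L ∈ extSet F t, Λ = LK P L}

theorem extK_ext (Λ) (hΛ : Λ ∈ extK F P) : finrank (Fam.K C) Λ = t * rk (lamU F P) Λ := by
  have := finite_V P
  obtain ⟨L, hL, rfl⟩ := hΛ
  rw [rk_LK, finrank_LK]
  exact hL

/-- the scalars -/
def scal (E V : Type) [Field E] [CharZero E] [AddCommGroup V] [Module E V] [Module ℚ V]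
    [IsScalarTower ℚ E V] : Submodule ℚ (Module.End E V) where
  carrier := {x | ∃ e : E, x = e • (1 : Module.End E V)}
  add_mem' := by
    rintro _ _ ⟨e, rfl⟩ ⟨f, rfl⟩
    exact ⟨e + f, (add_smul e f _).symm⟩
  zero_mem' := ⟨0, (zero_smul _ _).symm⟩
  smul_mem' := by
    rintro q _ ⟨e, rfl⟩
    exact ⟨q • e, (smul_assoc q e _).symm⟩

theorem evR_smul (e : E) (b : Module.End E V) :
    evR C P (e • b) = fun σ => Fam.sKr σ e • evR C P b σ := by
  funext σ
  refine LinearMap.ext fun u => ?_
  rw [evR_apply, LinearMap.smul_apply, evR_apply, map_smul]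
  have h1 : (e • LinearMap.toMatrix P P b).map (Fam.sKr σ) =
      Fam.sKr σ e • (LinearMap.toMatrix P P b).map (Fam.sKr σ) := by
    ext i j
    simp
  rw [h1, Matrix.smul_mulVec]

theorem evR_one : evR C P (1 : Module.End E V) = fun _ => 1 := by
  funext σ
  refine LinearMap.ext fun u => ?_
  rw [evR_apply, LinearMap.toMatrix_one, Module.End.one_apply]
  have h1 : (1 : Matrix (Fin t) (Fin t) E).map (Fam.sKr σ) = 1 := by
    rw [Matrix.map_one _ (map_zero _) (map_one _)]
  rw [h1, Matrix.one_mulVec]

theorem scal_span (s : (E →ₐ[ℚ] C) → Fam.K C) :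
    (fun σ => s σ • (1 : Module.End (Fam.K C) (Fin t → Fam.K C))) ∈
      Submodule.span (Fam.K C) (evR C P '' (scal E V : Set (Module.End E V))) := by
  have h0 : s ∈ Submodule.span (Fam.K C) (Set.range (evE E C)) := by
    rw [span_evE]; trivial
  refine Submodule.span_induction (p := fun s _ =>
    (fun σ => s σ • (1 : Module.End (Fam.K C) (Fin t → Fam.K C))) ∈
      Submodule.span (Fam.K C) (evR C P '' (scal E V : Set (Module.End E V)))) ?_ ?_ ?_ ?_ h0
  · rintro _ ⟨e, rfl⟩
    refine Submodule.subset_span ⟨e • 1, ⟨e, rfl⟩, ?_⟩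
    rw [evR_smul, evR_one]
    rfl
  · have : (fun σ => (0 : (E →ₐ[ℚ] C) → Fam.K C) σ •
        (1 : Module.End (Fam.K C) (Fin t → Fam.K C))) = 0 := by
      funext σ
      simp
    rw [this]
    exact Submodule.zero_mem _
  · intro x y _ _ hx hy
    have : (fun σ => (x + y) σ • (1 : Module.End (Fam.K C) (Fin t → Fam.K C))) =
        (fun σ => x σ • (1 : Module.End (Fam.K C) (Fin t → Fam.K C))) +
        fun σ => y σ • (1 : Module.End (Fam.K C) (Fin t → Fam.K C)) := by
      funext σ
      exact add_smul _ _ _
    rw [this]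
    exact Submodule.add_mem _ hx hy
  · intro c x _ hx
    have : (fun σ => (c • x) σ • (1 : Module.End (Fam.K C) (Fin t → Fam.K C))) =
        c • fun σ => x σ • (1 : Module.End (Fam.K C) (Fin t → Fam.K C)) := by
      funext σ
      exact mul_smul c (x σ) (1 : Module.End (Fam.K C) (Fin t → Fam.K C))
    rw [this]
    exact Submodule.smul_mem _ _ hx

/-- multiplication by functions on the embeddings preserves the span of an `E`-subspace -/
theorem smul_span (R' : Submodule E (Module.End E V)) (s : (E →ₐ[ℚ] C) → Fam.K C)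
    (z : (E →ₐ[ℚ] C) → Module.End (Fam.K C) (Fin t → Fam.K C))
    (hz : z ∈ Submodule.span (Fam.K C) (evR C P '' (R' : Set (Module.End E V)))) :
    (fun σ => s σ • z σ) ∈
      Submodule.span (Fam.K C) (evR C P '' (R' : Set (Module.End E V))) := by
  have h0 : s ∈ Submodule.span (Fam.K C) (Set.range (evE E C)) := by
    rw [span_evE]; trivial
  refine Submodule.span_induction (p := fun s _ => (fun σ => s σ • z σ) ∈
      Submodule.span (Fam.K C) (evR C P '' (R' : Set (Module.End E V)))) ?_ ?_ ?_ ?_ h0
  · rintro _ ⟨e, rfl⟩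
    refine Submodule.span_induction (p := fun z _ => (fun σ => evE E C e σ • z σ) ∈
      Submodule.span (Fam.K C) (evR C P '' (R' : Set (Module.End E V)))) ?_ ?_ ?_ ?_ hz
    · rintro _ ⟨b, hb, rfl⟩
      refine Submodule.subset_span ⟨e • b, R'.smul_mem e hb, ?_⟩
      rw [evR_smul]
      rfl
    · have : (fun σ => evE E C e σ •
          (0 : (E →ₐ[ℚ] C) → Module.End (Fam.K C) (Fin t → Fam.K C)) σ) = 0 := by
        funext σ
        simp
      rw [this]
      exact Submodule.zero_mem _
    · intro x y _ _ hx hy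
      have : (fun σ => evE E C e σ • (x + y) σ) =
          (fun σ => evE E C e σ • x σ) + fun σ => evE E C e σ • y σ := by
        funext σ
        exact smul_add _ _ _
      rw [this]
      exact Submodule.add_mem _ hx hy
    · intro c x _ hx
      have : (fun σ => evE E C e σ • (c • x) σ) = c • fun σ => evE E C e σ • x σ := by
        funext σ
        exact smul_comm (evE E C e σ) c (x σ)
      rw [this]
      exact Submodule.smul_mem _ _ hx
  · have : (fun σ => (0 : (E →ₐ[ℚ] C) → Fam.K C) σ • z σ) = 0 := by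
      funext σ
      simp
    rw [this]
    exact Submodule.zero_mem _
  · intro x y _ _ hx hy
    have : (fun σ => (x + y) σ • z σ) = (fun σ => x σ • z σ) + fun σ => y σ • z σ := by
      funext σ
      exact add_smul _ _ _
    rw [this]
    exact Submodule.add_mem _ hx hy
  · intro c x _ hx
    have : (fun σ => (c • x) σ • z σ) = c • fun σ => x σ • z σ := by
      funext σ
      exact mul_smul c (x σ) (z σ)
    rw [this]
    exact Submodule.smul_mem _ _ hx

theorem finite_R (P : Basis (Fin t) E V) : Module.Finite ℚ (Module.End E V) := by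
  have : Module.Finite E V := Module.Finite.of_basis P
  exact Module.Finite.trans E (Module.End E V)

/-- elements of the span of the stabilizer stabilize -/
theorem stab_of_mem_span (b : (E →ₐ[ℚ] C) → Module.End (Fam.K C) (Fin t → Fam.K C))
    (B : Set (Module.End E V)) (hb : b ∈ Submodule.span (Fam.K C) (evR C P '' B))
    (L : Submodule ℚ V) (hL : ∀ x ∈ B, ∀ l ∈ L, x l ∈ L) : Stab b (LK P L) := by
  intro w hw
  refine Submodule.span_induction (p := fun b _ => (fun σ => b σ (w σ)) ∈ LK P L)
    ?_ ?_ ?_ ?_ hb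
  · rintro _ ⟨x, hx, rfl⟩
    refine Submodule.span_induction (p := fun w _ => (fun σ => evR C P x σ (w σ)) ∈ LK P L)
      ?_ ?_ ?_ ?_ hw
    · rintro _ ⟨l, hl, rfl⟩
      have h1 := actK_ev (C := C) P x l
      rw [actK_apply] at h1
      rw [h1]
      exact mem_LK P (hL x hx l hl)
    · have : (fun σ => evR C P x σ ((0 : (E →ₐ[ℚ] C) → Fin t → Fam.K C) σ)) = 0 := by
        funext σ
        exact map_zero _
      rw [this]
      exact Submodule.zero_mem _
    · intro y z _ _ hy hz
      have : (fun σ => evR C P x σ ((y + z) σ)) =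
          (fun σ => evR C P x σ (y σ)) + fun σ => evR C P x σ (z σ) := by
        funext σ
        exact map_add _ _ _
      rw [this]
      exact Submodule.add_mem _ hy hz
    · intro c y _ hy
      have : (fun σ => evR C P x σ ((c • y) σ)) = c • fun σ => evR C P x σ (y σ) := by
        funext σ
        exact (evR C P x σ).map_smul c (y σ)
      rw [this]
      exact Submodule.smul_mem _ _ hy
  · exact Submodule.zero_mem _
  · intro x y _ _ hx hy
    exact Submodule.add_mem _ hx hy
  · intro c x _ hx
    exact Submodule.smul_mem _ c hx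

/-- descent of stabilizers -/
theorem mem_span_of_stab (S : Submodule ℚ (Module.End E V))
    (b : (E →ₐ[ℚ] C) → Module.End (Fam.K C) (Fin t → Fam.K C))
    (hb : b ∈ Submodule.span (Fam.K C) (evR C P '' (S : Set (Module.End E V))))
    (hst : ∀ Λ ∈ extK F P, Stab b Λ) :
    b ∈ Submodule.span (Fam.K C)
      (evR C P '' (stabIn (actE E V) (extSet F t) S : Set (Module.End E V))) := by
  have := finite_R P
  exact descent (LD_evV P) (LD_evR P) (actE E V) (actK (E →ₐ[ℚ] C) (Fam.K C) t)
    (actK_ev P) (extSet F t) S b hb fun L hL w hw => hst (LK P L) ⟨L, hL, rfl⟩ w hw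

end famB

end Pool.Agent.Helper5.CL
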