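import Pool.Agent.Helper5.CL.FamB

/-!
# Dimensions, and the algebra of the maps which stabilize the subspaces of the smallest rank
-/

set_option autoImplicit false
set_option linter.unusedSectionVars false

namespace Pool.Agent.Helper5.CL

open Module Pool.Agent.N192.AV

section famC

variable {E C V : Type} [Field E] [CharZero E] [FiniteDimensional ℚ E] [Field C] [CharZero C]
  [IsAlgClosed C] [AddCommGroup V] [Module E V] [Module ℚ V] [IsScalarTower ℚ E V] {t : ℕ}
  (F : Fam E C V) (P : Basis (Fin t) E V)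

instance : IsAlgClosed (Fam.K C) := (algebraicClosure.isAlgClosure ℚ C).isAlgClosed

/-- the endomorphisms which stabilize all `L` with `dim L = t rk L` -/
noncomputable def Bst (F : Fam E C V) (t : ℕ) : Submodule ℚ (Module.End E V) :=
  stabIn (actE E V) (extSet F t) ⊤

theorem mem_Bst {b : Module.End E V} :
    b ∈ Bst F t ↔ ∀ L ∈ extSet F t, ∀ l ∈ L, b l ∈ L :=
  ⟨fun h => h.2, fun h => ⟨trivial, h⟩⟩

theorem evR_top : Submodule.span (Fam.K C)
    (evR C P '' ((⊤ : Submodule ℚ (Module.End E V)) : Set (Module.End E V))) = ⊤ := by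
  have h0 := finite_R P
  have h1 : Module.Finite E V := Module.Finite.of_basis P
  apply Submodule.eq_top_of_finrank_eq
  rw [(LD_evR P).finrank_span, finrank_top, ← Module.finrank_mul_finrank ℚ E (Module.End E V),
    Module.finrank_linearMap, Module.finrank_pi_fintype]
  simp only [Module.finrank_linearMap, Module.finrank_fintype_fun_eq_card, Fintype.card_fin,
    Finset.sum_const, Finset.card_univ, smul_eq_mul]
  rw [AlgHom.card, Module.finrank_eq_card_basis P, Fintype.card_fin]

/-- an element stabilizes the spans of all `L` iff it is in the span of `B` -/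
theorem mem_span_Bst (b : (E →ₐ[ℚ] C) → Module.End (Fam.K C) (Fin t → Fam.K C)) :
    b ∈ Submodule.span (Fam.K C) (evR C P '' (Bst F t : Set (Module.End E V))) ↔
      ∀ Λ ∈ extK F P, Stab b Λ := by
  constructor
  · rintro hb Λ ⟨L, hL, rfl⟩
    exact stab_of_mem_span P b _ hb L fun x hx => hx.2 L hL
  · intro hb
    refine mem_span_of_stab F P ⊤ b ?_ hb
    rw [evR_top]
    trivial

variable {r : (E →ₐ[ℚ] C) → (E →ₐ[ℚ] C)}
  {ψ : (E →ₐ[ℚ] C) → ((Fin t → Fam.K C) ≃ₗ[Fam.K C] (Fin t → Fam.K C))}

theorem finrank_Bst_le (hψ : ∀ σ, Link (lamU F P) (extK F P) (r σ) σ (ψ σ)) :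
    finrank ℚ (Bst F t) ≤ Nat.card (Set.range r) * (t * t) := by
  classical
  have h0 := finite_R P
  have := Fintype.ofFinite (Set.range r)
  let Θ : (Set.range r → Module.End (Fam.K C) (Fin t → Fam.K C)) →ₗ[Fam.K C]
      ((E →ₐ[ℚ] C) → Module.End (Fam.K C) (Fin t → Fam.K C)) :=
    { toFun := fun A σ => ((ψ σ).toLinearMap.comp (A ⟨r σ, σ, rfl⟩)).comp (ψ σ).symm.toLinearMap
      map_add' := fun A B => by
        funext σ
        refine LinearMap.ext fun u => ?_
        simp
      map_smul' := fun c A => by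
        funext σ
        refine LinearMap.ext fun u => ?_
        simp }
  have h1 : Submodule.span (Fam.K C) (evR C P '' (Bst F t : Set (Module.End E V))) ≤
      LinearMap.range Θ := by
    intro b hb
    rw [mem_span_Bst] at hb
    refine ⟨fun y => b y, ?_⟩
    have h2 := eq_bA hψ b hb
    conv_rhs => rw [h2]
    rfl
  have h3 := Submodule.finrank_mono h1
  have h4 := LinearMap.finrank_range_le Θ
  rw [(LD_evR P).finrank_span] at h3
  rw [Module.finrank_pi_fintype] at h4
  simp only [Module.finrank_linearMap, Module.finrank_fintype_fun_eq_card, Fintype.card_fin,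
    Finset.sum_const, Finset.card_univ, smul_eq_mul] at h4
  rw [Nat.card_eq_fintype_card]
  exact h3.trans h4

theorem card_le_scal (ht : 0 < t) (hψ : ∀ σ, Link (lamU F P) (extK F P) (r σ) σ (ψ σ))
    (hr : ∀ σ τ ψ', Link (lamU F P) (extK F P) σ τ ψ' → r σ = r τ) :
    Nat.card (Set.range r) ≤ finrank ℚ (stabIn (actE E V) (extSet F t) (scal E V)) := by
  classical
  have h0 := finite_R P
  have := Fintype.ofFinite (Set.range r)
  let Ξ : (Set.range r → Fam.K C) →ₗ[Fam.K C]
      ((E →ₐ[ℚ] C) → Module.End (Fam.K C) (Fin t → Fam.K C)) :=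
    { toFun := fun s σ => s ⟨r σ, σ, rfl⟩ • (1 : Module.End (Fam.K C) (Fin t → Fam.K C))
      map_add' := fun A B => by
        funext σ
        exact add_smul _ _ _
      map_smul' := fun c A => by
        funext σ
        exact mul_smul c (A ⟨r σ, σ, rfl⟩) (1 : Module.End (Fam.K C) (Fin t → Fam.K C)) }
  have hΞ : ∀ s σ, Ξ s σ = s ⟨r σ, σ, rfl⟩ • (1 : Module.End (Fam.K C) (Fin t → Fam.K C)) :=
    fun s σ => rfl
  have hinj : Function.Injective Ξ := by
    rw [← LinearMap.ker_eq_bot, LinearMap.ker_eq_bot']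
    intro s hs
    funext y
    obtain ⟨_, σ, rfl⟩ := y
    have h1 := congrFun (LinearMap.congr_fun (congrFun hs σ) (fun _ => (1 : Fam.K C)))
      (⟨0, ht⟩ : Fin t)
    rw [hΞ, LinearMap.smul_apply, Module.End.one_apply, Pi.smul_apply, smul_eq_mul, mul_one] at h1
    exact h1
  have hrange : LinearMap.range Ξ ≤ Submodule.span (Fam.K C)
      (evR C P '' (stabIn (actE E V) (extSet F t) (scal E V) : Set (Module.End E V))) := by
    rintro _ ⟨s, rfl⟩
    refine mem_span_of_stab F P (scal E V) (Ξ s) (scal_span P _) ?_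
    have h2 : Ξ s = bA r ψ (fun x => if h : x ∈ Set.range r then
        s ⟨x, h⟩ • (1 : Module.End (Fam.K C) (Fin t → Fam.K C)) else 0) := by
      funext σ
      refine LinearMap.ext fun u => ?_
      have hx : r σ ∈ Set.range r := ⟨σ, rfl⟩
      rw [bA_apply, dif_pos hx, hΞ, LinearMap.smul_apply, LinearMap.smul_apply,
        Module.End.one_apply, Module.End.one_apply, map_smul, LinearEquiv.apply_symm_apply]
    rw [h2]
    exact bA_stab ht (lamU_inj F P) (extK_ext F P) hψ hr _
  have h3 := Submodule.finrank_mono hrange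
  rw [(LD_evR P).finrank_span, LinearMap.finrank_range_of_inj hinj,
    Module.finrank_fintype_fun_eq_card] at h3
  rw [Nat.card_eq_fintype_card]
  exact h3

theorem span_Bst (ht : 0 < t) (hψ : ∀ σ, Link (lamU F P) (extK F P) (r σ) σ (ψ σ))
    (hr : ∀ σ τ ψ', Link (lamU F P) (extK F P) σ τ ψ' → r σ = r τ) :
    Submodule.span E (Bst F t : Set (Module.End E V)) = ⊤ := by
  classical
  have h0 := finite_R P
  set R' := Submodule.span E (Bst F t : Set (Module.End E V)) with hR'
  have h1 : Submodule.span (Fam.K C) (evR C P '' (R' : Set (Module.End E V))) = ⊤ := by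
    rw [eq_top_iff]
    intro z _
    have h2 : ∀ (σ : E →ₐ[ℚ] C) (M : Module.End (Fam.K C) (Fin t → Fam.K C)),
        Pi.single σ M ∈ Submodule.span (Fam.K C) (evR C P '' (R' : Set (Module.End E V))) := by
      intro σ M
      set A : (E →ₐ[ℚ] C) → Module.End (Fam.K C) (Fin t → Fam.K C) := fun _ =>
        ((ψ σ).symm.toLinearMap.comp M).comp (ψ σ).toLinearMap with hA
      have h3 : bA r ψ A ∈ Submodule.span (Fam.K C)
          (evR C P '' (Bst F t : Set (Module.End E V))) := by
        rw [mem_span_Bst]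
        exact bA_stab ht (lamU_inj F P) (extK_ext F P) hψ hr A
      have h4 : bA r ψ A ∈ Submodule.span (Fam.K C)
          (evR C P '' (R' : Set (Module.End E V))) :=
        Submodule.span_mono (Set.image_mono Submodule.subset_span) h3
      have h5 := smul_span P R' (Pi.single σ 1) _ h4
      have h6 : (fun τ => (Pi.single σ 1 : (E →ₐ[ℚ] C) → Fam.K C) τ • bA r ψ A τ) =
          Pi.single σ M := by
        funext τ
        by_cases hτ : τ = σ
        · subst hτ
          rw [Pi.single_eq_same, Pi.single_eq_same, one_smul]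
          refine LinearMap.ext fun u => ?_
          rw [bA_apply, hA]
          simp
        · rw [Pi.single_eq_of_ne hτ, Pi.single_eq_of_ne hτ, zero_smul]
      rwa [h6] at h5
    have h7 : z = ∑ σ, Pi.single σ (z σ) := (Finset.univ_sum_single z).symm
    rw [h7]
    exact Submodule.sum_mem _ fun σ _ => h2 σ (z σ)
  have h8 := (LD_evR (C := C) P).finrank_span (R'.restrictScalars ℚ)
  have h9 := (LD_evR (C := C) P).finrank_span (⊤ : Submodule ℚ (Module.End E V))
  rw [evR_top] at h9
  have h10 : finrank ℚ (R'.restrictScalars ℚ) = finrank ℚ (⊤ : Submodule ℚ (Module.End E V)) := by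
    have h12 : Submodule.span (Fam.K C)
        (evR C P '' ((R'.restrictScalars ℚ : Submodule ℚ (Module.End E V)) :
          Set (Module.End E V))) = ⊤ := h1
    rw [h12] at h8
    rw [← h8, ← h9]
  rw [finrank_top] at h10
  have h11 := Submodule.eq_top_of_finrank_eq h10
  rw [eq_top_iff]
  intro x _
  have : x ∈ R'.restrictScalars ℚ := by rw [h11]; trivial
  exact this

theorem ext_iff (ht : 0 < t) (hψ : ∀ σ, Link (lamU F P) (extK F P) (r σ) σ (ψ σ))
    (hr : ∀ σ τ ψ', Link (lamU F P) (extK F P) σ τ ψ' → r σ = r τ) (L : Submodule ℚ V) :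
    L ∈ extSet F t ↔ ∀ b ∈ Bst F t, ∀ l ∈ L, b l ∈ L := by
  have h0 := finite_V P
  constructor
  · intro hL b hb l hl
    exact hb.2 L hL l hl
  · intro h
    have h1 : ∀ A, Stab (bA r ψ A) (LK (C := C) P L) := by
      intro A
      have h3 : bA r ψ A ∈ Submodule.span (Fam.K C)
          (evR C P '' (Bst F t : Set (Module.End E V))) := by
        rw [mem_span_Bst]
        exact bA_stab ht (lamU_inj F P) (extK_ext F P) hψ hr A
      exact stab_of_mem_span P _ _ h3 L h
    have h2 := ext_of_stab ht (lamU F P) r ψ (fun σ => by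
      obtain ⟨⟨c, -, hc⟩, -⟩ := hψ σ
      exact ⟨c, hc⟩) (LK P L) h1
    have h3 := finrank_le_rk (lamU F P) (lamU_inj F P) (LK P L)
    rw [rk_LK, finrank_LK] at h2 h3
    exact le_antisymm h3 h2

include P in
theorem finrank_le_rkF (L : Submodule ℚ V) : finrank ℚ L ≤ t * rkF F L := by
  have h0 := finite_V P
  have h3 := finrank_le_rk (lamU F P) (lamU_inj F P) (LK P L)
  rwa [rk_LK, finrank_LK] at h3

end famC

end Pool.Agent.Helper5.CL
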