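import Pool.Agent.Helper5.CL.FamC

/-!
# The field `E₀` and the algebra `B`
-/

set_option autoImplicit false
set_option linter.unusedSectionVars false

namespace Pool.Agent.Helper5.CL

open Module Pool.Agent.N192.AV

section famD

variable {E C V : Type} [Field E] [CharZero E] [FiniteDimensional ℚ E] [Field C] [CharZero C]
  [IsAlgClosed C] [AddCommGroup V] [Module E V] [Module ℚ V] [IsScalarTower ℚ E V] {t : ℕ}
  (F : Fam E C V) (P : Basis (Fin t) E V)

/-- the elements of `E` which stabilize all `L` with `dim L = t rk L` -/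
def E0sub (F : Fam E C V) (t : ℕ) : Subalgebra ℚ E where
  carrier := {e | ∀ L ∈ extSet F t, ∀ l ∈ L, e • l ∈ L}
  mul_mem' := by
    intro a b ha hb L hL l hl
    rw [mul_smul]
    exact ha L hL _ (hb L hL l hl)
  add_mem' := by
    intro a b ha hb L hL l hl
    rw [add_smul]
    exact L.add_mem (ha L hL l hl) (hb L hL l hl)
  algebraMap_mem' := by
    intro q L hL l hl
    rw [algebraMap_smul]
    exact L.smul_mem q hl

/-- the field of the elements of `E` which stabilize all `L` with `dim L = t rk L` -/
noncomputable def E0 (F : Fam E C V) (t : ℕ) : IntermediateField ℚ E :=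
  (E0sub F t).toIntermediateField fun x hx =>
    Subalgebra.inv_mem_of_algebraic (E0sub F t) (x := ⟨x, hx⟩)
      (Algebra.IsAlgebraic.isAlgebraic (R := ℚ) x)

theorem mem_E0 {e : E} : e ∈ E0 F t ↔ ∀ L ∈ extSet F t, ∀ l ∈ L, e • l ∈ L := Iff.rfl

/-- the algebra of the endomorphisms which stabilize all `L` with `dim L = t rk L` -/
noncomputable def BA (F : Fam E C V) (t : ℕ) : Subalgebra (E0 F t) (Module.End E V) where
  carrier := {b | ∀ L ∈ extSet F t, ∀ l ∈ L, b l ∈ L}
  mul_mem' := by
    intro a b ha hb L hL l hl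
    exact ha L hL _ (hb L hL l hl)
  add_mem' := by
    intro a b ha hb L hL l hl
    exact L.add_mem (ha L hL l hl) (hb L hL l hl)
  algebraMap_mem' := by
    intro q L hL l hl
    have h1 : (algebraMap (E0 F t) (Module.End E V) q) l = (q : E) • l := by
      rw [Algebra.algebraMap_eq_smul_one]
      rfl
    rw [h1]
    exact q.2 L hL l hl

theorem mem_BA {b : Module.End E V} : b ∈ BA F t ↔ ∀ L ∈ extSet F t, ∀ l ∈ L, b l ∈ L := Iff.rfl

theorem BA_eq : (BA F t : Set (Module.End E V)) = (Bst F t : Set (Module.End E V)) := by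
  ext b
  exact (mem_Bst F).symm

theorem scal_le_E0 [Module.Finite ℚ (Module.End E V)] :
    finrank ℚ (stabIn (actE E V) (extSet F t) (scal E V)) ≤ finrank ℚ (E0 F t) := by
  let φ : E0 F t →ₗ[ℚ] Module.End E V :=
    { toFun := fun e => (e : E) • (1 : Module.End E V)
      map_add' := fun a b => add_smul _ _ _
      map_smul' := fun q a => smul_assoc q (a : E) (1 : Module.End E V) }
  have h1 : stabIn (actE E V) (extSet F t) (scal E V) ≤ LinearMap.range φ := by
    rintro _ ⟨⟨e, rfl⟩, he⟩
    exact ⟨⟨e, fun L hL l hl => he L hL l hl⟩, rfl⟩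
  exact (Submodule.finrank_mono h1).trans (LinearMap.finrank_range_le φ)

include P in
/-- every basis of `B` over `E₀` is a basis of `End_E(V)` over `E` -/
theorem fam_basis (ht : 0 < t) {ι : Type} (β : Basis ι (E0 F t) (BA F t)) :
    LinearIndependent E (fun i => (β i : Module.End E V)) ∧
      Submodule.span E (Set.range fun i => (β i : Module.End E V)) = ⊤ := by
  classical
  obtain ⟨r, ψ, hψ, hr⟩ := exists_rep (lamU F P) (extK F P)
  have h0 := finite_R P
  have h0V : Module.Finite E V := Module.Finite.of_basis P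
  have h1 := finrank_Bst_le F P hψ
  have h2 := card_le_scal F P ht hψ hr
  have h3 := span_Bst F P ht hψ hr
  have h4 := scal_le_E0 (t := t) F
  -- finiteness
  have h5 : Module.Finite ℚ (BA F t) := by
    have : Module.Finite ℚ (Bst F t) := inferInstance
    let g : BA F t →ₗ[ℚ] Bst F t :=
      { toFun := fun b => ⟨b, (mem_Bst F).2 b.2⟩
        map_add' := fun a b => rfl
        map_smul' := fun q a => rfl }
    exact Module.Finite.of_injective g fun a b hab =>
      Subtype.ext (congrArg (fun z : Bst F t => (z : Module.End E V)) hab)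
  have h5' : finrank ℚ (BA F t) = finrank ℚ (Bst F t) := by
    let g : BA F t ≃ₗ[ℚ] Bst F t :=
      { toFun := fun b => ⟨b, (mem_Bst F).2 b.2⟩
        map_add' := fun a b => rfl
        map_smul' := fun q a => rfl
        invFun := fun b => ⟨b, (mem_Bst F).1 b.2⟩
        left_inv := fun b => rfl
        right_inv := fun b => rfl }
    exact g.finrank_eq
  have h6 : Module.Finite (E0 F t) (BA F t) :=
    Module.Finite.of_restrictScalars_finite ℚ (E0 F t) (BA F t)
  have h6' : Finite ι := Module.Finite.finite_basis β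
  have := Fintype.ofFinite ι
  have h7 : finrank ℚ (E0 F t) * Fintype.card ι = finrank ℚ (BA F t) := by
    rw [← Module.finrank_eq_card_basis β]
    exact Module.finrank_mul_finrank ℚ (E0 F t) (BA F t)
  have hspan : Submodule.span E (Set.range fun i => (β i : Module.End E V)) = ⊤ := by
    rw [eq_top_iff, ← h3, Submodule.span_le]
    intro b hb
    have hb' : b ∈ BA F t := (mem_Bst F).1 hb
    have e1 := congrArg (fun z : BA F t => (z : Module.End E V)) (β.sum_repr ⟨b, hb'⟩)
    simp only [AddSubmonoidClass.coe_finsetSum] at e1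
    have e2 : b = ∑ i, ((β.repr ⟨b, hb'⟩ i : E0 F t) : E) • (β i : Module.End E V) := e1.symm
    rw [e2]
    exact Submodule.sum_mem _ fun i _ => Submodule.smul_mem _ _ (Submodule.subset_span ⟨i, rfl⟩)
  have h8 : finrank E (Module.End E V) = t * t := by
    rw [Module.finrank_linearMap, Module.finrank_eq_card_basis P, Fintype.card_fin]
  have h9 : t * t ≤ Fintype.card ι := by
    have e1 := finrank_range_le_card (R := E) (fun i => (β i : Module.End E V))
    rw [Set.finrank, hspan, finrank_top, h8] at e1
    exact e1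
  have h10 : 0 < finrank ℚ (E0 F t) := finrank_pos
  have h11 : Fintype.card ι ≤ t * t := by
    have e1 : finrank ℚ (E0 F t) * Fintype.card ι ≤ finrank ℚ (E0 F t) * (t * t) := by
      rw [h7, h5']
      exact h1.trans (Nat.mul_le_mul_right _ (h2.trans h4))
    exact Nat.le_of_mul_le_mul_left e1 h10
  refine ⟨?_, hspan⟩
  exact linearIndependent_of_top_le_span_of_card_eq_finrank hspan.ge
    (by rw [h8]; exact le_antisymm h11 h9)

include P in
theorem fam_iff (ht : 0 < t) (L : Submodule ℚ V) :
    finrank ℚ L = t * rkF F L ↔ ∀ b ∈ BA F t, ∀ l ∈ L, b l ∈ L := by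
  obtain ⟨r, ψ, hψ, hr⟩ := exists_rep (lamU F P) (extK F P)
  have h1 := ext_iff F P ht hψ hr L
  constructor
  · intro h b hb l hl
    exact h1.1 h b ((mem_Bst F).2 hb) l hl
  · intro h
    exact h1.2 fun b hb l hl => h b ((mem_Bst F).1 hb) l hl

include P in
/-- `E₀ = E` iff `0` and `V` are the only `L` with `dim L = t rk L` (or some of them are not) -/
theorem fam_trivial (ht : 0 < t) :
    E0 F t = ⊤ ↔ ∀ L ∈ extSet F t, L = ⊥ ∨ L = ⊤ := by
  constructor
  · intro h0 L hL
    by_cases hb : L = ⊥
    · exact Or.inl hb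
    right
    obtain ⟨r, ψ, hψ, hr⟩ := exists_rep (lamU F P) (extK F P)
    have h3 := span_Bst F P ht hψ hr
    have h4 : ∀ b : Module.End E V, ∀ l ∈ L, b l ∈ L := by
      intro b l hl
      have hb : b ∈ Submodule.span E (Bst F t : Set (Module.End E V)) := by
        rw [h3]; trivial
      refine Submodule.span_induction (p := fun b _ => b l ∈ L) ?_ ?_ ?_ ?_ hb
      · intro x hx
        exact (mem_Bst F).1 hx L hL l hl
      · exact L.zero_mem
      · intro x y _ _ hx hy
        exact L.add_mem hx hy
      · intro e x _ hx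
        have he : e ∈ E0 F t := by rw [h0]; trivial
        exact he L hL _ hx
    obtain ⟨l, hl, hl0⟩ := Submodule.exists_mem_ne_zero_of_ne_bot hb
    rw [eq_top_iff]
    intro v _
    obtain ⟨b, hb⟩ : ∃ b : Module.End E V, b l = v := by
      obtain ⟨f, hf⟩ : ∃ f : V →ₗ[E] E, f l ≠ 0 := by
        by_contra hcon
        push Not at hcon
        exact hl0 ((Module.forall_dual_apply_eq_zero_iff E l).1 hcon)
      refine ⟨f.smulRight ((f l)⁻¹ • v), ?_⟩
      rw [LinearMap.smulRight_apply, smul_smul, mul_inv_cancel₀ hf, one_smul]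
    rw [← hb]
    exact h4 b l hl
  · intro h
    rw [eq_top_iff]
    intro e _ L hL l hl
    rcases h L hL with rfl | rfl
    · rw [(Submodule.mem_bot ℚ).1 hl, smul_zero]
      exact Submodule.zero_mem _
    · trivial

end famD

end Pool.Agent.Helper5.CL
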