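import Pool.Agent.Helper5.CL.FamD

/-!
# The subspaces of the smallest rank if one of them has the dimension `t [E₀ : ℚ]`
-/

set_option autoImplicit false
set_option linter.unusedSectionVars false

namespace Pool.Agent.Helper5.CL

open Module Pool.Agent.N192.AV

/-- the subspace spanned by the products `e l`, `e ∈ F`, `l ∈ L₁` -/
def prodSpan {E V : Type} [Field E] [AddCommGroup V] [Module E V] [Module ℚ V]
    (F : Set E) (L₁ : Submodule ℚ V) : Submodule ℚ V :=
  Submodule.span ℚ {x | ∃ e ∈ F, ∃ l ∈ L₁, x = e • l}

section famE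

variable {E C V : Type} [Field E] [CharZero E] [FiniteDimensional ℚ E] [Field C] [CharZero C]
  [IsAlgClosed C] [AddCommGroup V] [Module E V] [Module ℚ V] [IsScalarTower ℚ E V] {t : ℕ}
  (G : Fam E C V) (P : Basis (Fin t) E V)

/-- a subspace of the smallest rank, as a space over `E₀` -/
def ovL (L : Submodule ℚ V) (hL : L ∈ extSet G t) : Submodule (E0 G t) V where
  carrier := L
  add_mem' := L.add_mem
  zero_mem' := L.zero_mem
  smul_mem' c x hx := c.2 L hL x hx

include P in
/-- a nonzero subspace of the smallest rank spans `V` over `E` -/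
theorem span_of_ext (ht : 0 < t) (L : Submodule ℚ V) (hL : L ∈ extSet G t) (h0 : L ≠ ⊥) :
    Submodule.span E (L : Set V) = ⊤ := by
  obtain ⟨r, ψ, hψ, hr⟩ := exists_rep (lamU G P) (extK G P)
  have h3 := span_Bst G P ht hψ hr
  obtain ⟨l, hl, hl0⟩ := Submodule.exists_mem_ne_zero_of_ne_bot h0
  rw [eq_top_iff]
  intro v _
  obtain ⟨f, hf⟩ : ∃ f : V →ₗ[E] E, f l ≠ 0 := by
    by_contra hcon
    push Not at hcon
    exact hl0 ((Module.forall_dual_apply_eq_zero_iff E l).1 hcon)
  have h4 : ∀ b : Module.End E V, b l ∈ Submodule.span E (L : Set V) := by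
    intro b
    have hb : b ∈ Submodule.span E (Bst G t : Set (Module.End E V)) := by
      rw [h3]; trivial
    refine Submodule.span_induction (p := fun b _ => b l ∈ Submodule.span E (L : Set V))
      ?_ ?_ ?_ ?_ hb
    · intro x hx
      exact Submodule.subset_span ((mem_Bst G).1 hx L hL l hl)
    · exact Submodule.zero_mem _
    · intro x y _ _ hx hy
      exact Submodule.add_mem _ hx hy
    · intro e x _ hx
      exact Submodule.smul_mem _ e hx
  have h5 := h4 (f.smulRight ((f l)⁻¹ • v))
  rwa [LinearMap.smulRight_apply, smul_smul, mul_inv_cancel₀ hf, one_smul] at h5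

theorem finrank_over [Module.Finite ℚ V] (L : Submodule ℚ V) (hL : L ∈ extSet G t) :
    finrank ℚ (E0 G t) * finrank (E0 G t) (ovL G L hL) = finrank ℚ L :=
  Module.finrank_mul_finrank ℚ (E0 G t) (ovL G L hL)

include P in
/-- a basis over `E₀` of a subspace which spans `V` over `E` -/
theorem exists_basis_of_ext (ht : 0 < t) (L₁ : Submodule ℚ V) (hext : L₁ ∈ extSet G t)
    (h1 : finrank ℚ L₁ = t * finrank ℚ (E0 G t)) :
    ∃ (l : Basis (Fin t) (E0 G t) (ovL G L₁ hext)) (bE : Basis (Fin t) E V),
      ∀ i, bE i = (l i : V) := by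
  have hV := finite_V P
  have hVE : Module.Finite E V := Module.Finite.of_basis P
  have c5 : 0 < finrank ℚ (E0 G t) := finrank_pos
  have h0 : L₁ ≠ ⊥ := by
    rintro rfl
    rw [finrank_bot] at h1
    exact (Nat.mul_pos ht c5).ne h1
  have hspan := span_of_ext G P ht L₁ hext h0
  have h2 : finrank (E0 G t) (ovL G L₁ hext) = t := by
    have e1 := finrank_over G L₁ hext
    rw [h1, mul_comm t] at e1
    exact Nat.eq_of_mul_eq_mul_left c5 e1
  have hfin : Module.Finite (E0 G t) (ovL G L₁ hext) := by
    have : Module.Finite ℚ L₁ := inferInstance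
    have : Module.Finite ℚ (ovL G L₁ hext) := this
    exact Module.Finite.of_restrictScalars_finite ℚ (E0 G t) (ovL G L₁ hext)
  let l : Basis (Fin t) (E0 G t) (ovL G L₁ hext) := finBasisOfFinrankEq _ _ h2
  have hlspan : Submodule.span E (Set.range fun i => (l i : V)) = ⊤ := by
    rw [← hspan]
    apply le_antisymm
    · rw [Submodule.span_le]
      rintro _ ⟨i, rfl⟩
      exact Submodule.subset_span (l i).2
    · rw [Submodule.span_le]
      intro x hx
      have e1 := congrArg (fun z : ovL G L₁ hext => (z : V)) (l.sum_repr ⟨x, hx⟩)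
      simp only [Submodule.coe_sum, Submodule.coe_smul] at e1
      rw [← e1]
      refine Submodule.sum_mem _ fun i _ => ?_
      exact Submodule.smul_mem _ ((l.repr ⟨x, hx⟩ i : E0 G t) : E)
        (Submodule.subset_span ⟨i, rfl⟩)
  have hlind : LinearIndependent E fun i => (l i : V) :=
    linearIndependent_of_top_le_span_of_card_eq_finrank hlspan.ge
      (by rw [Module.finrank_eq_card_basis P])
  exact ⟨l, Basis.mk hlind hlspan.ge, fun i => Basis.mk_apply hlind hlspan.ge i⟩

include P in
theorem fam_split (ht : 0 < t) (L₁ : Submodule ℚ V) (hext : L₁ ∈ extSet G t)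
    (h1 : finrank ℚ L₁ = t * finrank ℚ (E0 G t))
    (L : Submodule ℚ V) : L ∈ extSet G t ↔
      ∃ F : Submodule (E0 G t) E, L = prodSpan (F : Set E) L₁ := by
  classical
  have hVE : Module.Finite E V := Module.Finite.of_basis P
  have hV := finite_V P
  have hR := finite_R P
  obtain ⟨l, bE, hbE⟩ := exists_basis_of_ext G P ht L₁ hext h1
  constructor
  swap
  · rintro ⟨F, rfl⟩
    refine (fam_iff G P ht _).2 fun b hb x hx => ?_
    refine Submodule.span_induction (p := fun x _ => b x ∈ prodSpan (F : Set E) L₁)
      ?_ ?_ ?_ ?_ hx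
    · rintro _ ⟨e, he, y, hy, rfl⟩
      rw [map_smul]
      exact Submodule.subset_span ⟨e, he, b y, hb L₁ hext y hy, rfl⟩
    · rw [map_zero]
      exact Submodule.zero_mem _
    · intro x y _ _ hx hy
      rw [map_add]
      exact Submodule.add_mem _ hx hy
    · intro q x _ hx
      rw [← algebraMap_smul E q x, map_smul, algebraMap_smul]
      exact Submodule.smul_mem _ _ hx
  intro hL
  have hBL : ∀ b ∈ BA G t, ∀ x ∈ L, b x ∈ L := fun b hb => hb L hL
  -- the dimension of `B`
  have hBfin : Module.Finite ℚ (BA G t) :=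
    Module.Finite.of_injective ((BA G t).val.toLinearMap.restrictScalars ℚ) Subtype.val_injective
  have hBfin' : Module.Finite (E0 G t) (BA G t) :=
    Module.Finite.of_restrictScalars_finite ℚ (E0 G t) (BA G t)
  obtain ⟨q1, q2⟩ := fam_basis G P ht (finBasis (E0 G t) (BA G t))
  have c1 : finrank (E0 G t) (BA G t) = t * t := by
    have := Module.finrank_eq_card_basis (Basis.mk q1 q2.ge)
    rw [Fintype.card_fin, Module.finrank_linearMap, Module.finrank_eq_card_basis P,
      Fintype.card_fin] at this
    exact this.symm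
  have hLfin : Module.Finite (E0 G t) (ovL G L₁ hext) := Module.Finite.of_basis l
  let ρ : BA G t →ₗ[E0 G t] (ovL G L₁ hext →ₗ[E0 G t] ovL G L₁ hext) :=
    { toFun := fun b =>
        { toFun := fun x => ⟨(b : Module.End E V) (x : V), b.2 L₁ hext x x.2⟩
          map_add' := fun x y => Subtype.ext (map_add (b : Module.End E V) (x : V) (y : V))
          map_smul' := fun q x => Subtype.ext
            (map_smul (b : Module.End E V) (q : E) (x : V)) }
      map_add' := fun b b' => rfl
      map_smul' := fun q b => rfl }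
  have hρ : Function.Injective ρ := by
    rw [← LinearMap.ker_eq_bot, LinearMap.ker_eq_bot']
    intro b hb
    apply Subtype.ext
    refine bE.ext fun i => ?_
    have e1 := LinearMap.congr_fun hb (l i)
    rw [hbE]
    exact congrArg (fun z : ovL G L₁ hext => (z : V)) e1
  have c6 : finrank (E0 G t) (BA G t) =
      finrank (E0 G t) (ovL G L₁ hext →ₗ[E0 G t] ovL G L₁ hext) := by
    rw [Module.finrank_linearMap, Module.finrank_eq_card_basis l, Fintype.card_fin, c1]
  have hρs : Function.Surjective ρ :=
    (LinearMap.injective_iff_surjective_of_finrank_eq_finrank c6).1 hρ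
  let F : Submodule (E0 G t) E :=
    { carrier := {e | ∀ x ∈ L₁, e • x ∈ L}
      add_mem' := fun {a b} ha hb x hx => by
        rw [add_smul]
        exact L.add_mem (ha x hx) (hb x hx)
      zero_mem' := fun x hx => by
        rw [zero_smul]
        exact L.zero_mem
      smul_mem' := fun q a ha x hx => by
        have e1 : (q • a) • x = (q : E) • (a • x) := by
          rw [← mul_smul]
          rfl
        rw [e1]
        exact q.2 L hL _ (ha x hx) }
  refine ⟨F, le_antisymm ?_ ?_⟩
  · intro x hx
    have e1 : ∀ j, bE.repr x j ∈ F := by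
      intro j y hy
      obtain ⟨b, hb⟩ := hρs (l.constr (E0 G t) fun i =>
        if i = j then (⟨y, hy⟩ : ovL G L₁ hext) else 0)
      have e2 : ∀ i, (b : Module.End E V) (bE i) = if i = j then y else 0 := by
        intro i
        have e3 := LinearMap.congr_fun hb (l i)
        rw [l.constr_basis] at e3
        have e4 := congrArg (fun z : ovL G L₁ hext => (z : V)) e3
        rw [hbE]
        split_ifs at e4 ⊢
        · exact e4
        · exact e4
      have e5 : (b : Module.End E V) x = bE.repr x j • y := by
        conv_lhs => rw [← bE.sum_repr x]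
        rw [map_sum, Finset.sum_eq_single j]
        · rw [map_smul, e2, if_pos rfl]
        · intro i _ hi
          rw [map_smul, e2, if_neg hi, smul_zero]
        · intro h
          exact absurd (Finset.mem_univ j) h
      rw [← e5]
      exact hBL b b.2 x hx
    rw [← bE.sum_repr x]
    refine Submodule.sum_mem _ fun j _ => Submodule.subset_span ⟨_, e1 j, bE j, ?_, rfl⟩
    rw [hbE]
    exact (l j).2
  · rw [prodSpan, Submodule.span_le]
    rintro _ ⟨e, he, y, hy, rfl⟩
    exact he y hy

include P in
/-- the dimension of a product -/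
theorem finrank_prodSpan (ht : 0 < t) (L₁ : Submodule ℚ V) (hext : L₁ ∈ extSet G t)
    (h1 : finrank ℚ L₁ = t * finrank ℚ (E0 G t)) (F : Submodule (E0 G t) E) :
    finrank ℚ (prodSpan (F : Set E) L₁) = t * finrank ℚ F := by
  classical
  have hV := finite_V P
  obtain ⟨l, bE, hbE⟩ := exists_basis_of_ext G P ht L₁ hext h1
  let φ : (Fin t → F) →ₗ[ℚ] V :=
    { toFun := fun e => ∑ j, ((e j : F) : E) • bE j
      map_add' := fun e f => by
        rw [← Finset.sum_add_distrib]
        refine Finset.sum_congr rfl fun j _ => ?_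
        rw [← add_smul]
        rfl
      map_smul' := fun q e => by
        rw [RingHom.id_apply, Finset.smul_sum]
        refine Finset.sum_congr rfl fun j _ => ?_
        exact smul_assoc q ((e j : F) : E) (bE j) }
  have hφ : Function.Injective φ := by
    rw [← LinearMap.ker_eq_bot, LinearMap.ker_eq_bot']
    intro e he
    have e1 := Fintype.linearIndependent_iff.1 bE.linearIndependent
      (fun j => ((e j : F) : E)) he
    funext j
    exact Subtype.ext (e1 j)
  have hrange : LinearMap.range φ = prodSpan (F : Set E) L₁ := by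
    apply le_antisymm
    · rintro _ ⟨e, rfl⟩
      show ∑ j, ((e j : F) : E) • bE j ∈
        Submodule.span ℚ {x : V | ∃ e ∈ (F : Set E), ∃ l ∈ L₁, x = e • l}
      refine Submodule.sum_mem _ fun j _ =>
        Submodule.subset_span ⟨((e j : F) : E), (e j).2, bE j, ?_, rfl⟩
      rw [hbE]
      exact (l j).2
    · rw [prodSpan, Submodule.span_le]
      rintro _ ⟨e, he, y, hy, rfl⟩
      have e1 := congrArg (fun z : ovL G L₁ hext => (z : V)) (l.sum_repr ⟨y, hy⟩)
      simp only [Submodule.coe_sum, Submodule.coe_smul] at e1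
      refine ⟨fun j => (l.repr ⟨y, hy⟩ j) • (⟨e, he⟩ : F), ?_⟩
      show ∑ j, (((l.repr ⟨y, hy⟩ j) • (⟨e, he⟩ : F) : F) : E) • bE j = e • y
      conv_rhs => rw [← e1, Finset.smul_sum]
      refine Finset.sum_congr rfl fun j _ => ?_
      rw [hbE]
      have e2 : (((l.repr ⟨y, hy⟩ j) • (⟨e, he⟩ : F) : F) : E) =
          ((l.repr ⟨y, hy⟩ j : E0 G t) : E) * e := rfl
      have e3 : (l.repr ⟨y, hy⟩ j) • (l j : V) = ((l.repr ⟨y, hy⟩ j : E0 G t) : E) • (l j : V) :=
        rfl
      rw [e2, e3, smul_smul, mul_comm]
  have hF : Module.Finite ℚ F := by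
    have : Module.Finite ℚ (F.restrictScalars ℚ) := inferInstance
    exact this
  rw [← hrange, LinearMap.finrank_range_of_inj hφ, Module.finrank_pi_fintype]
  simp

end famE

end Pool.Agent.Helper5.CL
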