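import Pool.Agent.Helper5.CL.FamE

/-!
# The case of dimension two: products or a division algebra
-/

set_option autoImplicit false
set_option linter.unusedSectionVars false

namespace Pool.Agent.Helper5.CL

open Module Pool.Agent.N192.AV

section famF

variable {E C V : Type} [Field E] [CharZero E] [FiniteDimensional ℚ E] [Field C] [CharZero C]
  [IsAlgClosed C] [AddCommGroup V] [Module E V] [Module ℚ V] [IsScalarTower ℚ E V] {t : ℕ}
  (G : Fam E C V) (P : Basis (Fin t) E V)

include P in
/-- independence over `E₀` in `B` implies independence over `E` -/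
theorem fam_indep (ht : 0 < t) {ι : Type} (g : ι → BA G t) (hg : LinearIndependent (E0 G t) g) :
    LinearIndependent E fun i => (g i : Module.End E V) := by
  let β := Basis.extend hg.linearIndepOn_id
  have h1 := (fam_basis G P ht β).1
  have hmem : ∀ i, g i ∈ hg.linearIndepOn_id.extend (Set.subset_univ _) := fun i =>
    Basis.subset_extend hg.linearIndepOn_id ⟨i, rfl⟩
  let f : ι → hg.linearIndepOn_id.extend (Set.subset_univ _) := fun i => ⟨g i, hmem i⟩
  have hf : Function.Injective f := fun i j hij => hg.injective (congrArg Subtype.val hij)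
  have h2 := h1.comp f hf
  have h3 : ((fun i => (β i : Module.End E V)) ∘ f) = fun i => (g i : Module.End E V) := by
    funext i
    show ((β (f i) : BA G t) : Module.End E V) = _
    rw [Basis.extend_apply_self]
  rwa [h3] at h2

include P in
/-- an element of rank one of `B` gives a subspace of dimension `t [E₀ : ℚ]` -/
theorem fam_of_rank_one_elt (ht : 0 < t) (b : Module.End E V) (hb : b ∈ BA G t)
    (hr : finrank E (LinearMap.range b) = 1) :
    ∃ L₁ ∈ extSet G t, finrank ℚ L₁ = t * finrank ℚ (E0 G t) := by
  classical
  have hVE : Module.Finite E V := Module.Finite.of_basis P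
  have hV := finite_V P
  obtain ⟨⟨w, hw⟩, hw0, hw1⟩ := finrank_eq_one_iff'.1 hr
  obtain ⟨v, hv⟩ := hw
  have hrange : ∀ x, ∃ c : E, b x = c • w := by
    intro x
    obtain ⟨c, hc⟩ := hw1 ⟨b x, x, rfl⟩
    exact ⟨c, (congrArg Subtype.val hc).symm⟩
  have hwne : w ≠ 0 := fun h => hw0 (Subtype.ext h)
  let L₁ : Submodule ℚ V :=
    { carrier := {x | ∃ b' ∈ BA G t, x = b' w}
      add_mem' := by
        rintro _ _ ⟨a, ha, rfl⟩ ⟨c, hc, rfl⟩
        exact ⟨a + c, (BA G t).add_mem ha hc, rfl⟩
      zero_mem' := ⟨0, (BA G t).zero_mem, rfl⟩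
      smul_mem' := by
        rintro q _ ⟨a, ha, rfl⟩
        refine ⟨(algebraMap ℚ (E0 G t) q) • a, (BA G t).smul_mem ha _, ?_⟩
        show q • a w = ((algebraMap ℚ (E0 G t) q : E0 G t) : E) • a w
        rw [← algebraMap_smul E q (a w)]
        rfl }
  have hext : L₁ ∈ extSet G t := by
    refine (fam_iff G P ht L₁).2 ?_
    rintro a ha _ ⟨c, hc, rfl⟩
    exact ⟨a * c, (BA G t).mul_mem ha hc, rfl⟩
  have hL0 : L₁ ≠ ⊥ := by
    intro h
    have e1 : w ∈ L₁ := ⟨1, (BA G t).one_mem, rfl⟩
    rw [h] at e1
    exact hwne ((Submodule.mem_bot ℚ).1 e1)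
  refine ⟨L₁, hext, ?_⟩
  have hspan := span_of_ext G P ht L₁ hext hL0
  have hfin : Module.Finite (E0 G t) (ovL G L₁ hext) := by
    have : Module.Finite ℚ L₁ := inferInstance
    have : Module.Finite ℚ (ovL G L₁ hext) := this
    exact Module.Finite.of_restrictScalars_finite ℚ (E0 G t) (ovL G L₁ hext)
  have key : finrank (E0 G t) (ovL G L₁ hext) = t := by
    let l := finBasis (E0 G t) (ovL G L₁ hext)
    apply le_antisymm
    · -- elements of `L₁` independent over `E₀` are independent over `E`
      have e0 : ∀ i, ∃ b' ∈ BA G t, (l i : V) = b' w := fun i => (l i).2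
      choose a ha haw using e0
      let g : Fin (finrank (E0 G t) (ovL G L₁ hext)) → BA G t := fun i =>
        ⟨a i * b, (BA G t).mul_mem (ha i) hb⟩
      have hg : LinearIndependent (E0 G t) g := by
        rw [Fintype.linearIndependent_iff]
        intro c hc
        refine Fintype.linearIndependent_iff.1 l.linearIndependent c ?_
        apply Subtype.ext
        have e1 := congrArg (fun z : BA G t => (z : Module.End E V) v) hc
        simp only [AddSubmonoidClass.coe_finsetSum, LinearMap.sum_apply] at e1
        rw [AddSubmonoidClass.coe_finsetSum]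
        refine Eq.trans (Finset.sum_congr rfl fun i _ => ?_) e1
        show ((c i : E0 G t) : E) • (l i : V) = ((c i : E0 G t) : E) • (a i) (b v)
        rw [haw i, hv]
      have hgE := fam_indep G P ht g hg
      have hlE : LinearIndependent E fun i => (l i : V) := by
        rw [Fintype.linearIndependent_iff]
        intro c hc
        refine Fintype.linearIndependent_iff.1 hgE c ?_
        refine LinearMap.ext fun x => ?_
        obtain ⟨s, hs⟩ := hrange x
        rw [LinearMap.sum_apply, LinearMap.zero_apply]
        have e2 : ∀ i, (c i • (g i : Module.End E V)) x = s • (c i • (l i : V)) := by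
          intro i
          show c i • (a i) (b x) = _
          rw [hs, map_smul, ← haw i, smul_comm]
        rw [Finset.sum_congr rfl (fun i _ => e2 i), ← Finset.smul_sum, hc, smul_zero]
      have e3 := hlE.fintype_card_le_finrank
      rwa [Fintype.card_fin, Module.finrank_eq_card_basis P, Fintype.card_fin] at e3
    · -- `L₁` spans `V` over `E`
      have e1 : Submodule.span E (Set.range fun i => (l i : V)) = ⊤ := by
        rw [eq_top_iff, ← hspan, Submodule.span_le]
        intro x hx
        have e2 := congrArg (fun z : ovL G L₁ hext => (z : V)) (l.sum_repr ⟨x, hx⟩)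
        simp only [Submodule.coe_sum, Submodule.coe_smul] at e2
        rw [← e2]
        refine Submodule.sum_mem _ fun i _ => ?_
        exact Submodule.smul_mem _ ((l.repr ⟨x, hx⟩ i : E0 G t) : E)
          (Submodule.subset_span ⟨i, rfl⟩)
      have e3 := finrank_range_le_card (R := E) (fun i => (l i : V))
      rw [Set.finrank, e1, finrank_top, Module.finrank_eq_card_basis P, Fintype.card_fin,
        Fintype.card_fin] at e3
      exact e3
  rw [← finrank_over G L₁ hext, key, mul_comm]

include P in
/-- an element of `B` which is bijective on `V` is a unit of `B` -/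
theorem isUnit_of_injective (b : BA G t) (hb : Function.Injective (b : Module.End E V)) :
    IsUnit b := by
  have hVE : Module.Finite E V := Module.Finite.of_basis P
  have hV := finite_V P
  let e : V ≃ₗ[E] V := LinearEquiv.ofInjectiveEndo (b : Module.End E V) hb
  have he : ∀ x, e x = (b : Module.End E V) x := fun x => rfl
  have hinv : (e.symm : V →ₗ[E] V) ∈ BA G t := by
    intro L hL l hl
    have e1 : ∀ x ∈ L, e x ∈ L := fun x hx => b.2 L hL x hx
    let f : L →ₗ[ℚ] L :=
      { toFun := fun x => ⟨e x, e1 x x.2⟩
        map_add' := fun x y => Subtype.ext (map_add e (x : V) (y : V))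
        map_smul' := fun q x => Subtype.ext (by
          show e (q • (x : V)) = q • e (x : V)
          rw [← algebraMap_smul E q (x : V), map_smul, algebraMap_smul]) }
    have hf : Function.Injective f := fun x y hxy =>
      Subtype.ext (e.injective (congrArg (fun z : L => (z : V)) hxy))
    obtain ⟨y, hy⟩ := (LinearMap.injective_iff_surjective.1 hf) ⟨l, hl⟩
    have e2 : e (y : V) = l := congrArg Subtype.val hy
    show e.symm l ∈ L
    rw [← e2, LinearEquiv.symm_apply_apply]
    exact y.2
  refine ⟨⟨b, ⟨_, hinv⟩, ?_, ?_⟩, rfl⟩
  · apply Subtype.ext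
    refine LinearMap.ext fun x => ?_
    show (b : Module.End E V) (e.symm x) = x
    rw [← he, LinearEquiv.apply_symm_apply]
  · apply Subtype.ext
    refine LinearMap.ext fun x => ?_
    show e.symm ((b : Module.End E V) x) = x
    rw [← he, LinearEquiv.symm_apply_apply]

include P in
theorem finrank_BA (ht : 0 < t) :
    finrank ℚ (BA G t) = finrank ℚ (E0 G t) * (t * t) := by
  have hVE : Module.Finite E V := Module.Finite.of_basis P
  have hR := finite_R P
  have hBfin : Module.Finite ℚ (BA G t) :=
    Module.Finite.of_injective ((BA G t).val.toLinearMap.restrictScalars ℚ) Subtype.val_injective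
  have hBfin' : Module.Finite (E0 G t) (BA G t) :=
    Module.Finite.of_restrictScalars_finite ℚ (E0 G t) (BA G t)
  obtain ⟨q1, q2⟩ := fam_basis G P ht (finBasis (E0 G t) (BA G t))
  have c1 : finrank (E0 G t) (BA G t) = t * t := by
    have := Module.finrank_eq_card_basis (Basis.mk q1 q2.ge)
    rw [Fintype.card_fin, Module.finrank_linearMap, Module.finrank_eq_card_basis P,
      Fintype.card_fin] at this
    exact this.symm
  rw [← c1]
  exact (Module.finrank_mul_finrank ℚ (E0 G t) (BA G t)).symm

include P in
/-- if `B` is a division algebra, the dimensions are divisible by the dimension of `B` -/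
theorem fam_div (ht : 0 < t) (hdiv : ∀ b : BA G t, b ≠ 0 → IsUnit b) (L : Submodule ℚ V)
    (hL : L ∈ extSet G t) : finrank ℚ (E0 G t) * (t * t) ∣ finrank ℚ L := by
  have hVE : Module.Finite E V := Module.Finite.of_basis P
  have hV := finite_V P
  have hR := finite_R P
  have hnt : Nontrivial V := by
    have : 0 < finrank E V := by
      rw [Module.finrank_eq_card_basis P, Fintype.card_fin]
      exact ht
    exact Module.nontrivial_of_finrank_pos this
  have hntB : Nontrivial (BA G t) := inferInstance
  let act : Module (BA G t) L :=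
    { smul := fun b x => ⟨(b : Module.End E V) x, b.2 L hL x x.2⟩
      one_smul := fun x => Subtype.ext rfl
      mul_smul := fun b b' x => Subtype.ext rfl
      smul_zero := fun b => Subtype.ext (map_zero (b : Module.End E V))
      smul_add := fun b x y => Subtype.ext (map_add (b : Module.End E V) (x : V) (y : V))
      add_smul := fun b b' x => Subtype.ext rfl
      zero_smul := fun x => Subtype.ext rfl }
  have htower : IsScalarTower ℚ (BA G t) L := ⟨fun q b x => Subtype.ext rfl⟩
  have hBfin : Module.Finite ℚ (BA G t) :=
    Module.Finite.of_injective ((BA G t).val.toLinearMap.restrictScalars ℚ) Subtype.val_injective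
  have hdiv' : ∀ b : BA G t, IsUnit b ∨ b = 0 := fun b => by
    by_cases hb : b = 0
    · exact Or.inr hb
    · exact Or.inl (hdiv b hb)
  have hfree : Module.Free (BA G t) L := by
    let _ : DivisionRing (BA G t) := DivisionRing.ofIsUnitOrEqZero hdiv'
    exact Module.Free.of_divisionRing (BA G t) L
  have hsrc : StrongRankCondition (BA G t) := by
    let _ : DivisionRing (BA G t) := DivisionRing.ofIsUnitOrEqZero hdiv'
    infer_instance
  have h1 := Module.finrank_mul_finrank ℚ (BA G t) L
  rw [finrank_BA G P ht] at h1
  exact ⟨_, h1.symm⟩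

/-- the case of dimension two -/
theorem fam_two (P : Basis (Fin 2) E V) :
    (∃ L₁ ∈ extSet G 2, finrank ℚ L₁ = 2 * finrank ℚ (E0 G 2)) ∨
      ((∀ b : BA G 2, b ≠ 0 → IsUnit b) ∧
        ∀ L ∈ extSet G 2, finrank ℚ (E0 G 2) * (2 * 2) ∣ finrank ℚ L) := by
  have hVE : Module.Finite E V := Module.Finite.of_basis P
  by_cases h : ∃ b ∈ BA G 2, finrank E (LinearMap.range b) = 1
  · obtain ⟨b, hb, hr⟩ := h
    exact Or.inl (fam_of_rank_one_elt G P two_pos b hb hr)
  · right
    push Not at h
    have hdiv : ∀ b : BA G 2, b ≠ 0 → IsUnit b := by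
      intro b hb
      apply isUnit_of_injective G P
      have h1 := h b b.2
      have h2 : finrank E V = 2 := by rw [Module.finrank_eq_card_basis P, Fintype.card_fin]
      have h3 : finrank E (LinearMap.range (b : Module.End E V)) ≤ 2 :=
        (Submodule.finrank_le _).trans h2.le
      have h4 : finrank E (LinearMap.range (b : Module.End E V)) ≠ 0 := by
        intro h0
        apply hb
        apply Subtype.ext
        exact LinearMap.range_eq_bot.1 (Submodule.finrank_eq_zero.1 h0)
      have h5 : finrank E (LinearMap.range (b : Module.End E V)) = finrank E V := by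
        omega
      exact LinearMap.injective_iff_surjective.2
        (LinearMap.range_eq_top.1 (Submodule.eq_top_of_finrank_eq h5))
    exact ⟨hdiv, fun L hL => fam_div G P two_pos hdiv L hL⟩

end famF

end Pool.Agent.Helper5.CL
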