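import Mathlib

/-!
# Representations of matrix algebras over division rings
-/

set_option autoImplicit false
set_option linter.unusedSectionVars false

namespace Pool.Agent.Helper5.CL

open Module

section matmod

variable {K D' W : Type} [Field K] [DivisionRing D'] [Algebra K D'] [AddCommGroup W] [Module K W]
  {s : ℕ} [NeZero s] (φ : Matrix (Fin s) (Fin s) D' →ₐ[K] Module.End K W)

theorem phi_mul (a b : Matrix (Fin s) (Fin s) D') (w : W) : φ (a * b) w = φ a (φ b w) := by
  rw [map_mul]
  rfl

include φ in
/-- the dimension of a representation of a matrix algebra -/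
theorem exists_mult [Module.Finite K D'] : ∃ k, finrank K W = s * finrank K D' * k := by
  classical
  let N : Submodule K W := LinearMap.range (φ (Matrix.single 0 0 1))
  have hN : ∀ y ∈ N, φ (Matrix.single 0 0 1) y = y := by
    rintro _ ⟨z, rfl⟩
    rw [← phi_mul, Matrix.single_mul_single_same, one_mul]
  have hmem : ∀ (i : Fin s) (c : D') (w : W), φ (Matrix.single 0 i c) w ∈ N := by
    intro i c w
    refine ⟨φ (Matrix.single 0 i c) w, ?_⟩
    rw [← phi_mul, Matrix.single_mul_single_same, one_mul]
  let act : Module D' N :=
    { smul := fun c y => ⟨φ (Matrix.single 0 0 c) y, hmem 0 c y⟩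
      one_smul := fun y => Subtype.ext (hN y y.2)
      mul_smul := fun c c' y => Subtype.ext (by
        show φ (Matrix.single 0 0 (c * c')) (y : W) =
          φ (Matrix.single 0 0 c) (φ (Matrix.single 0 0 c') (y : W))
        rw [← phi_mul, Matrix.single_mul_single_same])
      smul_zero := fun c => Subtype.ext (map_zero (φ (Matrix.single 0 0 c)))
      smul_add := fun c y z => Subtype.ext (map_add (φ (Matrix.single 0 0 c)) (y : W) (z : W))
      add_smul := fun c c' y => Subtype.ext (by
        show φ (Matrix.single 0 0 (c + c')) (y : W) =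
          φ (Matrix.single 0 0 c) (y : W) + φ (Matrix.single 0 0 c') (y : W)
        rw [Matrix.single_add, map_add]
        rfl)
      zero_smul := fun y => Subtype.ext (by
        show φ (Matrix.single 0 0 (0 : D')) (y : W) = 0
        rw [Matrix.single_zero, map_zero]
        rfl) }
  have htower : IsScalarTower K D' N := ⟨fun q c y => Subtype.ext (by
    show φ (Matrix.single 0 0 (q • c)) (y : W) = q • φ (Matrix.single 0 0 c) (y : W)
    rw [← Matrix.smul_single, map_smul]
    rfl)⟩
  let e : W ≃ₗ[K] (Fin s → N) :=
    { toFun := fun w i => ⟨φ (Matrix.single 0 i 1) w, hmem i 1 w⟩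
      map_add' := fun w w' => funext fun i => Subtype.ext
        (map_add (φ (Matrix.single 0 i 1)) w w')
      map_smul' := fun q w => funext fun i => Subtype.ext
        (map_smul (φ (Matrix.single 0 i 1)) q w)
      invFun := fun y => ∑ i, φ (Matrix.single i 0 1) (y i : W)
      left_inv := fun w => by
        show ∑ i, φ (Matrix.single i 0 1) (φ (Matrix.single 0 i 1) w) = w
        have h1 : ∀ i : Fin s, φ (Matrix.single i 0 1) (φ (Matrix.single 0 i 1) w) =
            φ (Matrix.single i i 1) w := fun i => by
          rw [← phi_mul, Matrix.single_mul_single_same, one_mul]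
        rw [Finset.sum_congr rfl fun i _ => h1 i, ← LinearMap.sum_apply, ← map_sum,
          Matrix.sum_single_one, map_one]
        rfl
      right_inv := fun y => funext fun i => Subtype.ext (by
        show φ (Matrix.single 0 i 1) (∑ j, φ (Matrix.single j 0 1) (y j : W)) = (y i : W)
        rw [map_sum, Finset.sum_eq_single i]
        · rw [← phi_mul, Matrix.single_mul_single_same, one_mul]
          exact hN _ (y i).2
        · intro j _ hj
          rw [← phi_mul, Matrix.single_mul_single_of_ne _ _ _ _ hj.symm, map_zero]
          rfl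
        · intro h
          exact absurd (Finset.mem_univ i) h) }
  refine ⟨finrank D' N, ?_⟩
  have h2 := Module.finrank_mul_finrank K D' N
  have h3 : finrank K (Fin s → N) = s * finrank K N := by
    by_cases hf : Module.Finite K N
    · rw [Module.finrank_pi_fintype]
      simp
    · have h4 : finrank K N = 0 := Module.finrank_of_not_finite hf
      have h5 : ¬ Module.Finite K (Fin s → N) := by
        intro h6
        apply hf
        exact Module.Finite.of_surjective (LinearMap.proj (R := K) (φ := fun _ : Fin s => N) 0)
          (LinearMap.proj_surjective (R := K) (φ := fun _ : Fin s => N) 0)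
      rw [Module.finrank_of_not_finite h5, h4, mul_zero]
  rw [e.finrank_eq, h3, ← h2, mul_assoc]

/-- the restriction to a stable subspace -/
noncomputable def restr (L : Submodule K W) (h : ∀ b, ∀ l ∈ L, φ b l ∈ L) :
    Matrix (Fin s) (Fin s) D' →ₐ[K] Module.End K L where
  toFun b :=
    { toFun := fun l => ⟨φ b l, h b l l.2⟩
      map_add' := fun x y => Subtype.ext (map_add (φ b) (x : W) (y : W))
      map_smul' := fun q x => Subtype.ext (map_smul (φ b) q (x : W)) }
  map_one' := LinearMap.ext fun l => Subtype.ext (by
    show φ 1 (l : W) = l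
    rw [map_one]
    rfl)
  map_mul' a b := LinearMap.ext fun l => Subtype.ext (phi_mul φ a b (l : W))
  map_zero' := LinearMap.ext fun l => Subtype.ext (by
    show φ 0 (l : W) = 0
    rw [map_zero]
    rfl)
  map_add' a b := LinearMap.ext fun l => Subtype.ext (by
    show φ (a + b) (l : W) = φ a l + φ b l
    rw [map_add]
    rfl)
  commutes' q := LinearMap.ext fun l => Subtype.ext (by
    show φ (algebraMap K _ q) (l : W) = q • (l : W)
    rw [AlgHom.commutes]
    rfl)

/-- a stable subspace of the smallest dimension -/
theorem exists_small [Module.Finite K D'] [Nontrivial W] :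
    ∃ L : Submodule K W, (∀ b, ∀ l ∈ L, φ b l ∈ L) ∧ finrank K L = s * finrank K D' := by
  classical
  obtain ⟨v, hv⟩ : ∃ v, φ (Matrix.single 0 0 1) v ≠ 0 := by
    by_contra hcon
    push Not at hcon
    obtain ⟨w, hw⟩ := exists_ne (0 : W)
    apply hw
    have h1 : ∀ i : Fin s, φ (Matrix.single i i 1) w = 0 := fun i => by
      have h2 : (Matrix.single i i 1 : Matrix (Fin s) (Fin s) D') =
          Matrix.single i 0 1 * (Matrix.single 0 0 1 * Matrix.single 0 i 1) := by
        rw [Matrix.single_mul_single_same, Matrix.single_mul_single_same, one_mul, one_mul]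
      rw [h2, phi_mul, phi_mul, hcon, map_zero]
    have h3 : φ 1 w = 0 := by
      rw [← Matrix.sum_single_one, map_sum, LinearMap.sum_apply]
      exact Finset.sum_eq_zero fun i _ => h1 i
    rwa [map_one] at h3
  set w := φ (Matrix.single 0 0 1) v with hw
  have hw0 : φ (Matrix.single 0 0 1) w = w := by
    rw [hw, ← phi_mul, Matrix.single_mul_single_same, one_mul]
  let ψ : (Fin s → D') →ₗ[K] W :=
    { toFun := fun c => φ (∑ i, Matrix.single i 0 (c i)) w
      map_add' := fun c c' => by
        rw [← LinearMap.add_apply, ← map_add, ← Finset.sum_add_distrib]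
        congr 2
        exact Finset.sum_congr rfl fun i _ => Matrix.single_add _ _ _ _
      map_smul' := fun q c => by
        rw [RingHom.id_apply, ← LinearMap.smul_apply, ← map_smul, Finset.smul_sum]
        congr 2
        exact Finset.sum_congr rfl fun i _ => (Matrix.smul_single q i 0 (c i)).symm }
  have hψ : ∀ b, φ b w ∈ LinearMap.range ψ := by
    intro b
    refine ⟨fun i => b i 0, ?_⟩
    show φ (∑ i, Matrix.single i 0 (b i 0)) w = φ b w
    have h1 : b * Matrix.single 0 0 1 = ∑ i, Matrix.single i 0 (b i 0) := by
      ext i j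
      rw [Matrix.sum_apply]
      simp only [Matrix.single_apply]
      by_cases hj : 0 = j
      · subst hj
        rw [Matrix.mul_single_apply_same, mul_one]
        simp
      · rw [Matrix.mul_apply]
        simp [hj]
    rw [← h1, phi_mul, hw0]
  have hst : ∀ b, ∀ l ∈ LinearMap.range ψ, φ b l ∈ LinearMap.range ψ := by
    rintro b _ ⟨c, rfl⟩
    show φ b (φ (∑ i, Matrix.single i 0 (c i)) w) ∈ _
    rw [← phi_mul]
    exact hψ _
  refine ⟨LinearMap.range ψ, hst, ?_⟩
  obtain ⟨k, hk⟩ := exists_mult (restr φ (LinearMap.range ψ) hst)
  have h1 : finrank K (LinearMap.range ψ) ≤ s * finrank K D' := by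
    refine (LinearMap.finrank_range_le ψ).trans ?_
    rw [Module.finrank_pi_fintype]
    simp
  have h2 : 0 < finrank K (LinearMap.range ψ) := by
    have : Nontrivial (LinearMap.range ψ) := by
      refine ⟨⟨⟨w, ?_⟩, 0, fun h => hv (congrArg Subtype.val h)⟩⟩
      have := hψ 1
      rwa [map_one] at this
    exact finrank_pos
  rw [hk] at h1 h2 ⊢
  have h3 : k ≠ 0 := by
    rintro rfl
    rw [mul_zero] at h2
    exact h2.ne rfl
  have h4 : 0 < s * finrank K D' := Nat.pos_of_mul_pos_right (by rwa [mul_comm] at h2)
  have h5 : k ≤ 1 := by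
    by_contra hcon
    push Not at hcon
    nlinarith
  have h6 : k = 1 := by omega
  rw [h6, mul_one]

end matmod

end Pool.Agent.Helper5.CL
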