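import Pool.Agent.Helper5.CL.FamF
import Pool.Agent.Helper5.CL.MatRep

/-!
# The index of `B` and the dimensions of the subspaces of the smallest rank
-/

set_option autoImplicit false
set_option linter.unusedSectionVars false

namespace Pool.Agent.Helper5.CL

open Module Pool.Agent.N192.AV

section famG

variable {E C V : Type} [Field E] [CharZero E] [FiniteDimensional ℚ E] [Field C] [CharZero C]
  [IsAlgClosed C] [AddCommGroup V] [Module E V] [Module ℚ V] [IsScalarTower ℚ E V] {t : ℕ}
  (G : Fam E C V) (P : Basis (Fin t) E V)

include P in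
theorem span_BA (ht : 0 < t) : Submodule.span E (BA G t : Set (Module.End E V)) = ⊤ := by
  obtain ⟨r, ψ, hψ, hr⟩ := exists_rep (lamU G P) (extK G P)
  rw [BA_eq]
  exact span_Bst G P ht hψ hr

include P in
theorem finite_BA : Module.Finite ℚ (BA G t) := by
  have hVE : Module.Finite E V := Module.Finite.of_basis P
  have hV := finite_V P
  have hR := finite_R P
  exact Module.Finite.of_injective ((BA G t).val.toLinearMap.restrictScalars ℚ)
    Subtype.val_injective

include P in
theorem finite_BA' : Module.Finite (E0 G t) (BA G t) := by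
  have h := finite_BA G P
  exact Module.Finite.of_restrictScalars_finite ℚ (E0 G t) (BA G t)

include P in
theorem finrank_BA' (ht : 0 < t) : finrank (E0 G t) (BA G t) = t * t := by
  have h := finite_BA' G P
  have h1 := finrank_BA G P ht
  rw [← Module.finrank_mul_finrank ℚ (E0 G t) (BA G t)] at h1
  exact Nat.eq_of_mul_eq_mul_left finrank_pos h1

include P in
/-- a nonzero two-sided ideal of `B` spans `End_E(V)` -/
theorem span_ideal (ht : 0 < t) (I : Ideal (BA G t)) (hI : I.IsTwoSided) (hne : I ≠ ⊥) :
    Submodule.span E {x : Module.End E V | ∃ b ∈ I, (b : Module.End E V) = x} = ⊤ := by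
  classical
  set J := Submodule.span E {x : Module.End E V | ∃ b ∈ I, (b : Module.End E V) = x} with hJ
  have hsp := span_BA G P ht
  have hleft : ∀ u : Module.End E V, ∀ x ∈ J, u * x ∈ J := by
    intro u x hx
    have hu : u ∈ Submodule.span E (BA G t : Set (Module.End E V)) := by rw [hsp]; trivial
    refine Submodule.span_induction (p := fun u _ => u * x ∈ J) ?_ ?_ ?_ ?_ hu
    · intro a ha
      refine Submodule.span_induction (p := fun x _ => a * x ∈ J) ?_ ?_ ?_ ?_ hx
      · rintro _ ⟨b, hb, rfl⟩
        exact Submodule.subset_span ⟨⟨a, ha⟩ * b, I.mul_mem_left _ hb, rfl⟩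
      · rw [mul_zero]
        exact J.zero_mem
      · intro y z _ _ hy hz
        rw [mul_add]
        exact J.add_mem hy hz
      · intro e y _ hy
        rw [mul_smul_comm]
        exact J.smul_mem e hy
    · rw [zero_mul]
      exact J.zero_mem
    · intro y z _ _ hy hz
      rw [add_mul]
      exact J.add_mem hy hz
    · intro e y _ hy
      rw [smul_mul_assoc]
      exact J.smul_mem e hy
  have hright : ∀ u : Module.End E V, ∀ x ∈ J, x * u ∈ J := by
    intro u x hx
    have hu : u ∈ Submodule.span E (BA G t : Set (Module.End E V)) := by rw [hsp]; trivial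
    refine Submodule.span_induction (p := fun u _ => x * u ∈ J) ?_ ?_ ?_ ?_ hu
    · intro a ha
      refine Submodule.span_induction (p := fun x _ => x * a ∈ J) ?_ ?_ ?_ ?_ hx
      · rintro _ ⟨b, hb, rfl⟩
        exact Submodule.subset_span ⟨b * ⟨a, ha⟩, I.mul_mem_right _ hb, rfl⟩
      · rw [zero_mul]
        exact J.zero_mem
      · intro y z _ _ hy hz
        rw [add_mul]
        exact J.add_mem hy hz
      · intro e y _ hy
        rw [smul_mul_assoc]
        exact J.smul_mem e hy
    · rw [mul_zero]
      exact J.zero_mem
    · intro y z _ _ hy hz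
      rw [mul_add]
      exact J.add_mem hy hz
    · intro e y _ hy
      rw [mul_smul_comm]
      exact J.smul_mem e hy
  obtain ⟨b, hb, hb0⟩ := Submodule.exists_mem_ne_zero_of_ne_bot hne
  obtain ⟨v, hv⟩ : ∃ v, (b : Module.End E V) v ≠ 0 := by
    by_contra hcon
    push Not at hcon
    exact hb0 (Subtype.ext (LinearMap.ext hcon))
  obtain ⟨f, hf⟩ : ∃ f : V →ₗ[E] E, f ((b : Module.End E V) v) ≠ 0 := by
    by_contra hcon
    push Not at hcon
    exact hv ((Module.forall_dual_apply_eq_zero_iff E _).1 hcon)
  have hone : ∀ (g : V →ₗ[E] E) (x : V), (g.smulRight x : Module.End E V) ∈ J := by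
    intro g x
    have h1 : (g.smulRight x : Module.End E V) =
        (f.smulRight ((f ((b : Module.End E V) v))⁻¹ • x) : Module.End E V) *
          ((b : Module.End E V) * (g.smulRight v : Module.End E V)) := by
      refine LinearMap.ext fun y => ?_
      show g y • x = f ((b : Module.End E V) (g y • v)) • ((f ((b : Module.End E V) v))⁻¹ • x)
      rw [map_smul, map_smul, smul_eq_mul, smul_smul, mul_assoc, mul_inv_cancel₀ hf, mul_one]
    rw [h1]
    exact hleft _ _ (hright _ _ (Submodule.subset_span ⟨b, hb, rfl⟩))
  rw [eq_top_iff]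
  intro T _
  have h2 : T = ∑ i, ((P.coord i).smulRight (T (P i)) : Module.End E V) := by
    refine P.ext fun j => ?_
    rw [LinearMap.sum_apply, Finset.sum_eq_single j]
    · rw [LinearMap.smulRight_apply, Basis.coord_apply, Basis.repr_self, Finsupp.single_eq_same,
        one_smul]
    · intro i _ hi
      rw [LinearMap.smulRight_apply, Basis.coord_apply, Basis.repr_self,
        Finsupp.single_eq_of_ne hi, zero_smul]
    · intro h
      exact absurd (Finset.mem_univ j) h
  rw [h2]
  exact J.sum_mem fun i _ => hone _ _

include P in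
/-- `B` is a simple ring -/
theorem simple_BA (ht : 0 < t) : IsSimpleRing (BA G t) := by
  classical
  have hVE : Module.Finite E V := Module.Finite.of_basis P
  have hnt : Nontrivial V := by
    have : 0 < finrank E V := by
      rw [Module.finrank_eq_card_basis P, Fintype.card_fin]
      exact ht
    exact Module.nontrivial_of_finrank_pos this
  have hfin := finite_BA' G P
  rw [isSimpleRing_iff_isTwoSided_imp]
  refine ⟨inferInstance, fun I hI => ?_⟩
  by_cases hne : I = ⊥
  · exact Or.inl hne
  right
  have hspan := span_ideal G P ht I hI hne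
  let I' : Submodule (E0 G t) (BA G t) := I.restrictScalars (E0 G t)
  have hfree : Module.Free (E0 G t) I' := Module.Free.of_divisionRing (E0 G t) I'
  have hfinI : Module.Finite (E0 G t) I' := inferInstance
  let g := finBasis (E0 G t) I'
  have h1 : Submodule.span E
      (Set.range fun i => ((g i : BA G t) : Module.End E V)) = ⊤ := by
    rw [eq_top_iff, ← hspan, Submodule.span_le]
    rintro _ ⟨b, hb, rfl⟩
    have e1 := congrArg (fun z : I' => ((z : BA G t) : Module.End E V)) (g.sum_repr ⟨b, hb⟩)
    simp only [Submodule.coe_smul, AddSubmonoidClass.coe_finsetSum] at e1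
    have e2 : (b : Module.End E V) =
        ∑ i, ((g.repr ⟨b, hb⟩ i : E0 G t) : E) • ((g i : BA G t) : Module.End E V) := e1.symm
    rw [e2]
    exact Submodule.sum_mem _ fun i _ => Submodule.smul_mem _ _ (Submodule.subset_span ⟨i, rfl⟩)
  have h2 : finrank E (Module.End E V) = t * t := by
    rw [Module.finrank_linearMap, Module.finrank_eq_card_basis P, Fintype.card_fin]
  have h3 : t * t ≤ finrank (E0 G t) I' := by
    have e1 := finrank_range_le_card (R := E) (fun i => ((g i : BA G t) : Module.End E V))
    rw [Set.finrank, h1, finrank_top, h2, Fintype.card_fin] at e1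
    exact e1
  have h4 : I' = ⊤ := by
    apply Submodule.eq_top_of_finrank_eq
    apply le_antisymm (Submodule.finrank_le _)
    rw [finrank_BA' G P ht]
    exact h3
  rw [eq_top_iff]
  intro b _
  have : b ∈ I' := by rw [h4]; trivial
  exact this

end famG

end Pool.Agent.Helper5.CL
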