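import Mathlib

/-!
# Subspaces of a product of spaces on which functionals have the smallest possible rank

`K` is an algebraically closed field, `C` an extension field, `U = K ^ t`, and for every `σ` in a
finite set `X` there is an injective `K`-linear functional `ℓ σ : U → C`. For a `K`-subspace `Λ` of
`X → U` the functionals `w ↦ ℓ σ (w σ)` on `Λ` span a `C`-space of dimension `rk ℓ Λ`, and
`dim Λ ≤ t * rk ℓ Λ`. We study the subspaces with equality.
-/

set_option autoImplicit false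

namespace Pool.Agent.Helper5.CL

open Module

section lin

variable {X K C : Type} [Field K] [Field C] [Algebra K C] {t : ℕ}

/-- the functional `w ↦ ℓ σ (w σ)` on `Λ` -/
noncomputable def lw (ℓ : X → (Fin t → K) →ₗ[K] C) (Λ : Submodule K (X → Fin t → K)) (σ : X) :
    Λ →ₗ[K] C :=
  (ℓ σ).comp ((LinearMap.proj σ).comp Λ.subtype)

@[simp] theorem lw_apply (ℓ : X → (Fin t → K) →ₗ[K] C) (Λ : Submodule K (X → Fin t → K)) (σ : X)
    (w : Λ) : lw ℓ Λ σ w = ℓ σ ((w : X → Fin t → K) σ) := rfl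

/-- the rank of the functionals on `Λ` over `C` -/
noncomputable def rk (ℓ : X → (Fin t → K) →ₗ[K] C) (Λ : Submodule K (X → Fin t → K)) : ℕ :=
  finrank C (Submodule.span C (Set.range (lw ℓ Λ)))

/-- `b` maps `Λ` into itself -/
def Stab (b : X → Module.End K (Fin t → K)) (Λ : Submodule K (X → Fin t → K)) : Prop :=
  ∀ w ∈ Λ, (fun σ => b σ (w σ)) ∈ Λ

variable (ℓ : X → (Fin t → K) →ₗ[K] C) (hℓ : ∀ σ, Function.Injective (ℓ σ))

theorem exists_basis [Finite X] (Λ : Submodule K (X → Fin t → K)) :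
    ∃ (κ : Type) (_ : Fintype κ) (a : κ → X) (c : X → κ → C), Fintype.card κ = rk ℓ Λ ∧
      LinearIndependent C (fun k => lw ℓ Λ (a k)) ∧
      ∀ σ, lw ℓ Λ σ = ∑ k, c σ k • lw ℓ Λ (a k) := by
  classical
  obtain ⟨κ, a, ha, hsp, hli⟩ := exists_linearIndependent' C (lw ℓ Λ)
  have : Finite κ := Finite.of_injective a ha
  have := Fintype.ofFinite κ
  have h1 : ∀ σ, ∃ c : κ → C, ∑ k, c k • (lw ℓ Λ ∘ a) k = lw ℓ Λ σ := by
    intro σ
    have h2 : lw ℓ Λ σ ∈ Submodule.span C (Set.range (lw ℓ Λ ∘ a)) := by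
      rw [hsp]
      exact Submodule.subset_span ⟨σ, rfl⟩
    exact (Submodule.mem_span_range_iff_exists_fun C).1 h2
  choose c hc using h1
  refine ⟨κ, inferInstance, a, c, ?_, hli, fun σ => (hc σ).symm⟩
  rw [rk, ← hsp, finrank_span_eq_card hli]

include hℓ in
theorem eq_zero_of_basis [Finite X] (Λ : Submodule K (X → Fin t → K)) {κ : Type} [Fintype κ]
    (a : κ → X) (c : X → κ → C) (hc : ∀ σ, lw ℓ Λ σ = ∑ k, c σ k • lw ℓ Λ (a k))
    (w : Λ) (hw : ∀ k, (w : X → Fin t → K) (a k) = 0) : w = 0 := by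
  apply Subtype.ext
  funext σ
  apply hℓ σ
  have h1 := LinearMap.congr_fun (hc σ) w
  rw [LinearMap.sum_apply] at h1
  have h2 : ∀ k, (c σ k • lw ℓ Λ (a k)) w = 0 := by
    intro k
    rw [LinearMap.smul_apply, lw_apply, hw k, map_zero, smul_zero]
  rw [Finset.sum_eq_zero (fun k _ => h2 k), lw_apply] at h1
  rw [h1]
  simp

include hℓ in
/-- `dim Λ ≤ t rk Λ` -/
theorem finrank_le_rk [Finite X] (Λ : Submodule K (X → Fin t → K)) :
    finrank K Λ ≤ t * rk ℓ Λ := by
  obtain ⟨κ, _, a, c, hcard, -, hc⟩ := exists_basis ℓ Λ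
  let Pi : Λ →ₗ[K] (κ → Fin t → K) :=
    LinearMap.pi fun k => (LinearMap.proj (a k)).comp Λ.subtype
  have hinj : Function.Injective Pi := by
    rw [← LinearMap.ker_eq_bot, LinearMap.ker_eq_bot']
    intro w hw
    exact eq_zero_of_basis ℓ hℓ Λ a c hc w fun k => congrFun hw k
  have h1 := LinearMap.finrank_le_finrank_of_injective hinj
  rw [Module.finrank_pi_fintype] at h1
  simp only [Module.finrank_fintype_fun_eq_card, Fintype.card_fin, Finset.sum_const,
    Finset.card_univ, smul_eq_mul] at h1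
  rw [hcard, mul_comm] at h1
  exact h1

include hℓ in
/-- the structure of the subspaces with `dim Λ = t rk Λ` -/
theorem structure_of_ext [Finite X] (Λ : Submodule K (X → Fin t → K))
    (hΛ : finrank K Λ = t * rk ℓ Λ) :
    ∃ (κ : Type) (_ : Fintype κ) (_ : DecidableEq κ) (a : κ → X)
      (P : X → κ → Module.End K (Fin t → K)) (c : X → κ → C),
      (∀ w ∈ Λ, ∀ τ, w τ = ∑ k, P τ k (w (a k))) ∧
      (∀ z : κ → Fin t → K, ∃ w ∈ Λ, ∀ k, w (a k) = z k) ∧
      (∀ τ k u, ℓ τ (P τ k u) = c τ k * ℓ (a k) u) ∧ Fintype.card κ = rk ℓ Λ := by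
  classical
  obtain ⟨κ, _, a, c, hcard, -, hc⟩ := exists_basis ℓ Λ
  let Pi : Λ →ₗ[K] (κ → Fin t → K) :=
    LinearMap.pi fun k => (LinearMap.proj (a k)).comp Λ.subtype
  have hinj : Function.Injective Pi := by
    rw [← LinearMap.ker_eq_bot, LinearMap.ker_eq_bot']
    intro w hw
    exact eq_zero_of_basis ℓ hℓ Λ a c hc w fun k => congrFun hw k
  have hfr : finrank K Λ = finrank K (κ → Fin t → K) := by
    rw [hΛ, Module.finrank_pi_fintype]
    simp only [Module.finrank_fintype_fun_eq_card, Fintype.card_fin, Finset.sum_const,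
      Finset.card_univ, smul_eq_mul]
    rw [hcard, mul_comm]
  let e : Λ ≃ₗ[K] (κ → Fin t → K) := LinearEquiv.ofInjectiveOfFinrankEq Pi hinj hfr
  have he : ∀ w : Λ, ∀ k, e w k = (w : X → Fin t → K) (a k) := fun w k => rfl
  have hes : ∀ z k, ((e.symm z : Λ) : X → Fin t → K) (a k) = z k := by
    intro z k
    rw [← he, LinearEquiv.apply_symm_apply]
  let P : X → κ → Module.End K (Fin t → K) := fun τ k =>
    (LinearMap.proj τ).comp (Λ.subtype.comp
      (e.symm.toLinearMap.comp (LinearMap.single K (fun _ : κ => Fin t → K) k)))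
  refine ⟨κ, inferInstance, inferInstance, a, P, c, ?_, ?_, ?_, hcard⟩
  · intro w hw τ
    have h1 : e.symm (e ⟨w, hw⟩) = ⟨w, hw⟩ := e.symm_apply_apply _
    have h2 : e ⟨w, hw⟩ = ∑ k, LinearMap.single K (fun _ : κ => Fin t → K) k (w (a k)) := by
      exact (Finset.univ_sum_single (e ⟨w, hw⟩)).symm
    rw [h2, map_sum] at h1
    have h3 := congrArg (fun v : Λ => (v : X → Fin t → K) τ) h1
    simp only [Submodule.coe_sum, Finset.sum_apply] at h3
    exact h3.symm
  · intro z
    exact ⟨e.symm z, (e.symm z).2, fun k => hes z k⟩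
  · intro τ k u
    have h1 := LinearMap.congr_fun (hc τ)
      (e.symm (LinearMap.single K (fun _ : κ => Fin t → K) k u))
    rw [LinearMap.sum_apply, lw_apply] at h1
    have h2 : ∀ k', (c τ k' • lw ℓ Λ (a k'))
        (e.symm (LinearMap.single K (fun _ : κ => Fin t → K) k u)) =
        if k' = k then c τ k * ℓ (a k) u else 0 := by
      intro k'
      rw [LinearMap.smul_apply, lw_apply, hes]
      by_cases hk : k' = k
      · subst hk
        simp
      · simp [hk]
    rw [Finset.sum_congr rfl (fun k' _ => h2 k'), Finset.sum_ite_eq' Finset.univ k, if_pos (Finset.mem_univ k)] at h1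
    exact h1

/-- the maps which stabilize a subspace given by the `P τ k` -/
theorem stab_iff {Λ : Submodule K (X → Fin t → K)} {κ : Type} [Fintype κ] [DecidableEq κ]
    {a : κ → X} {P : X → κ → Module.End K (Fin t → K)}
    (h1 : ∀ w ∈ Λ, ∀ τ, w τ = ∑ k, P τ k (w (a k)))
    (h2 : ∀ z : κ → Fin t → K, ∃ w ∈ Λ, ∀ k, w (a k) = z k)
    (b : X → Module.End K (Fin t → K)) :
    Stab b Λ ↔ ∀ τ k, b τ * P τ k = P τ k * b (a k) := by
  constructor
  · intro hb τ k
    refine LinearMap.ext fun u => ?_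
    obtain ⟨w, hw, hwk⟩ := h2 (Pi.single k u)
    have h3 : w τ = P τ k u := by
      rw [h1 w hw τ, Finset.sum_eq_single k]
      · rw [hwk k, Pi.single_eq_same]
      · intro k' _ hk
        rw [hwk k', Pi.single_eq_of_ne hk, map_zero]
      · intro hk
        exact absurd (Finset.mem_univ k) hk
    have h4 := h1 _ (hb w hw) τ
    change b τ (w τ) = ∑ k', P τ k' (b (a k') (w (a k'))) at h4
    rw [h3, Finset.sum_eq_single k] at h4
    · rw [hwk k, Pi.single_eq_same] at h4
      exact h4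
    · intro k' _ hk
      rw [hwk k', Pi.single_eq_of_ne hk, map_zero, map_zero]
    · intro hk
      exact absurd (Finset.mem_univ k) hk
  · intro hb w hw
    obtain ⟨w', hw', hwk⟩ := h2 (fun k => b (a k) (w (a k)))
    have h3 : (fun σ => b σ (w σ)) = w' := by
      funext τ
      rw [h1 w' hw' τ, h1 w hw τ, map_sum]
      refine Finset.sum_congr rfl fun k _ => ?_
      rw [hwk k]
      exact LinearMap.congr_fun (hb τ k) (w (a k))
    rw [h3]
    exact hw'

end lin

end Pool.Agent.Helper5.CL
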