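import Pool.Agent.Helper5.CL.Lin

/-!
# The maps which stabilize all subspaces with the smallest possible rank
-/

set_option autoImplicit false

namespace Pool.Agent.Helper5.CL

open Module

section main

variable {X K C : Type} [Field K] [Field C] [Algebra K C] {t : ℕ}

theorem eq_smul [IsAlgClosed K] (ht : 0 < t) (l : (Fin t → K) →ₗ[K] C)
    (hl : Function.Injective l) (T : Module.End K (Fin t → K)) (q : C)
    (h : ∀ u, l (T u) = q * l u) : ∃ s : K, ∀ u, T u = s • u := by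
  have : Nonempty (Fin t) := ⟨⟨0, ht⟩⟩
  obtain ⟨s, hs⟩ := Module.End.exists_eigenvalue T
  obtain ⟨v, hv⟩ := hs.exists_hasEigenvector
  have hv1 : T v = s • v := hv.apply_eq_smul
  have hv2 : l v ≠ 0 := by
    intro h0
    exact hv.2 (hl (by rw [h0, map_zero]))
  have hq : q = algebraMap K C s := by
    have h1 := h v
    rw [hv1, map_smul, Algebra.smul_def] at h1
    exact (mul_right_cancel₀ hv2 h1).symm
  refine ⟨s, fun u => hl ?_⟩
  rw [h u, map_smul, Algebra.smul_def, hq]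

/-- `ψ` compares the functionals `ℓ σ` and `ℓ τ`, and the components `b σ` and `b τ` of all `b` which
stabilize the subspaces in `𝓔` -/
def Link (ℓ : X → (Fin t → K) →ₗ[K] C) (𝓔 : Set (Submodule K (X → Fin t → K))) (σ τ : X)
    (ψ : (Fin t → K) ≃ₗ[K] (Fin t → K)) : Prop :=
  (∃ c : C, c ≠ 0 ∧ ∀ u, ℓ τ (ψ u) = c * ℓ σ u) ∧
    ∀ b : X → Module.End K (Fin t → K), (∀ Λ ∈ 𝓔, Stab b Λ) → ∀ u, b τ (ψ u) = ψ (b σ u)

variable (ℓ : X → (Fin t → K) →ₗ[K] C) (𝓔 : Set (Submodule K (X → Fin t → K)))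

theorem link_refl (σ : X) : Link ℓ 𝓔 σ σ (LinearEquiv.refl K (Fin t → K)) :=
  ⟨⟨1, one_ne_zero, fun u => by simp⟩, fun b _ u => rfl⟩

variable {ℓ 𝓔}

theorem Link.symm {σ τ : X} {ψ : (Fin t → K) ≃ₗ[K] (Fin t → K)} (h : Link ℓ 𝓔 σ τ ψ) :
    Link ℓ 𝓔 τ σ ψ.symm := by
  obtain ⟨⟨c, hc, h1⟩, h2⟩ := h
  refine ⟨⟨c⁻¹, inv_ne_zero hc, fun u => ?_⟩, fun b hb u => ?_⟩
  · have h3 := h1 (ψ.symm u)
    rw [LinearEquiv.apply_symm_apply] at h3
    rw [h3, inv_mul_cancel_left₀ hc]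
  · apply ψ.injective
    rw [LinearEquiv.apply_symm_apply, ← h2 b hb, LinearEquiv.apply_symm_apply]

theorem Link.trans {σ τ ρ : X} {ψ ψ' : (Fin t → K) ≃ₗ[K] (Fin t → K)} (h : Link ℓ 𝓔 σ τ ψ)
    (h' : Link ℓ 𝓔 τ ρ ψ') : Link ℓ 𝓔 σ ρ (ψ.trans ψ') := by
  obtain ⟨⟨c, hc, h1⟩, h2⟩ := h
  obtain ⟨⟨c', hc', h1'⟩, h2'⟩ := h'
  refine ⟨⟨c' * c, mul_ne_zero hc' hc, fun u => ?_⟩, fun b hb u => ?_⟩
  · rw [LinearEquiv.trans_apply, h1', h1, mul_assoc]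
  · rw [LinearEquiv.trans_apply, LinearEquiv.trans_apply, h2' b hb, h2 b hb]

variable (ℓ 𝓔)

/-- representatives of the classes of linked elements -/
theorem exists_rep : ∃ (r : X → X) (ψ : X → ((Fin t → K) ≃ₗ[K] (Fin t → K))),
    (∀ σ, Link ℓ 𝓔 (r σ) σ (ψ σ)) ∧ ∀ σ τ ψ', Link ℓ 𝓔 σ τ ψ' → r σ = r τ := by
  let S : Setoid X :=
    { r := fun σ τ => ∃ ψ, Link ℓ 𝓔 σ τ ψ
      iseqv :=
        { refl := fun σ => ⟨_, link_refl ℓ 𝓔 σ⟩
          symm := fun ⟨ψ, h⟩ => ⟨_, h.symm⟩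
          trans := fun ⟨ψ, h⟩ ⟨ψ', h'⟩ => ⟨_, h.trans h'⟩ } }
  let r : X → X := fun σ => Quotient.out (Quotient.mk S σ)
  have hr : ∀ σ, ∃ ψ, Link ℓ 𝓔 (r σ) σ ψ := by
    intro σ
    have h1 : Quotient.mk S (r σ) = Quotient.mk S σ := Quotient.out_eq _
    exact Quotient.exact h1
  choose ψ hψ using hr
  refine ⟨r, ψ, hψ, fun σ τ ψ' h => ?_⟩
  have h1 : Quotient.mk S σ = Quotient.mk S τ := Quotient.sound ⟨ψ', h⟩
  show Quotient.out (Quotient.mk S σ) = Quotient.out (Quotient.mk S τ)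
  rw [h1]

/-- the maps given by one endomorphism for every class -/
def bA (r : X → X) (ψ : X → ((Fin t → K) ≃ₗ[K] (Fin t → K))) (A : X → Module.End K (Fin t → K)) :
    X → Module.End K (Fin t → K) :=
  fun σ => ((ψ σ).toLinearMap.comp (A (r σ))).comp (ψ σ).symm.toLinearMap

theorem bA_apply (r : X → X) (ψ : X → ((Fin t → K) ≃ₗ[K] (Fin t → K)))
    (A : X → Module.End K (Fin t → K)) (σ : X) (u : Fin t → K) :
    bA r ψ A σ u = ψ σ (A (r σ) ((ψ σ).symm u)) := rfl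

variable {ℓ 𝓔}

theorem eq_bA {r : X → X} {ψ : X → ((Fin t → K) ≃ₗ[K] (Fin t → K))}
    (hψ : ∀ σ, Link ℓ 𝓔 (r σ) σ (ψ σ)) (b : X → Module.End K (Fin t → K))
    (hb : ∀ Λ ∈ 𝓔, Stab b Λ) : b = bA r ψ b := by
  funext σ
  refine LinearMap.ext fun u => ?_
  rw [bA_apply, ← (hψ σ).2 b hb, LinearEquiv.apply_symm_apply]

theorem bA_stab [Finite X] [IsAlgClosed K] (ht : 0 < t) (hℓ : ∀ σ, Function.Injective (ℓ σ))
    (h𝓔 : ∀ Λ ∈ 𝓔, finrank K Λ = t * rk ℓ Λ)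
    {r : X → X} {ψ : X → ((Fin t → K) ≃ₗ[K] (Fin t → K))}
    (hψ : ∀ σ, Link ℓ 𝓔 (r σ) σ (ψ σ)) (hr : ∀ σ τ ψ', Link ℓ 𝓔 σ τ ψ' → r σ = r τ)
    (A : X → Module.End K (Fin t → K)) : ∀ Λ ∈ 𝓔, Stab (bA r ψ A) Λ := by
  intro Λ hΛ
  obtain ⟨κ, _, _, a, P, c, h1, h2, h3, -⟩ := structure_of_ext ℓ hℓ Λ (h𝓔 Λ hΛ)
  rw [stab_iff h1 h2]
  intro τ k
  by_cases hc : c τ k = 0
  · have hP : P τ k = 0 := by
      refine LinearMap.ext fun u => hℓ τ ?_
      rw [h3, hc, zero_mul, LinearMap.zero_apply, map_zero]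
    rw [hP, mul_zero, zero_mul]
  · have hinj : Function.Injective (P τ k) := by
      rw [← LinearMap.ker_eq_bot, LinearMap.ker_eq_bot']
      intro u hu
      have h4 := h3 τ k u
      rw [hu, map_zero] at h4
      have h5 := (mul_eq_zero.1 h4.symm).resolve_left hc
      exact hℓ (a k) (by rw [h5, map_zero])
    let φ : (Fin t → K) ≃ₗ[K] (Fin t → K) := LinearEquiv.ofInjectiveEndo (P τ k) hinj
    have hφ : ∀ u, φ u = P τ k u := fun u => rfl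
    have hlink : Link ℓ 𝓔 (a k) τ φ := by
      refine ⟨⟨c τ k, hc, fun u => h3 τ k u⟩, fun b hb u => ?_⟩
      have h6 := (stab_iff h1 h2 b).1 (hb Λ hΛ) τ k
      exact LinearMap.congr_fun h6 u
    have hrr : r (a k) = r τ := hr _ _ _ hlink
    have hl1 : Link ℓ 𝓔 (r τ) τ ((ψ (a k)).trans φ) := by
      have := (hψ (a k)).trans hlink
      rwa [hrr] at this
    -- the two isomorphisms differ by a scalar
    obtain ⟨⟨c1, hc1, e1⟩, -⟩ := hl1
    obtain ⟨⟨c2, hc2, e2⟩, -⟩ := hψ τ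
    obtain ⟨s, hs⟩ := eq_smul ht (ℓ τ) (hℓ τ)
      (((ψ (a k)).trans φ).toLinearMap.comp (ψ τ).symm.toLinearMap) (c1 / c2) (by
        intro u
        have e3 := e1 ((ψ τ).symm u)
        have e4 := e2 ((ψ τ).symm u)
        rw [LinearEquiv.apply_symm_apply] at e4
        change ℓ τ (((ψ (a k)).trans φ) ((ψ τ).symm u)) = _
        rw [e3, e4]
        field_simp)
    have hs' : ∀ u, φ (ψ (a k) u) = s • ψ τ u := by
      intro u
      have := hs (ψ τ u)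
      change ((ψ (a k)).trans φ) ((ψ τ).symm (ψ τ u)) = _ at this
      rw [LinearEquiv.symm_apply_apply] at this
      exact this
    refine LinearMap.ext fun u => ?_
    change bA r ψ A τ (φ u) = φ (bA r ψ A (a k) u)
    obtain ⟨v, rfl⟩ := (ψ (a k)).surjective u
    rw [hs', bA_apply, bA_apply, LinearEquiv.symm_apply_apply, hrr, hs', map_smul,
      LinearEquiv.symm_apply_apply, map_smul, map_smul]

end main

end Pool.Agent.Helper5.CL
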